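import Mathlib
import Pool.Agent.H50.G.S.R528.RM.Tails

/-!
# Short intervals in sequential random models
-/

set_option autoImplicit false
set_option linter.unusedSectionVars false

open MeasureTheory Filter Set
open scoped ENNReal Topology NNReal

namespace Pool.Agent.N740.HK

open Pool.Agent.R528.RM

variable {Ω : Type} {m0 : MeasurableSpace Ω} {μ : Measure Ω} [IsProbabilityMeasure μ]
  {ℱ : Filtration ℕ m0} {A : ℕ → Set Ω}

lemma II_pos {s : ℝ} (hs : 0 < s) (h1 : s ≠ 1) : 0 < II s := by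
  have h2 : Real.log (1 / s) < 1 / s - 1 := Real.log_lt_sub_one_of_pos (by positivity) (by
    intro h
    apply h1
    rw [div_eq_one_iff_eq hs.ne'] at h
    exact h.symm)
  rw [one_div, Real.log_inv] at h2
  unfold II
  have h3 : s * (-Real.log s) < s * (s⁻¹ - 1) := mul_lt_mul_of_pos_left h2 hs
  rw [mul_sub, mul_inv_cancel₀ hs.ne'] at h3
  linarith

lemma cnt_add (t j j' : ℕ) (ω : Ω) : cnt A t (j + j') ω = cnt A t j ω + cnt A (t + j) j' ω := by
  classical
  unfold cnt
  rw [Finset.sum_range_add]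
  congr 1
  refine Finset.sum_congr rfl fun r _ => ?_
  rw [show t + 1 + (j + r) = t + j + 1 + r by ring]

/-- windows of length `lam log² x`, both tails -/
theorem windows (hA : ∀ n, MeasurableSet[ℱ n] (A n))
    (hd : ∀ᵐ ω ∂μ, Tendsto (fun n : ℕ => dens μ ℱ A n ω * Real.log n) atTop (𝓝 1))
    {lam s : ℝ} (hlam : 0 < lam) (hs : 0 < s) (hI : 1 < lam * II s) :
    ∀ᵐ ω ∂μ, ∀ᶠ x : ℕ in atTop, (1 < s → (cnt A x (wl lam x) ω : ℝ) < s * lam * Real.log x) ∧
      (s < 1 → s * lam * Real.log x < cnt A x (wl lam x) ω) := by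
  have h1 : 1 < s → ∀ᵐ ω ∂μ, ∀ᶠ x : ℕ in atTop, (cnt A x (wl lam x) ω : ℝ) < s * lam * Real.log x := by
    intro hs1
    have := er_tail hA hd hlam hs hI (fun x => {k : ℕ | s * lam * Real.log x ≤ k}) (fun x k hk => by
      rw [← Real.rpow_natCast]
      exact Real.rpow_le_rpow_of_exponent_le hs1.le hk)
    filter_upwards [this] with ω hω
    filter_upwards [hω] with x hx
    exact not_le.1 hx
  have h2 : s < 1 → ∀ᵐ ω ∂μ, ∀ᶠ x : ℕ in atTop, s * lam * Real.log x < cnt A x (wl lam x) ω := by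
    intro hs1
    have := er_tail hA hd hlam hs hI (fun x => {k : ℕ | (k : ℝ) ≤ s * lam * Real.log x}) (fun x k hk => by
      rw [← Real.rpow_natCast]
      exact Real.rpow_le_rpow_of_exponent_ge hs hs1.le hk)
    filter_upwards [this] with ω hω
    filter_upwards [hω] with x hx
    exact not_le.1 hx
  rcases lt_trichotomy s 1 with h | h | h
  · filter_upwards [h2 h] with ω hω
    filter_upwards [hω] with x hx
    exact ⟨fun h' => absurd h' (by linarith), fun _ => hx⟩
  · exact Eventually.of_forall fun ω => Eventually.of_forall fun x =>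
      ⟨fun h' => absurd h' (by linarith), fun h' => absurd h' (by linarith)⟩
  · filter_upwards [h1 h] with ω hω
    filter_upwards [hω] with x hx
    exact ⟨fun _ => hx, fun h' => absurd h' (by linarith)⟩

/-- the deterministic part -/
theorem glue {lam e : ℝ} (hlam : 0 < lam) (he : 0 < e) (he1 : e ≤ 1 / 8) {ω : Ω}
    (h : ∀ᶠ x : ℕ in atTop, (cnt A x (wl lam x) ω : ℝ) < (1 + e) * lam * Real.log x ∧
      (1 - e) * lam * Real.log x < cnt A x (wl lam x) ω) :
    ∀ᶠ x : ℕ in atTop, ∀ H : ℕ, ∀ x' : ℕ, x ≤ x' → x' + H ≤ 2 * x →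
      (cnt A x' H ω : ℝ) ≤ (1 + 2 * e) * (H / Real.log x) + (1 + e) * lam * (Real.log x + 1) ∧
      (1 - 2 * e) * (H / Real.log x) - (1 + e) * lam * (Real.log x + 1) ≤ cnt A x' H ω := by
  obtain ⟨x0, hx0⟩ := eventually_atTop.1 h
  have hL : Tendsto (fun x : ℕ => Real.log x) atTop atTop :=
    Real.tendsto_log_atTop.comp tendsto_natCast_atTop_atTop
  filter_upwards [eventually_ge_atTop x0, eventually_ge_atTop 2,
    hL.eventually_ge_atTop (16 / e + 16 / (e * lam) + 16 / lam + 2)] with x hxx0 hx2 hLx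
  obtain ⟨L, hLd⟩ : ∃ L, L = Real.log (x : ℝ) := ⟨_, rfl⟩
  rw [← hLd] at hLx ⊢
  have p1 : 0 < 16 / e := by positivity
  have p2 : 0 < 16 / (e * lam) := by positivity
  have p3 : 0 < 16 / lam := by positivity
  have hL2 : 2 ≤ L := by linarith
  have hL0 : 0 < L := by linarith
  have q1 : 16 ≤ e * L := by
    have : 16 / e ≤ L := by linarith
    rw [div_le_iff₀ he] at this
    linarith
  have q2 : 16 ≤ e * lam * L := by
    have : 16 / (e * lam) ≤ L := by linarith
    rw [div_le_iff₀ (by positivity)] at this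
    linarith
  have q3 : 16 ≤ lam * L := by
    have : 16 / lam ≤ L := by linarith
    rw [div_le_iff₀ hlam] at this
    linarith
  have hxr : (2 : ℝ) ≤ x := by exact_mod_cast hx2
  intro H
  induction H using Nat.strong_induction_on with
  | _ H ih =>
  intro x' hx' hxH
  obtain ⟨c1, c2⟩ := hx0 x' (hxx0.trans hx')
  -- logarithms
  have hx'r : (x : ℝ) ≤ x' := by exact_mod_cast hx'
  have hx'2 : (x' : ℝ) ≤ 2 * x := by
    have : x' ≤ 2 * x := by omega
    exact_mod_cast this
  have g1 : L ≤ Real.log x' := by rw [hLd]; exact Real.log_le_log (by linarith) hx'r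
  have g2 : Real.log x' ≤ L + 1 := by
    have : Real.log x' ≤ Real.log (2 * x) := Real.log_le_log (by linarith) hx'2
    rw [Real.log_mul (by norm_num) (by linarith), ← hLd] at this
    have h3 := Real.log_two_lt_d9
    linarith
  obtain ⟨l', hl'⟩ : ∃ l', l' = Real.log (x' : ℝ) := ⟨_, rfl⟩
  rw [← hl'] at c1 c2 g1 g2
  obtain ⟨w, hw⟩ : ∃ w, w = wl lam x' := ⟨_, rfl⟩
  rw [← hw] at c1 c2
  have w1 : (w : ℝ) ≤ lam * l' ^ 2 := by
    rw [hw, wl, ← hl']
    exact Nat.floor_le (by positivity)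
  have w2 : lam * l' ^ 2 - 1 ≤ w := by
    rw [hw, wl, ← hl']
    exact (Nat.sub_one_lt_floor _).le
  have w1' : (w : ℝ) ≤ lam * (L + 1) ^ 2 := by
    refine w1.trans (mul_le_mul_of_nonneg_left ?_ hlam.le)
    exact pow_le_pow_left₀ (by linarith) g2 2
  have w2' : lam * L ^ 2 - 1 ≤ w := by
    refine le_trans ?_ w2
    have : L ^ 2 ≤ l' ^ 2 := pow_le_pow_left₀ hL0.le g1 2
    have := mul_le_mul_of_nonneg_left this hlam.le
    linarith
  -- one block
  have b1 : (cnt A x' w ω : ℝ) ≤ (1 + e) * lam * (L + 1) :=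
    c1.le.trans (mul_le_mul_of_nonneg_left g2 (by positivity))
  have b2 : (1 - e) * lam * L ≤ cnt A x' w ω := by
    refine le_trans (mul_le_mul_of_nonneg_left g1 ?_) c2.le
    have : 0 ≤ 1 - e := by linarith
    positivity
  have b3 : (1 + e) * lam * (L + 1) ≤ (1 + 2 * e) * (w / L) := by
    rw [← mul_div_assoc, le_div_iff₀ hL0]
    have t1 : (1 + 2 * e) * (lam * L ^ 2 - 1) ≤ (1 + 2 * e) * w := mul_le_mul_of_nonneg_left w2' (by linarith)
    nlinarith [mul_le_mul_of_nonneg_right q2 hL0.le, mul_le_mul_of_nonneg_right q3 hL0.le]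
  have b4 : (1 - 2 * e) * (w / L) ≤ (1 - e) * lam * L := by
    rw [← mul_div_assoc, div_le_iff₀ hL0]
    have t1 : (1 - 2 * e) * (w : ℝ) ≤ (1 - 2 * e) * (lam * (L + 1) ^ 2) := mul_le_mul_of_nonneg_left w1' (by linarith)
    have t2 : (1 - 2 * e) * ((L + 1) ^ 2) ≤ (1 - e) * L ^ 2 := by
      nlinarith [mul_le_mul_of_nonneg_right q1 hL0.le]
    have t3 := mul_le_mul_of_nonneg_left t2 hlam.le
    nlinarith
  have hwpos : 1 ≤ w := by
    have : (1 : ℝ) ≤ w := by nlinarith
    exact_mod_cast this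
  have hH0 : (0 : ℝ) ≤ H := Nat.cast_nonneg H
  rcases lt_or_ge H w with hHw | hHw
  · have hHr : (H : ℝ) ≤ w := by exact_mod_cast hHw.le
    have m1 : (cnt A x' H ω : ℝ) ≤ cnt A x' w ω := by exact_mod_cast cnt_mono x' hHw.le ω
    constructor
    · have : 0 ≤ (1 + 2 * e) * ((H : ℝ) / L) := by positivity
      linarith
    · have m2 : (1 - 2 * e) * ((H : ℝ) / L) ≤ (1 - 2 * e) * ((w : ℝ) / L) :=
        mul_le_mul_of_nonneg_left (div_le_div_of_nonneg_right hHr hL0.le) (by linarith)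
      have m3 : (0 : ℝ) ≤ cnt A x' H ω := Nat.cast_nonneg _
      have m4 : (1 - e) * lam * L ≤ (1 + e) * lam * (L + 1) := by
        have : 0 < lam * L := by positivity
        nlinarith
      linarith
  · obtain ⟨j, rfl⟩ := Nat.exists_eq_add_of_le hHw
    obtain ⟨i1, i2⟩ := ih j (by omega) (x' + w) (by omega) (by omega)
    rw [cnt_add]
    push_cast
    have e1 : (1 + 2 * e) * (((w : ℝ) + j) / L) = (1 + 2 * e) * (w / L) + (1 + 2 * e) * (j / L) := by ring
    have e2 : (1 - 2 * e) * (((w : ℝ) + j) / L) = (1 - 2 * e) * (w / L) + (1 - 2 * e) * (j / L) := by ring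
    rw [e1, e2]
    constructor
    · linarith
    · linarith

/-- **short intervals** -/
theorem short (hA : ∀ n, MeasurableSet[ℱ n] (A n))
    (hd : ∀ᵐ ω ∂μ, Tendsto (fun n : ℕ => dens μ ℱ A n ω * Real.log n) atTop (𝓝 1))
    {ε : ℝ} (hε : 0 < ε) : ∃ K : ℝ, 0 < K ∧ ∀ᵐ ω ∂μ, ∀ᶠ x : ℕ in atTop, ∀ H : ℕ,
      K * Real.log x ^ 2 ≤ H → H ≤ x →
        |(cnt A x H ω : ℝ) - H / Real.log x| ≤ ε * (H / Real.log x) := by
  set e : ℝ := min (ε / 8) (1 / 8) with he
  have he0 : 0 < e := lt_min (by positivity) (by norm_num)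
  have he1 : e ≤ 1 / 8 := min_le_right _ _
  have he2 : e ≤ ε / 8 := min_le_left _ _
  have hp : 0 < II (1 + e) := II_pos (by linarith) (by linarith)
  have hm : 0 < II (1 - e) := II_pos (by linarith) (by linarith)
  set d : ℝ := min (II (1 + e)) (II (1 - e)) with hdd
  have hd0 : 0 < d := lt_min hp hm
  set lam : ℝ := 2 / d with hlam
  have hlam0 : 0 < lam := by positivity
  have k1 : 1 < lam * II (1 + e) := by
    have : d ≤ II (1 + e) := min_le_left _ _
    have h2 : lam * d = 2 := by rw [hlam]; field_simp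
    nlinarith
  have k2 : 1 < lam * II (1 - e) := by
    have : d ≤ II (1 - e) := min_le_right _ _
    have h2 : lam * d = 2 := by rw [hlam]; field_simp
    nlinarith
  refine ⟨8 * lam / ε, by positivity, ?_⟩
  filter_upwards [windows hA hd hlam0 (show 0 < 1 + e by linarith) k1,
    windows hA hd hlam0 (show 0 < 1 - e by linarith) k2] with ω h1 h2
  have h3 := glue (A := A) (ω := ω) hlam0 he0 he1 (by
    filter_upwards [h1, h2] with x a b
    exact ⟨a.1 (by linarith), b.2 (by linarith)⟩)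
  have hL : Tendsto (fun x : ℕ => Real.log x) atTop atTop :=
    Real.tendsto_log_atTop.comp tendsto_natCast_atTop_atTop
  filter_upwards [h3, hL.eventually_ge_atTop 2] with x h4 hL2 H hH1 hH2
  obtain ⟨i1, i2⟩ := h4 H x le_rfl (by omega)
  obtain ⟨L, hLd⟩ : ∃ L, L = Real.log (x : ℝ) := ⟨_, rfl⟩
  rw [← hLd] at hL2 hH1 i1 i2 ⊢
  have hL0 : 0 < L := by linarith
  have hHL : 0 ≤ (H : ℝ) / L := by positivity
  have hB : (1 + e) * lam * (L + 1) ≤ (ε / 2) * ((H : ℝ) / L) := by
    have h5 : 8 * lam / ε * L ≤ (H : ℝ) / L := by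
      rw [le_div_iff₀ hL0]
      calc 8 * lam / ε * L * L = 8 * lam / ε * L ^ 2 := by ring
        _ ≤ H := hH1
    calc (1 + e) * lam * (L + 1) ≤ 4 * lam * L := by
          have : 0 < lam * L := by positivity
          nlinarith
      _ = (ε / 2) * (8 * lam / ε * L) := by field_simp; ring
      _ ≤ (ε / 2) * ((H : ℝ) / L) := mul_le_mul_of_nonneg_left h5 (by positivity)
  have h6 : 2 * e * ((H : ℝ) / L) ≤ (ε / 4) * ((H : ℝ) / L) := mul_le_mul_of_nonneg_right (by linarith) hHL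
  have h7 : 0 ≤ ε * ((H : ℝ) / L) := by positivity
  rw [abs_le]
  constructor
  · linarith
  · linarith

end Pool.Agent.N740.HK
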