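import Mathlib
import Pool.Agent.H95.P.N740_HK_Short

/-!
# Windows of length `lam log² x`: the large deviations occur
-/

set_option autoImplicit false
set_option linter.unusedSectionVars false

open MeasureTheory Filter Set
open scoped ENNReal Topology NNReal

namespace Pool.Agent.N740.HK

open Pool.Agent.R528.RM

lemma fact_le {k : ℕ} (hk : 1 ≤ k) : (k.factorial : ℝ) ≤ Real.exp (1 - k) * k * (k : ℝ) ^ k := by
  induction k, hk using Nat.le_induction with
  | base => simp
  | succ k hk ih =>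
    have hk0 : (0 : ℝ) < k := by exact_mod_cast hk
    rw [Nat.factorial_succ]
    push_cast
    have h1 : Real.exp 1 * (k : ℝ) ^ (k + 1) ≤ ((k : ℝ) + 1) ^ (k + 1) := by
      have h2 : Real.exp 1 ≤ (1 + 1 / (k : ℝ)) ^ (k + 1) := by
        have h3 : (1 : ℝ) ≤ (k + 1 : ℕ) * Real.log (1 + 1 / (k : ℝ)) := by
          have h4 : 1 - (1 + 1 / (k : ℝ))⁻¹ ≤ Real.log (1 + 1 / (k : ℝ)) :=
            Real.one_sub_inv_le_log_of_pos (by positivity)
          have h5 : 1 - (1 + 1 / (k : ℝ))⁻¹ = 1 / ((k : ℝ) + 1) := by field_simp; ring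
          rw [h5] at h4
          push_cast
          have h6 : ((k : ℝ) + 1) * (1 / ((k : ℝ) + 1)) = 1 := by field_simp
          nlinarith
        have h7 : (1 + 1 / (k : ℝ)) ^ (k + 1) = Real.exp ((k + 1 : ℕ) * Real.log (1 + 1 / (k : ℝ))) := by
          rw [← Real.log_pow, Real.exp_log (by positivity)]
        rw [h7]
        exact Real.exp_le_exp.2 h3
      calc Real.exp 1 * (k : ℝ) ^ (k + 1) ≤ (1 + 1 / (k : ℝ)) ^ (k + 1) * (k : ℝ) ^ (k + 1) :=
            mul_le_mul_of_nonneg_right h2 (by positivity)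
        _ = _ := by rw [← mul_pow]; congr 1; field_simp
    have h8 : Real.exp (1 - ((k : ℝ) + 1)) = Real.exp (1 - k) * Real.exp (-1) := by
      rw [← Real.exp_add]; congr 1; ring
    rw [h8]
    have h9 : Real.exp (-1) * Real.exp 1 = 1 := by rw [← Real.exp_add]; norm_num
    calc ((k : ℝ) + 1) * (k.factorial : ℝ) ≤ ((k : ℝ) + 1) * (Real.exp (1 - k) * k * (k : ℝ) ^ k) :=
          mul_le_mul_of_nonneg_left ih (by positivity)
      _ = ((k : ℝ) + 1) * Real.exp (1 - k) * (Real.exp (-1) * (Real.exp 1 * (k : ℝ) ^ (k + 1))) := by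
          rw [← mul_assoc (Real.exp (-1)), h9]; ring
      _ ≤ ((k : ℝ) + 1) * Real.exp (1 - k) * (Real.exp (-1) * ((k : ℝ) + 1) ^ (k + 1)) := by
          apply mul_le_mul_of_nonneg_left _ (by positivity)
          exact mul_le_mul_of_nonneg_left h1 (by positivity)
      _ = _ := by ring

/-- a lower bound for the binomial coefficients -/
lemma choose_ge {j k : ℕ} (hk : 1 ≤ k) (hkj : k ≤ j) :
    Real.exp (k * Real.log ((j + 1 - k : ℝ) / k) + k - 1 - Real.log k) ≤ (j.choose k : ℝ) := by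
  have hk0 : (0 : ℝ) < k := by exact_mod_cast hk
  have hj0 : (0 : ℝ) < (j : ℝ) + 1 - k := by
    have : (k : ℝ) ≤ j := by exact_mod_cast hkj
    linarith
  have h1 : ((j : ℝ) + 1 - k) ^ k ≤ (j.descFactorial k : ℝ) := by
    have := Nat.pow_sub_le_descFactorial j k
    have h2 : (((j + 1 - k) ^ k : ℕ) : ℝ) ≤ (j.descFactorial k : ℝ) := by exact_mod_cast this
    rw [Nat.cast_pow, Nat.cast_sub (by omega)] at h2
    push_cast at h2
    exact h2
  have h2 : (j.choose k : ℝ) = (j.descFactorial k : ℝ) / (k.factorial : ℝ) := by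
    rw [Nat.choose_eq_descFactorial_div_factorial, Nat.cast_div (Nat.factorial_dvd_descFactorial j k)
      (by positivity)]
  rw [h2, le_div_iff₀ (by positivity)]
  refine le_trans ?_ h1
  refine (mul_le_mul_of_nonneg_left (fact_le hk) (Real.exp_pos _).le).trans (le_of_eq ?_)
  have e1 : (k : ℝ) = Real.exp (Real.log k) := (Real.exp_log hk0).symm
  have e2 : Real.exp (k * Real.log ((j + 1 - k : ℝ) / k) + k - 1 - Real.log k) =
      ((j + 1 - k : ℝ) / k) ^ k * Real.exp (k - 1) * (k : ℝ)⁻¹ := by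
    rw [show (k : ℝ) * Real.log ((j + 1 - k : ℝ) / k) + k - 1 - Real.log k =
      (k : ℝ) * Real.log ((j + 1 - k : ℝ) / k) + (k - 1) + -Real.log k by ring, Real.exp_add, Real.exp_add,
      Real.exp_neg, Real.exp_log hk0, ← Real.log_pow, Real.exp_log (by positivity)]
  rw [e2, div_pow]
  have e3 : Real.exp ((k : ℝ) - 1) * Real.exp (1 - k) = 1 := by rw [← Real.exp_add]; norm_num
  have hkk : (k : ℝ) ^ k ≠ 0 := by positivity
  calc ((j + 1 - k : ℝ) ^ k / (k : ℝ) ^ k * Real.exp (k - 1) * (k : ℝ)⁻¹) * (Real.exp (1 - k) * k * (k : ℝ) ^ k)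
      = (j + 1 - k : ℝ) ^ k * (Real.exp (k - 1) * Real.exp (1 - k)) * ((k : ℝ)⁻¹ * k) * ((k : ℝ) ^ k / (k : ℝ) ^ k) := by
        ring
    _ = (j + 1 - k : ℝ) ^ k := by rw [e3, inv_mul_cancel₀ hk0.ne', div_self hkk]; ring

/-- the probability of `cnt = k` in a window of length `j ~ lam L²`, `k ~ s lam L` -/
theorem binom_low {lam s β : ℝ} (hlam : 0 < lam) (hs : 0 < s) (hβ : lam * II s < β) :
    ∃ δ : ℝ, 0 < δ ∧ δ < 1 ∧ ∀ᶠ L : ℝ in atTop, ∀ j k : ℕ, (j : ℝ) ≤ lam * L ^ 2 → lam * L ^ 2 ≤ j + 1 →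
      (k : ℝ) ≤ s * lam * L → s * lam * L ≤ k + 1 → k ≤ j ∧ (1 + δ) / (L - 1) ≤ 1 ∧
      Real.exp (-(β * L)) ≤ (j.choose k : ℝ) * ((1 - δ) / (L + 1)) ^ k * (1 - (1 + δ) / (L - 1)) ^ (j - k) := by
  have hgap : 0 < β - lam * II s := by linarith
  obtain ⟨δ, hδ0, hδ1, hδ⟩ : ∃ δ : ℝ, 0 < δ ∧ δ ≤ 1 / 2 ∧ δ * (lam * (4 * s + 4)) ≤ (β - lam * II s) / 2 := by
    refine ⟨min (1 / 2) ((β - lam * II s) / (2 * (lam * (4 * s + 4)))), lt_min (by norm_num) (by positivity),
      min_le_left _ _, ?_⟩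
    have h1 : min (1 / 2) ((β - lam * II s) / (2 * (lam * (4 * s + 4)))) ≤
      (β - lam * II s) / (2 * (lam * (4 * s + 4))) := min_le_right _ _
    refine (mul_le_mul_of_nonneg_right h1 (by positivity)).trans (le_of_eq ?_)
    field_simp
  refine ⟨δ, hδ0, by linarith, ?_⟩
  have hsl : 0 < s * lam := by positivity
  have hlogs : ∀ᶠ L : ℝ in atTop, |Real.log s| + 10 + 4 * lam + 3 + Real.log (s * lam * L) ≤ (β - lam * II s) / 2 * L := by
    have h1 : Tendsto (fun L : ℝ => (|Real.log s| + 10 + 4 * lam + 3 + Real.log (s * lam * L)) / L) atTop (𝓝 0) := by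
      have h2 : Tendsto (fun L : ℝ => Real.log L / L) atTop (𝓝 0) := by
        have := Real.isLittleO_log_id_atTop.tendsto_div_nhds_zero
        exact this
      have h3 : Tendsto (fun L : ℝ => (|Real.log s| + 10 + 4 * lam + 3 + Real.log (s * lam)) / L) atTop (𝓝 0) :=
        tendsto_const_nhds.div_atTop tendsto_id
      have h4 := h3.add h2
      rw [add_zero] at h4
      refine h4.congr' ?_
      filter_upwards [eventually_gt_atTop 0] with L hL
      rw [Real.log_mul hsl.ne' hL.ne']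
      ring
    filter_upwards [h1.eventually_lt_const (show 0 < (β - lam * II s) / 2 by positivity), eventually_gt_atTop 0] with L h2 h3
    rw [div_lt_iff₀ h3] at h2
    exact h2.le
  filter_upwards [hlogs, eventually_ge_atTop (10 + 2 * (1 + δ) + 4 / (s * lam) + 8 * s + 8 / lam + 8 * (s + 2 + 1 / lam) / δ)] with L hL1 hL2 j k hj1 hj2 hk1 hk2
  have p1 : 0 < 4 / (s * lam) := by positivity
  have p2 : 0 < 8 / lam := by positivity
  have p3 : 0 < 8 * (s + 2 + 1 / lam) / δ := by positivity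
  have hL10 : 10 ≤ L := by nlinarith
  have hL0 : 0 < L := by linarith
  have q1 : 4 ≤ s * lam * L := by
    have : 4 / (s * lam) ≤ L := by nlinarith
    rw [div_le_iff₀ hsl] at this
    linarith
  have q2 : 8 * s ≤ L := by nlinarith
  have q3 : 8 ≤ lam * L := by
    have : 8 / lam ≤ L := by nlinarith
    rw [div_le_iff₀ hlam] at this
    linarith
  have q4 : 8 * (s + 2 + 1 / lam) ≤ δ * L := by
    have : 8 * (s + 2 + 1 / lam) / δ ≤ L := by nlinarith
    rw [div_le_iff₀ hδ0] at this
    linarith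
  have hk0 : (3 : ℝ) ≤ k := by linarith
  have hk1' : 1 ≤ k := by
    have : (1 : ℝ) ≤ k := by linarith
    exact_mod_cast this
  have hkj : (k : ℝ) ≤ j := by
    have h1 : s * lam * L ≤ lam * L ^ 2 / 8 := by nlinarith [mul_le_mul_of_nonneg_left q2 (show 0 ≤ lam * L by positivity)]
    have h2 : 8 * L ≤ lam * L ^ 2 := by nlinarith
    nlinarith
  have hkj' : k ≤ j := by exact_mod_cast hkj
  have hu1 : (1 + δ) / (L - 1) ≤ 1 / 2 := by
    rw [div_le_iff₀ (by linarith)]
    linarith
  refine ⟨hkj', by linarith, ?_⟩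
  -- the three factors
  have f1 := choose_ge hk1' hkj'
  have hl0 : 0 < (1 - δ) / (L + 1) := div_pos (by linarith) (by linarith)
  have f2 : ((1 - δ) / (L + 1)) ^ k = Real.exp (k * Real.log ((1 - δ) / (L + 1))) := by
    rw [← Real.log_pow, Real.exp_log (by positivity)]
  set u : ℝ := (1 + δ) / (L - 1) with hu
  have hu0 : 0 < u := div_pos (by linarith) (by linarith)
  have f3 : Real.exp (-((j : ℝ) * (u * (1 + 2 * u)))) ≤ (1 - u) ^ (j - k) := by
    have h1 : (1 - u) ^ j ≤ (1 - u) ^ (j - k) :=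
      pow_le_pow_of_le_one (by linarith) (by linarith) (Nat.sub_le _ _)
    refine le_trans ?_ h1
    have h2 : (1 - u) ^ j = Real.exp (j * Real.log (1 - u)) := by
      rw [← Real.log_pow, Real.exp_log (pow_pos (by linarith) _)]
    rw [h2]
    apply Real.exp_le_exp.2
    have h3 : -(u * (1 + 2 * u)) ≤ Real.log (1 - u) := by
      have h4 := Real.one_sub_inv_le_log_of_pos (show 0 < 1 - u by linarith)
      have h5 : 1 - (1 - u)⁻¹ = -(u / (1 - u)) := by
        have h1u : 1 - u ≠ 0 := by linarith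
        rw [eq_neg_iff_add_eq_zero, div_eq_mul_inv]
        linear_combination (-1 : ℝ) * mul_inv_cancel₀ h1u
      rw [h5] at h4
      have h6 : u / (1 - u) ≤ u * (1 + 2 * u) := by
        rw [div_le_iff₀ (by linarith)]
        nlinarith [mul_pos hu0 hu0]
      linarith
    have h4 : (0 : ℝ) ≤ j := Nat.cast_nonneg _
    nlinarith
  have hnn : 0 ≤ Real.exp (k * Real.log ((j + 1 - k : ℝ) / k) + k - 1 - Real.log k) := (Real.exp_pos _).le
  have hprod : Real.exp (k * Real.log ((j + 1 - k : ℝ) / k) + k - 1 - Real.log k) *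
      Real.exp (k * Real.log ((1 - δ) / (L + 1))) * Real.exp (-((j : ℝ) * (u * (1 + 2 * u)))) ≤
      (j.choose k : ℝ) * ((1 - δ) / (L + 1)) ^ k * (1 - u) ^ (j - k) := by
    rw [f2]
    exact mul_le_mul (mul_le_mul_of_nonneg_right f1 (Real.exp_pos _).le) f3 (Real.exp_pos _).le (by positivity)
  refine le_trans ?_ hprod
  rw [← Real.exp_add, ← Real.exp_add]
  apply Real.exp_le_exp.2
  -- the exponents
  have g1 : -Real.log s - 3 * δ ≤ Real.log ((j + 1 - k : ℝ) / k) + Real.log ((1 - δ) / (L + 1)) := by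
    rw [← Real.log_mul (div_pos (by linarith) (by linarith)).ne' hl0.ne']
    have h1 : (1 / s) * ((1 - δ) * (1 - δ / 4)) ≤ (j + 1 - k : ℝ) / k * ((1 - δ) / (L + 1)) := by
      have h2 : (L / s) * ((1 - δ / 4) * (1 + 1 / L)) ≤ (j + 1 - k : ℝ) / k := by
        rw [le_div_iff₀ (by linarith)]
        have h3 : lam * L ^ 2 - s * lam * L ≤ (j + 1 - k : ℝ) := by linarith
        refine le_trans ?_ h3
        have h4 : L / s * ((1 - δ / 4) * (1 + 1 / L)) * k ≤ L / s * ((1 - δ / 4) * (1 + 1 / L)) * (s * lam * L) := by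
          apply mul_le_mul_of_nonneg_left hk1
          have : 0 ≤ 1 - δ / 4 := by linarith
          positivity
        refine h4.trans ?_
        have h5 : L / s * ((1 - δ / 4) * (1 + 1 / L)) * (s * lam * L) = lam * L * ((1 - δ / 4) * (L + 1)) := by
          field_simp
        rw [h5]
        have h6 : (1 - δ / 4) * (L + 1) ≤ L - s := by
          have : 0 < 1 / lam := by positivity
          nlinarith
        have := mul_le_mul_of_nonneg_left h6 (show 0 ≤ lam * L by positivity)
        nlinarith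
      have h7 := mul_le_mul_of_nonneg_right h2 hl0.le
      refine le_trans (le_of_eq ?_) h7
      have : L + 1 ≠ 0 := by linarith
      field_simp
    have h8 : Real.log ((1 / s) * ((1 - δ) * (1 - δ / 4))) ≤ Real.log ((j + 1 - k : ℝ) / k * ((1 - δ) / (L + 1))) := by
      apply Real.log_le_log _ h1
      have : 0 < 1 - δ := by linarith
      have : 0 < 1 - δ / 4 := by linarith
      positivity
    refine le_trans ?_ h8
    rw [Real.log_mul (by positivity) (by
      have : 0 < 1 - δ := by linarith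
      have : 0 < 1 - δ / 4 := by linarith
      positivity), Real.log_mul (by linarith) (by linarith), one_div, Real.log_inv]
    have h9 := Real.one_sub_inv_le_log_of_pos (show 0 < 1 - δ by linarith)
    have h10 := Real.one_sub_inv_le_log_of_pos (show 0 < 1 - δ / 4 by linarith)
    have h11 : 1 - (1 - δ)⁻¹ = -(δ / (1 - δ)) := by
      have h1u : 1 - δ ≠ 0 := by linarith
      rw [eq_neg_iff_add_eq_zero, div_eq_mul_inv]
      linear_combination (-1 : ℝ) * mul_inv_cancel₀ h1u
    have h12 : 1 - (1 - δ / 4)⁻¹ = -(δ / 4 / (1 - δ / 4)) := by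
      have h1u : 1 - δ / 4 ≠ 0 := by linarith
      rw [eq_neg_iff_add_eq_zero, div_eq_mul_inv]
      linear_combination (-1 : ℝ) * mul_inv_cancel₀ h1u
    have h13 : δ / (1 - δ) ≤ 2 * δ := by
      rw [div_le_iff₀ (by linarith)]
      nlinarith
    have h14 : δ / 4 / (1 - δ / 4) ≤ δ := by
      rw [div_le_iff₀ (by linarith)]
      nlinarith
    rw [h11] at h9
    rw [h12] at h10
    linarith
  have g2 : (s * lam * L) * (-Real.log s - 3 * δ) - (|Real.log s| + 3) ≤
      k * (Real.log ((j + 1 - k : ℝ) / k) + Real.log ((1 - δ) / (L + 1))) := by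
    refine le_trans ?_ (mul_le_mul_of_nonneg_left g1 (by linarith : (0 : ℝ) ≤ k))
    have h1 : |(s * lam * L - k) * (-Real.log s - 3 * δ)| ≤ 1 * (|Real.log s| + 3) := by
      rw [abs_mul]
      apply mul_le_mul _ _ (abs_nonneg _) (by norm_num)
      · rw [abs_le]; constructor <;> linarith
      · have h2 := abs_sub (-Real.log s) (3 * δ)
        rw [abs_neg, abs_of_pos (show 0 < 3 * δ by linarith)] at h2
        linarith
    have h3 := le_abs_self ((s * lam * L - k) * (-Real.log s - 3 * δ))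
    nlinarith
  have g3 : (j : ℝ) * (u * (1 + 2 * u)) ≤ lam * L * (1 + 4 * δ) + 4 * lam + 3 := by
    have h1 : u * (1 + 2 * u) ≤ (1 + δ) * (1 / L) + 8 / L ^ 2 := by
      have h2 : u ≤ (1 + δ) / L + 2 / L ^ 2 := by
        rw [hu, div_le_iff₀ (by linarith)]
        have e : ((1 + δ) / L + 2 / L ^ 2) * (L - 1) = (1 + δ) - (1 + δ) / L + 2 / L - 2 / L ^ 2 := by
          have i1 : L * L⁻¹ = 1 := mul_inv_cancel₀ hL0.ne'
          simp only [div_eq_mul_inv]
          linear_combination ((1 + δ) + 2 * L⁻¹) * i1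
        rw [e]
        have h3 : 2 / L ^ 2 ≤ (1 - δ) / L := by
          rw [div_le_div_iff₀ (by positivity) hL0]
          nlinarith
        have h4 : 2 / L - (1 + δ) / L = (1 - δ) / L := by ring
        linarith
      have h3 : u ≤ 5 / 3 / L := by
        rw [hu, div_le_div_iff₀ (by linarith) hL0]
        nlinarith
      have h4 : 2 * u ^ 2 ≤ 6 / L ^ 2 := by
        have : u ^ 2 ≤ (5 / 3 / L) ^ 2 := pow_le_pow_left₀ hu0.le h3 2
        have e : (5 / 3 / L) ^ 2 = 25 / 9 / L ^ 2 := by rw [div_pow]; norm_num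
        rw [e] at this
        have h5 : 2 * (25 / 9 / L ^ 2) ≤ 6 / L ^ 2 := by
          rw [← mul_div_assoc]
          apply div_le_div_of_nonneg_right (by norm_num) (by positivity)
        linarith
      have e : u * (1 + 2 * u) = u + 2 * u ^ 2 := by ring
      rw [e]
      have e2 : (2 : ℝ) / L ^ 2 + 6 / L ^ 2 = 8 / L ^ 2 := by ring
      have e3 : (1 + δ) / L = (1 + δ) * (1 / L) := by ring
      linarith
    have h5 : (j : ℝ) * (u * (1 + 2 * u)) ≤ (lam * L ^ 2) * ((1 + δ) * (1 / L) + 8 / L ^ 2) :=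
      mul_le_mul hj1 h1 (by positivity) (by positivity)
    have h6 : (lam * L ^ 2) * ((1 + δ) * (1 / L) + 8 / L ^ 2) = lam * L * (1 + δ) + 8 * lam := by
      field_simp
    rw [h6] at h5
    have h7 : 8 * lam ≤ 3 * δ * (lam * L) + 4 * lam + 3 := by
      have : 0 < 1 / lam := by positivity
      nlinarith [mul_le_mul_of_nonneg_left q4 hlam.le]
    linarith
  have g4 : Real.log k ≤ Real.log (s * lam * L) := Real.log_le_log (by linarith) hk1
  have g5 : s * lam * L - 1 ≤ k := by linarith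
  have g6 : lam * II s = s * lam * Real.log s - s * lam + lam := by unfold II; ring
  have g7 : δ * (lam * (4 * s + 4)) * L ≤ (β - lam * II s) / 2 * L := mul_le_mul_of_nonneg_right hδ hL0.le
  have hfin : -(β * L) ≤ (s * lam * L) * (-Real.log s - 3 * δ) - (|Real.log s| + 3) + (s * lam * L - 1) - 1
      - Real.log (s * lam * L) - (lam * L * (1 + 4 * δ) + 4 * lam + 3) := by
    have h1 : 0 ≤ δ * (lam * s) * L := by positivity
    have e : (s * lam * L) * (-Real.log s - 3 * δ) + s * lam * L - lam * L * (1 + 4 * δ) =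
        -(lam * II s * L) - 3 * (δ * (lam * s) * L) - 4 * (δ * lam * L) := by
      rw [g6]; ring
    have e2 : δ * (lam * (4 * s + 4)) * L = 4 * (δ * (lam * s) * L) + 4 * (δ * lam * L) := by ring
    rw [e2] at g7
    have e3 : (β - lam * II s) / 2 * L = β * L / 2 - lam * II s * L / 2 := by ring
    rw [e3] at g7 hL1
    linarith
  linarith

end Pool.Agent.N740.HK
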