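import Mathlib
import Pool.Agent.H95.P.N740_HK_IO

/-!
# Windows of length `lam log² x`: the large deviations occur infinitely often
-/

set_option autoImplicit false
set_option linter.unusedSectionVars false

open MeasureTheory Filter Set
open scoped ENNReal Topology NNReal

namespace Pool.Agent.N740.HK

open Pool.Agent.R528.RM

variable {Ω : Type} {m0 : MeasurableSpace Ω} {μ : Measure Ω} [IsProbabilityMeasure μ]
  {ℱ : Filtration ℕ m0} {A : ℕ → Set Ω}

lemma II_nonneg {s : ℝ} (hs : 0 < s) : 0 ≤ II s := by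
  by_cases h : s = 1
  · rw [h]; unfold II; simp
  · exact (II_pos hs h).le

lemma scale_ev {lam β : ℝ} (hlam : 0 < lam) (hβ1 : β < 1) : ∀ᶠ L : ℝ in atTop,
    (lam * (L + 1) ^ 2 + 2) * (2 * Real.exp (β * (L + 1))) ≤ Real.exp L := by
  have h0 : 0 < 1 - β := by linarith
  have h1 := Real.tendsto_pow_mul_exp_neg_atTop_nhds_zero 2
  have h2 : Tendsto (fun L : ℝ => (1 - β) * L) atTop atTop := tendsto_id.const_mul_atTop h0
  have h3 := h1.comp h2
  have hc : 0 < (1 - β) ^ 2 / ((4 * lam + 2) * (2 * Real.exp β)) := by positivity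
  filter_upwards [h3.eventually_lt_const hc, eventually_ge_atTop 1] with L h4 hL
  simp only [Function.comp_def] at h4
  have h5 : L ^ 2 * Real.exp (-((1 - β) * L)) * ((4 * lam + 2) * (2 * Real.exp β)) ≤ 1 := by
    rw [lt_div_iff₀ (by positivity)] at h4
    have h6 : (1 - β) ^ 2 * (L ^ 2 * Real.exp (-((1 - β) * L)) * ((4 * lam + 2) * (2 * Real.exp β))) ≤ (1 - β) ^ 2 * 1 := by
      have e : (1 - β) ^ 2 * (L ^ 2 * Real.exp (-((1 - β) * L)) * ((4 * lam + 2) * (2 * Real.exp β))) =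
        ((1 - β) * L) ^ 2 * Real.exp (-((1 - β) * L)) * ((4 * lam + 2) * (2 * Real.exp β)) := by ring
      rw [e, mul_one]
      exact h4.le
    exact le_of_mul_le_mul_left h6 (by positivity)
  have h7 : lam * (L + 1) ^ 2 + 2 ≤ (4 * lam + 2) * L ^ 2 := by
    have h8 : (L + 1) ^ 2 ≤ 4 * L ^ 2 := by nlinarith
    have h9 := mul_le_mul_of_nonneg_left h8 hlam.le
    nlinarith
  have h8 : Real.exp (β * (L + 1)) = Real.exp β * (Real.exp (-((1 - β) * L)) * Real.exp L) := by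
    rw [← Real.exp_add, ← Real.exp_add]
    congr 1
    ring
  rw [h8]
  calc (lam * (L + 1) ^ 2 + 2) * (2 * (Real.exp β * (Real.exp (-((1 - β) * L)) * Real.exp L)))
      ≤ ((4 * lam + 2) * L ^ 2) * (2 * (Real.exp β * (Real.exp (-((1 - β) * L)) * Real.exp L))) :=
        mul_le_mul_of_nonneg_right h7 (by positivity)
    _ = (L ^ 2 * Real.exp (-((1 - β) * L)) * ((4 * lam + 2) * (2 * Real.exp β))) * Real.exp L := by ring
    _ ≤ 1 * Real.exp L := mul_le_mul_of_nonneg_right h5 (Real.exp_pos _).le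
    _ = Real.exp L := one_mul _

/-- **the large deviations occur**: `lam * II s < 1` -/
theorem cnt_io (hA : ∀ n, MeasurableSet[ℱ n] (A n))
    (hd : ∀ᵐ ω ∂μ, Tendsto (fun n : ℕ => dens μ ℱ A n ω * Real.log n) atTop (𝓝 1))
    {lam s : ℝ} (hlam : 0 < lam) (hs : 0 < s) (hI : lam * II s < 1) :
    ∀ᵐ ω ∂μ, ∃ᶠ x : ℕ in atTop, cnt A x (wl lam x) ω = ⌊s * lam * Real.log x⌋₊ := by
  obtain ⟨β, hβ1, hβ2⟩ : ∃ β, lam * II s < β ∧ β < 1 := exists_between hI
  have hβ0 : 0 ≤ β := le_trans (mul_nonneg hlam.le (II_nonneg hs)) hβ1.le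
  obtain ⟨δ, hδ0, hδ1, hev⟩ := binom_low hlam hs hβ1
  obtain ⟨L₀, hL₀⟩ := eventually_atTop.1 (hev.and ((scale_ev (β := β) hlam hβ2).and (eventually_ge_atTop 4)))
  have hlog : Tendsto (fun i : ℕ => Real.log ((2 : ℝ) ^ i)) atTop atTop := by
    have : (fun i : ℕ => Real.log ((2 : ℝ) ^ i)) = fun i : ℕ => (i : ℝ) * Real.log 2 := by
      funext i; rw [Real.log_pow]
    rw [this]
    exact tendsto_natCast_atTop_atTop.atTop_mul_const (Real.log_pos (by norm_num))
  obtain ⟨i₀, hi₀⟩ := eventually_atTop.1 (hlog.eventually_ge_atTop L₀)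
  set H : ℕ → ℕ := fun i => ⌈lam * (Real.log ((2 : ℝ) ^ i) + 1) ^ 2⌉₊ + 1 with hH
  set M : ℕ → ℕ := fun i => 2 ^ i / H i with hM
  set T : ℕ → ℕ → ℕ := fun i m => 2 ^ i + H i * m with hT
  set D : ℕ → ℕ → Set Ω := fun i m => {ω | cnt A (T i m) (wl lam (T i m)) ω = ⌊s * lam * Real.log (T i m)⌋₊} ∪
    WV (VF μ ℱ A δ) (T i m) (wl lam (T i m)) with hD
  have hHM : ∀ i, i₀ ≤ i → H i * M i ≤ 2 ^ i := fun i _ => Nat.mul_div_le _ _
  have hHpos : ∀ i, 0 < H i := fun i => Nat.succ_pos _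
  -- logarithms in the scale
  have hlogT : ∀ i, i₀ ≤ i → ∀ m < M i, ∀ n, T i m ≤ n → n < T i m + H i →
      Real.log ((2 : ℝ) ^ i) ≤ Real.log n ∧ Real.log n ≤ Real.log ((2 : ℝ) ^ i) + 1 := by
    intro i hi m hm n hn1 hn2
    have h1 : (2 : ℝ) ^ i ≤ n := by
      have : 2 ^ i ≤ n := le_trans (Nat.le_add_right _ _) hn1
      exact_mod_cast this
    have h2 : (n : ℝ) ≤ 2 * 2 ^ i := by
      have h3 : H i * (m + 1) ≤ 2 ^ i := le_trans (Nat.mul_le_mul_left _ hm) (hHM i hi)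
      have : n ≤ 2 * 2 ^ i := by
        have e : T i m + H i = 2 ^ i + H i * (m + 1) := by simp only [hT]; ring
        rw [e] at hn2
        omega
      exact_mod_cast this
    have h0 : (0 : ℝ) < 2 ^ i := by positivity
    refine ⟨Real.log_le_log h0 h1, ?_⟩
    have h3 : Real.log n ≤ Real.log (2 * 2 ^ i) := Real.log_le_log (by linarith) h2
    rw [Real.log_mul (by norm_num) h0.ne'] at h3
    have := Real.log_two_lt_d9
    linarith
  have hwl : ∀ i, i₀ ≤ i → ∀ m < M i, wl lam (T i m) ≤ H i := by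
    intro i hi m hm
    obtain ⟨h1, h2⟩ := hlogT i hi m hm (T i m) le_rfl (Nat.lt_add_of_pos_right (hHpos i))
    have h0 : 0 ≤ Real.log ((2 : ℝ) ^ i) := Real.log_nonneg (one_le_pow₀ (by norm_num))
    have h3 : lam * Real.log (T i m) ^ 2 ≤ lam * (Real.log ((2 : ℝ) ^ i) + 1) ^ 2 :=
      mul_le_mul_of_nonneg_left (pow_le_pow_left₀ (by linarith) h2 2) hlam.le
    unfold wl
    refine le_trans (Nat.floor_le_floor h3) (le_trans (Nat.floor_le_ceil _) (Nat.le_succ _))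
  have hDm : ∀ i, i₀ ≤ i → ∀ m < M i, MeasurableSet[ℱ (2 ^ i + H i * (m + 1))] (D i m) := by
    intro i hi m hm
    have h1 := hwl i hi m hm
    have h2 : T i m + wl lam (T i m) ≤ 2 ^ i + H i * (m + 1) := by
      have e : 2 ^ i + H i * (m + 1) = T i m + H i := by simp only [hT]; ring
      omega
    exact @MeasurableSet.union _ (ℱ (2 ^ i + H i * (m + 1))) _ _ (ℱ.mono h2 _ (cnt_meas hA _ _ _))
      (ℱ.mono h2 _ (WV_meas (fun n => VF_meas δ n) _ _))
  have hp : ∀ i, i₀ ≤ i → ∀ m < M i, ∀ C, MeasurableSet[ℱ (2 ^ i + H i * m)] C →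
      Real.exp (-(β * (Real.log ((2 : ℝ) ^ i) + 1))) * μ.real C ≤ μ.real (C ∩ D i m) := by
    intro i hi m hm C hC
    obtain ⟨l1, l2⟩ := hlogT i hi m hm (T i m) le_rfl (Nat.lt_add_of_pos_right (hHpos i))
    obtain ⟨L, hL⟩ : ∃ L, L = Real.log (T i m : ℝ) := ⟨_, rfl⟩
    rw [← hL] at l1 l2
    obtain ⟨hb, _, hL4⟩ := hL₀ L ((hi₀ i hi).trans l1)
    have hL0 : 0 < L := by linarith
    have j1 : (wl lam (T i m) : ℝ) ≤ lam * L ^ 2 := by
      rw [wl, ← hL]; exact Nat.floor_le (by positivity)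
    have j2 : lam * L ^ 2 ≤ (wl lam (T i m) : ℝ) + 1 := by
      rw [wl, ← hL]; exact (Nat.lt_floor_add_one _).le
    have k1 : ((⌊s * lam * L⌋₊ : ℕ) : ℝ) ≤ s * lam * L := Nat.floor_le (by positivity)
    have k2 : s * lam * L ≤ ((⌊s * lam * L⌋₊ : ℕ) : ℝ) + 1 := (Nat.lt_floor_add_one _).le
    obtain ⟨b1, b2, b3⟩ := hb _ _ j1 j2 k1 k2
    have hbd : ∀ n, T i m ≤ n → n < T i m + wl lam (T i m) → ∀ ω, ω ∉ VF μ ℱ A δ n →
        (1 - δ) / (L + 1) ≤ dens μ ℱ A n ω ∧ dens μ ℱ A n ω ≤ (1 + δ) / (L - 1) := by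
      intro n hn1 hn2 ω hω
      obtain ⟨n1, n2⟩ := hlogT i hi m hm n hn1 (lt_of_lt_of_le hn2 (by have := hwl i hi m hm; omega))
      have n3 : L ≤ Real.log n := by
        rw [hL]
        apply Real.log_le_log
        · have : 0 < T i m := lt_of_lt_of_le (by positivity) (Nat.le_add_right (2 ^ i) _)
          exact_mod_cast this
        · exact_mod_cast hn1
      have n4 : Real.log n ≤ L + 1 := by linarith
      obtain ⟨v1, v2⟩ := VF_bounds hδ1.le (by linarith : (1 : ℝ) ≤ L) n3 n4 hω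
      refine ⟨v1, v2.trans ?_⟩
      apply div_le_div_of_nonneg_left (by linarith) (by linarith) (by linarith)
    have hlu : (1 - δ) / (L + 1) ≤ (1 + δ) / (L - 1) := by
      rw [div_le_div_iff₀ (by linarith) (by linarith)]
      nlinarith
    have main := cnt_ge (μ := μ) hA (V := VF μ ℱ A δ) (fun n => VF_meas δ n)
      (l := (1 - δ) / (L + 1)) (u := (1 + δ) / (L - 1)) (div_nonneg (by linarith) (by linarith)) b2 hlu
      (wl lam (T i m)) (T i m) hbd (⌊s * lam * L⌋₊) b1 C hC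
    have e : D i m = {ω | cnt A (T i m) (wl lam (T i m)) ω = ⌊s * lam * L⌋₊} ∪
      WV (VF μ ℱ A δ) (T i m) (wl lam (T i m)) := by simp only [hD]; rw [← hL]
    rw [e]
    refine le_trans ?_ main
    apply mul_le_mul_of_nonneg_right _ measureReal_nonneg
    refine le_trans ?_ b3
    apply Real.exp_le_exp.2
    rw [neg_le_neg_iff]
    exact mul_le_mul_of_nonneg_left l2 hβ0
  have hsum : ∀ i, i₀ ≤ i → 1 ≤ M i * Real.exp (-(β * (Real.log ((2 : ℝ) ^ i) + 1))) := by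
    intro i hi
    obtain ⟨L, hL⟩ : ∃ L, L = Real.log ((2 : ℝ) ^ i) := ⟨_, rfl⟩
    have h0 : (0 : ℝ) < 2 ^ i := by positivity
    have hexp : Real.exp L = 2 ^ i := by rw [hL, Real.exp_log h0]
    obtain ⟨_, hs1, hL4⟩ := hL₀ L (by rw [hL]; exact hi₀ i hi)
    have h1 : ((H i : ℕ) : ℝ) ≤ lam * (L + 1) ^ 2 + 2 := by
      have e : ((H i : ℕ) : ℝ) = (⌈lam * (L + 1) ^ 2⌉₊ : ℝ) + 1 := by
        rw [hL]
        exact Nat.cast_succ _
      have := Nat.ceil_lt_add_one (show 0 ≤ lam * (L + 1) ^ 2 by positivity)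
      rw [e]
      linarith
    have h2 : (2 : ℝ) ^ i ≤ H i * (M i + 1) := by
      have := Nat.lt_mul_div_succ (2 ^ i) (hHpos i)
      have h3 : 2 ^ i ≤ H i * (M i + 1) := this.le
      exact_mod_cast h3
    rw [← hexp] at h2
    have hHr : (0 : ℝ) < H i := by exact_mod_cast hHpos i
    have h3 : (H i : ℝ) * (2 * Real.exp (β * (L + 1))) ≤ H i * (M i + 1) := by
      refine le_trans ?_ h2
      refine le_trans ?_ hs1
      exact mul_le_mul_of_nonneg_right h1 (by positivity)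
    have h4 : 2 * Real.exp (β * (L + 1)) ≤ M i + 1 := le_of_mul_le_mul_left h3 hHr
    have h5 : 1 ≤ Real.exp (β * (L + 1)) := Real.one_le_exp (mul_nonneg hβ0 (by linarith))
    have h6 : Real.exp (β * (L + 1)) ≤ M i := by linarith
    rw [← hL]
    have h7 := mul_le_mul_of_nonneg_right h6 (Real.exp_pos (-(β * (L + 1)))).le
    rw [← Real.exp_add] at h7
    simpa using h7
  have main := io_blocks (μ := μ) hHM hDm (fun i => Real.exp (-(β * (Real.log ((2 : ℝ) ^ i) + 1)))) hp hsum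
  filter_upwards [main, hd] with ω hω h2
  obtain ⟨n₀, hn₀⟩ := no_VF h2 hδ0
  rw [frequently_atTop]
  intro a
  obtain ⟨i, hi1, hi2, m, hm, hmem⟩ := hω (max a n₀)
  have hTi : max a n₀ ≤ T i m :=
    hi1.trans ((Nat.lt_two_pow_self).le.trans (Nat.le_add_right _ _))
  refine ⟨T i m, (le_max_left _ _).trans hTi, ?_⟩
  rcases hmem with h | ⟨n, hn1, _, hn3⟩
  · exact h
  · exact absurd hn3 (hn₀ n (((le_max_right _ _).trans hTi).trans hn1))

end Pool.Agent.N740.HK
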