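import Mathlib
import Pool.Agent.H50.G.S.R528.RM.BHG

set_option autoImplicit false
set_option linter.unusedSectionVars false

/-! # Members in prescribed positions: eventual hypotheses, logarithmic averages -/

open MeasureTheory Filter Set
open scoped ENNReal Topology

namespace Pool.Agent.R528.RM

variable {Ω : Type} {m0 : MeasurableSpace Ω} {μ : Measure Ω} [IsProbabilityMeasure μ]
  {ℱ : Filtration ℕ m0} {A : ℕ → Set Ω} {ι : Type}

lemma shift_ratio {a b : ℕ → ℝ} (n₀ : ℕ) (hb : Tendsto (fun x => ∑ n ∈ Finset.range x, b (n + n₀)) atTop atTop)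
    (h : Tendsto (fun x => (∑ n ∈ Finset.range x, a (n + n₀)) / ∑ n ∈ Finset.range x, b (n + n₀)) atTop (𝓝 1)) :
    Tendsto (fun x => (∑ n ∈ Finset.range x, a n) / ∑ n ∈ Finset.range x, b n) atTop (𝓝 1) := by
  rw [← tendsto_add_atTop_iff_nat n₀]
  set Q : ℕ → ℝ := fun x => ∑ n ∈ Finset.range x, b (n + n₀) with hQ
  set P : ℕ → ℝ := fun x => ∑ n ∈ Finset.range x, a (n + n₀) with hP
  have h1 : ∀ f : ℕ → ℝ, ∀ x, ∑ n ∈ Finset.range (x + n₀), f n = ∑ n ∈ Finset.range n₀, f n + ∑ n ∈ Finset.range x, f (n + n₀) := by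
    intro f x
    rw [add_comm x n₀, Finset.sum_range_add]
    simp_rw [add_comm n₀]
  simp_rw [h1 a, h1 b]
  set a₀ := ∑ n ∈ Finset.range n₀, a n
  set b₀ := ∑ n ∈ Finset.range n₀, b n
  have h2 : Tendsto (fun x => (a₀ / Q x + P x / Q x) / (b₀ / Q x + 1)) atTop (𝓝 ((0 + 1) / (0 + 1))) :=
    ((tendsto_const_nhds.div_atTop hb).add h).div ((tendsto_const_nhds.div_atTop hb).add_const 1) (by norm_num)
  rw [show ((0 : ℝ) + 1) / (0 + 1) = 1 by norm_num] at h2
  refine h2.congr' ?_
  filter_upwards [hb.eventually_gt_atTop 0] with x hx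
  have hx' : Q x ≠ 0 := hx.ne'
  rw [← add_div, div_add_one hx', div_div_div_cancel_right₀ hx']

/-- the general law with eventual hypotheses -/
theorem bhg_ev (hA : ∀ n, MeasurableSet[ℱ n] (A n)) (ρ : ℕ → ℝ) (hρ : ∀ n, 0 ≤ ρ n)
    (hρ1 : ∀ n, ρ n ≤ 1)
    (hd : ∀ᵐ ω ∂μ, ∀ ε : ℝ, 0 < ε → ∀ᶠ n : ℕ in atTop, |dens μ ℱ A n ω - ρ (n + 1)| ≤ ε * ρ (n + 1))
    (F : ι → ℕ → ℕ) (s : Finset ι) (hmono : ∀ i ∈ s, ∀ᶠ n in atTop, F i n < F i (n + 1))
    (hord : ∀ i ∈ s, ∀ j ∈ s, i ≠ j → (∀ᶠ n in atTop, F i n < F j n) ∨ (∀ᶠ n in atTop, F j n < F i n))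
    (hU : Tendsto (fun x => ∑ n ∈ Finset.range x, ∏ i ∈ s, ρ (F i n)) atTop atTop) :
    ∀ᵐ ω ∂μ, Tendsto (fun x => (∑ n ∈ Finset.range x, YY A F s n ω) /
      ∑ n ∈ Finset.range x, ∏ i ∈ s, ρ (F i n)) atTop (𝓝 1) := by
  classical
  -- one threshold for everything
  have h1 : ∀ᶠ N in atTop, ∀ i ∈ s, ∀ n, N ≤ n → F i n < F i (n + 1) := by
    rw [eventually_all_finset]
    intro i hi
    obtain ⟨N, hN⟩ := eventually_atTop.1 (hmono i hi)
    filter_upwards [eventually_ge_atTop N] with M hM n hn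
    exact hN n (hM.trans hn)
  have h2 : ∀ᶠ N in atTop, ∀ i ∈ s, ∀ j ∈ s, i ≠ j → (∀ n, N ≤ n → F i n < F j n) ∨ (∀ n, N ≤ n → F j n < F i n) := by
    rw [eventually_all_finset]
    intro i hi
    rw [eventually_all_finset]
    intro j hj
    by_cases hij : i = j
    · exact Eventually.of_forall fun N h => absurd hij h
    rcases hord i hi j hj hij with h | h
    · obtain ⟨N, hN⟩ := eventually_atTop.1 h
      filter_upwards [eventually_ge_atTop N] with M hM _
      exact Or.inl fun n hn => hN n (hM.trans hn)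
    · obtain ⟨N, hN⟩ := eventually_atTop.1 h
      filter_upwards [eventually_ge_atTop N] with M hM _
      exact Or.inr fun n hn => hN n (hM.trans hn)
  obtain ⟨N, hN1, hN2⟩ := (h1.and h2).exists
  set n₀ := N + 1 with hn₀
  set F' : ι → ℕ → ℕ := fun i n => F i (n + n₀) with hF'
  have hdiv : Tendsto (fun x => ∑ n ∈ Finset.range x, ∏ i ∈ s, ρ (F' i n)) atTop atTop := by
    have h3 := (tendsto_add_atTop_iff_nat (f := fun x => ∑ n ∈ Finset.range x, ∏ i ∈ s, ρ (F i n)) n₀).2 hU
    have h4 : ∀ x, ∑ n ∈ Finset.range x, ∏ i ∈ s, ρ (F' i n) =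
        ∑ n ∈ Finset.range (x + n₀), ∏ i ∈ s, ρ (F i n) + (- ∑ n ∈ Finset.range n₀, ∏ i ∈ s, ρ (F i n)) := by
      intro x
      rw [add_comm x n₀, Finset.sum_range_add]
      simp only [hF', add_comm n₀]
      ring
    simp_rw [h4]
    exact tendsto_atTop_add_const_right _ _ h3
  have h5 := bhg (μ := μ) hA ρ hρ hρ1 hd F' s.card s rfl (fun i hi => strictMono_nat_of_lt_succ fun n => by
    have := hN1 i hi (n + n₀) (by omega)
    simp only [hF']
    rwa [show n + 1 + n₀ = n + n₀ + 1 by omega]) (fun i hi n => by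
    have := hN1 i hi (n + N) (by omega)
    simp only [hF', hn₀]
    rw [show n + (N + 1) = n + N + 1 by omega]
    omega) (fun i hi j hj hij => by
    rcases hN2 i hi j hj hij with h | h
    · exact Or.inl fun n => h _ (by omega)
    · exact Or.inr fun n => h _ (by omega)) (fun _ => 1) (fun _ => zero_le_one) (fun _ => le_rfl) (by
    simpa using hdiv)
  filter_upwards [h5] with ω hω
  simp only [one_mul] at hω
  exact shift_ratio (a := fun n => YY A F s n ω) (b := fun n => ∏ i ∈ s, ρ (F i n)) n₀ hdiv hω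

/-- logarithmic averages -/
lemma avg_log {b : ℕ → ℝ} {C β : ℝ} (hC : ∀ n, |b n| ≤ C) (k : ℕ)
    (h : Tendsto (fun n : ℕ => b n * Real.log n ^ k) atTop (𝓝 β)) :
    Tendsto (fun x : ℕ => (∑ n ∈ Finset.range x, |b n * Real.log x ^ k - β|) / x) atTop (𝓝 0) := by
  have hC0 : 0 ≤ C := (abs_nonneg _).trans (hC 0)
  rw [Metric.tendsto_atTop]
  intro ε hε
  set B := |β| + 1 with hB
  have hBpos : 0 < B := by have := abs_nonneg β; linarith
  -- choose η
  have hcont : Tendsto (fun η : ℝ => B * (((1 - η) ^ k)⁻¹ - 1)) (𝓝 0) (𝓝 (B * (((1 - 0) ^ k)⁻¹ - 1))) := by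
    have : ContinuousAt (fun η : ℝ => B * (((1 - η) ^ k)⁻¹ - 1)) 0 := by
      refine ContinuousAt.mul continuousAt_const (ContinuousAt.sub (ContinuousAt.inv₀ (by fun_prop) (by simp)) continuousAt_const)
    exact this.tendsto
  simp only [sub_zero, one_pow, inv_one, sub_self, mul_zero] at hcont
  have h1 := (hcont.eventually (gt_mem_nhds (show (0 : ℝ) < ε / 4 by positivity)))
  obtain ⟨r, hr, hr1⟩ := Metric.eventually_nhds_iff.1 h1
  obtain ⟨η, hη0, hη1, hη2⟩ : ∃ η : ℝ, 0 < η ∧ η < r ∧ η < 1 := ⟨min r 1 / 2, by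
    have : 0 < min r 1 := lt_min hr one_pos
    linarith, by
    have : 0 < min r 1 := lt_min hr one_pos
    have := min_le_left r 1
    linarith, by
    have : 0 < min r 1 := lt_min hr one_pos
    have := min_le_right r 1
    linarith⟩
  have hη3 := hr1 (y := η) (by rw [Real.dist_eq, sub_zero, abs_of_pos hη0]; exact hη1)
  set T := ((1 - η) ^ k)⁻¹ with hT
  have hTpos : 0 < T := by
    have : 0 < 1 - η := by linarith
    positivity
  have hT1 : 1 ≤ T := by
    rw [hT]
    refine (one_le_inv₀ (pow_pos (by linarith) k)).2 (pow_le_one₀ (by linarith) (by linarith))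
  -- the values for large n
  obtain ⟨n₁, hn₁⟩ := (Metric.tendsto_atTop.1 h) (min 1 (ε / (4 * T))) (lt_min one_pos (by positivity))
  -- the short initial segment
  have h2 : Tendsto (fun x : ℕ => Real.log (x : ℝ) ^ k / (x : ℝ) ^ η) atTop (𝓝 0) := by
    have h20 : Tendsto (fun x : ℝ => Real.log x ^ k / x ^ η) atTop (𝓝 0) :=
      (isLittleO_log_rpow_rpow_atTop (k : ℝ) hη0).tendsto_div_nhds_zero.congr fun x => by
        rw [Real.rpow_natCast]
    exact h20.comp tendsto_natCast_atTop_atTop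
  have h3 : Tendsto (fun x : ℕ => 1 / (x : ℝ) ^ η) atTop (𝓝 0) :=
    tendsto_const_nhds.div_atTop ((tendsto_rpow_atTop hη0).comp tendsto_natCast_atTop_atTop)
  have h4 : Tendsto (fun x : ℕ => 2 * (C * (Real.log (x : ℝ) ^ k / (x : ℝ) ^ η) + B * (1 / (x : ℝ) ^ η))) atTop (𝓝 (2 * (C * 0 + B * 0))) :=
    (((h2.const_mul C).add (h3.const_mul B)).const_mul 2)
  rw [show (2 : ℝ) * (C * 0 + B * 0) = 0 by ring] at h4
  have h5 : Tendsto (fun x : ℕ => (x : ℝ) ^ (1 - η)) atTop atTop :=
    (tendsto_rpow_atTop (by linarith)).comp tendsto_natCast_atTop_atTop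
  obtain ⟨x₀, hx₀⟩ := eventually_atTop.1 ((h4.eventually (gt_mem_nhds (show (0 : ℝ) < ε / 4 by positivity))).and
    ((h5.eventually_ge_atTop (n₁ : ℝ)).and ((h5.eventually_ge_atTop (1 : ℝ)).and (eventually_ge_atTop 3))))
  refine ⟨x₀, fun x hx => ?_⟩
  obtain ⟨e1, e2, e3, e4⟩ := hx₀ x hx
  have hx3 : (3 : ℝ) ≤ x := by exact_mod_cast e4
  have hxpos : (0 : ℝ) < x := by linarith
  have hlogx : 0 < Real.log x := Real.log_pos (by linarith)
  set y := (x : ℝ) ^ (1 - η) with hy
  have hyx : y * (x : ℝ) ^ η = x := by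
    rw [hy, ← Real.rpow_add hxpos]
    norm_num
  have hxη : 0 < (x : ℝ) ^ η := Real.rpow_pos_of_pos hxpos _
  have hy' : y = x / (x : ℝ) ^ η := by
    rw [eq_div_iff hxη.ne', hyx]
  -- pointwise bounds
  have p1 : ∀ n : ℕ, |b n * Real.log x ^ k - β| ≤ C * Real.log x ^ k + B := by
    intro n
    refine (abs_sub _ _).trans ?_
    rw [abs_mul, abs_of_pos (pow_pos hlogx k)]
    have := mul_le_mul_of_nonneg_right (hC n) (pow_pos hlogx k).le
    linarith
  have p2 : ∀ n : ℕ, n < x → y ≤ n → |b n * Real.log x ^ k - β| ≤ ε / 2 := by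
    intro n hn1 hn2
    have hnn : n₁ ≤ n := by exact_mod_cast e2.trans hn2
    have q1 := hn₁ n hnn
    rw [Real.dist_eq] at q1
    have hn0 : (0 : ℝ) < n := lt_of_lt_of_le (by linarith) hn2
    have q2 : (1 - η) * Real.log x ≤ Real.log n := by
      have := Real.log_le_log (by linarith) hn2
      rwa [hy, Real.log_rpow hxpos] at this
    have q3 : Real.log n ≤ Real.log x := Real.log_le_log hn0 (by exact_mod_cast hn1.le)
    have hlogn : 0 < Real.log n := lt_of_lt_of_le (mul_pos (by linarith) hlogx) q2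
    set R := (Real.log x / Real.log n) ^ k with hR
    have q4 : 1 ≤ R := one_le_pow₀ ((one_le_div hlogn).2 q3)
    have q5 : R ≤ T := by
      rw [hR, hT, ← inv_pow]
      apply pow_le_pow_left₀ (by positivity)
      rw [← one_div, div_le_div_iff₀ hlogn (by linarith)]
      linarith
    have q6 : b n * Real.log x ^ k - β = (b n * Real.log n ^ k - β) * R + β * (R - 1) := by
      have : Real.log x ^ k = Real.log n ^ k * R := by
        rw [hR, div_pow, mul_div_cancel₀ _ (pow_pos hlogn k).ne']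
      rw [this]
      ring
    rw [q6]
    refine (abs_add_le _ _).trans ?_
    rw [abs_mul, abs_mul, abs_of_nonneg (show 0 ≤ R by linarith), abs_of_nonneg (show 0 ≤ R - 1 by linarith)]
    have q7 : |b n * Real.log n ^ k - β| ≤ ε / (4 * T) := q1.le.trans (min_le_right _ _)
    have q8 : |b n * Real.log n ^ k - β| * R ≤ ε / (4 * T) * T := by
      apply mul_le_mul q7 q5 (by linarith) (by positivity)
    have q9 : ε / (4 * T) * T = ε / 4 := by
      field_simp
    have q10 : |β| * (R - 1) ≤ B * (T - 1) := by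
      apply mul_le_mul (by linarith) (by linarith) (by linarith) hBpos.le
    rw [q9] at q8
    linarith
  -- splitting
  have s1 : ∑ n ∈ Finset.range x, |b n * Real.log x ^ k - β| ≤
      ∑ n ∈ Finset.range x, (ε / 2 + if (n : ℝ) < y then C * Real.log x ^ k + B else 0) := by
    refine Finset.sum_le_sum fun n hn => ?_
    have hnx := Finset.mem_range.1 hn
    split_ifs with h
    · have := p1 n
      linarith
    · have := p2 n hnx (not_lt.1 h)
      linarith
  have s2 : ∑ n ∈ Finset.range x, (ε / 2 + if (n : ℝ) < y then C * Real.log x ^ k + B else 0) ≤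
      x * (ε / 2) + (2 * y) * (C * Real.log x ^ k + B) := by
    rw [Finset.sum_add_distrib, Finset.sum_const, Finset.card_range, nsmul_eq_mul, ← Finset.sum_filter,
      Finset.sum_const, nsmul_eq_mul]
    have hcard : ((Finset.filter (fun n : ℕ => (n : ℝ) < y) (Finset.range x)).card : ℝ) ≤ 2 * y := by
      have : Finset.filter (fun n : ℕ => (n : ℝ) < y) (Finset.range x) ⊆ Finset.range ⌈y⌉₊ := by
        intro n hn
        rw [Finset.mem_filter] at hn
        rw [Finset.mem_range]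
        exact Nat.lt_ceil.2 hn.2
      have h7 := Finset.card_le_card this
      rw [Finset.card_range] at h7
      have h8 : ((Finset.filter (fun n : ℕ => (n : ℝ) < y) (Finset.range x)).card : ℝ) ≤ ⌈y⌉₊ := by exact_mod_cast h7
      have h9 := Nat.ceil_lt_add_one (show 0 ≤ y by linarith)
      linarith
    have : 0 ≤ C * Real.log x ^ k + B := by positivity
    gcongr
  have s3 : (2 * y) * (C * Real.log x ^ k + B) = x * (2 * (C * (Real.log (x : ℝ) ^ k / (x : ℝ) ^ η) + B * (1 / (x : ℝ) ^ η))) := by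
    rw [hy']
    field_simp
  rw [Real.dist_eq, sub_zero, abs_of_nonneg (div_nonneg (Finset.sum_nonneg fun _ _ => abs_nonneg _) hxpos.le),
    div_lt_iff₀ hxpos]
  rw [s3] at s2
  have s4 := mul_lt_mul_of_pos_left e1 hxpos
  nlinarith

/-- logarithmic averages over a set with a density -/
lemma avg_log_dens {a b : ℕ → ℝ} {C β δ : ℝ} (hC : ∀ n, |b n| ≤ C) (k : ℕ)
    (h : Tendsto (fun n : ℕ => b n * Real.log n ^ k) atTop (𝓝 β)) (ha : ∀ n, |a n| ≤ 1)
    (hδ : Tendsto (fun x : ℕ => (∑ n ∈ Finset.range x, a n) / x) atTop (𝓝 δ)) :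
    Tendsto (fun x : ℕ => (∑ n ∈ Finset.range x, a n * b n) * Real.log x ^ k / x) atTop (𝓝 (δ * β)) := by
  have h1 := avg_log hC k h
  have h2 : Tendsto (fun x : ℕ => (∑ n ∈ Finset.range x, a n * (b n * Real.log x ^ k - β)) / x) atTop (𝓝 0) := by
    refine squeeze_zero_norm (fun x => ?_) h1
    rw [Real.norm_eq_abs, abs_div, Nat.abs_cast]
    apply div_le_div_of_nonneg_right _ (Nat.cast_nonneg x)
    refine (Finset.abs_sum_le_sum_abs _ _).trans (Finset.sum_le_sum fun n _ => ?_)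
    rw [abs_mul]
    exact mul_le_of_le_one_left (abs_nonneg _) (ha n)
  have h3 := h2.add (hδ.mul_const β)
  rw [zero_add] at h3
  refine h3.congr fun x => ?_
  have h4 : ∑ n ∈ Finset.range x, a n * (b n * Real.log x ^ k - β) =
      (∑ n ∈ Finset.range x, a n * b n) * Real.log x ^ k - (∑ n ∈ Finset.range x, a n) * β := by
    rw [Finset.sum_mul, Finset.sum_mul, ← Finset.sum_sub_distrib]
    refine Finset.sum_congr rfl fun n _ => ?_
    ring
  rw [h4]
  ring

/-- periodic sets have a density -/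
lemma periodic_dens (p : ℕ → Prop) [DecidablePred p] (W : ℕ) (hW : 0 < W) (hp : Function.Periodic p W) :
    Tendsto (fun x : ℕ => (∑ n ∈ Finset.range x, if p n then (1 : ℝ) else 0) / x) atTop
      (𝓝 ((Nat.count p W : ℝ) / W)) := by
  have h1 : ∀ x, (∑ n ∈ Finset.range x, if p n then (1 : ℝ) else 0) = Nat.count p x := by
    intro x
    rw [Nat.count_eq_card_filter_range, Finset.sum_boole]
  simp_rw [h1]
  have h2 : ∀ q r : ℕ, Nat.count p (q * W + r) = q * Nat.count p W + Nat.count p r := by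
    intro q r
    induction q with
    | zero => simp
    | succ q ih =>
      have h3 : (fun k => p (W + k)) = p := by
        funext k
        rw [add_comm]
        exact hp k
      have : (q + 1) * W + r = W + (q * W + r) := by ring
      rw [this, Nat.count_add]
      simp only [h3, ih]
      ring
  have hWr : (0 : ℝ) < W := by exact_mod_cast hW
  have hcW : (Nat.count p W : ℝ) ≤ W := by exact_mod_cast Nat.count_le p (n := W)
  rw [tendsto_iff_norm_sub_tendsto_zero]
  refine squeeze_zero_norm' ?_ (show Tendsto (fun x : ℕ => (W : ℝ) / x) atTop (𝓝 0) from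
    tendsto_const_nhds.div_atTop tendsto_natCast_atTop_atTop)
  filter_upwards [eventually_gt_atTop 0] with x hx
  have hx' : (0 : ℝ) < x := by exact_mod_cast hx
  rw [norm_norm, Real.norm_eq_abs]
  have h3 : Nat.count p x = (x / W) * Nat.count p W + Nat.count p (x % W) := by
    conv_lhs => rw [← Nat.div_add_mod' x W]
    exact h2 _ _
  have h4 : (x : ℝ) = (x / W : ℕ) * W + (x % W : ℕ) := by exact_mod_cast (Nat.div_add_mod' x W).symm
  have h5 : (Nat.count p (x % W) : ℝ) ≤ (x % W : ℕ) := by exact_mod_cast Nat.count_le p (n := x % W)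
  have h6 : ((x % W : ℕ) : ℝ) ≤ W := by exact_mod_cast (Nat.mod_lt x hW).le
  have e1 : (Nat.count p x : ℝ) / x - (Nat.count p W : ℝ) / W =
      ((Nat.count p (x % W) : ℝ) * W - (x % W : ℕ) * Nat.count p W) / (x * W) := by
    rw [h3]
    push_cast
    rw [div_sub_div _ _ hx'.ne' hWr.ne']
    congr 1
    rw [h4]
    ring
  rw [e1, abs_div, abs_of_pos (mul_pos hx' hWr), div_le_div_iff₀ (mul_pos hx' hWr) hx']
  have h7 : |(Nat.count p (x % W) : ℝ) * W - (x % W : ℕ) * Nat.count p W| ≤ W * W := by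
    rw [abs_sub_le_iff]
    have g1 : (0 : ℝ) ≤ (Nat.count p (x % W) : ℝ) := Nat.cast_nonneg _
    have g2 : (0 : ℝ) ≤ ((x % W : ℕ) : ℝ) := Nat.cast_nonneg _
    have g3 : (0 : ℝ) ≤ (Nat.count p W : ℝ) := Nat.cast_nonneg _
    constructor
    · have := mul_le_mul (h5.trans h6) le_rfl hWr.le hWr.le
      nlinarith [mul_nonneg g2 g3]
    · have := mul_le_mul h6 hcW g3 hWr.le
      nlinarith [mul_nonneg g1 hWr.le]
  calc _ ≤ (W * W : ℝ) * x := mul_le_mul_of_nonneg_right h7 hx'.le
    _ = _ := by ring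

end Pool.Agent.R528.RM
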