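import Mathlib
import Pool.Agent.H95.P.R528_RM_BHEv

set_option autoImplicit false
set_option linter.unusedSectionVars false

/-! # Members in prescribed positions: values of polynomials -/

open MeasureTheory Filter Set Polynomial
open scoped ENNReal Topology

namespace Pool.Agent.R528.RM

instance : Countable (ℤ[X]) := by
  have h : Function.Injective (fun p : ℤ[X] => p.toFinsupp.coeff) := by
    intro p q h
    ext n
    have := DFunLike.congr_fun h n
    exact this
  exact h.countable

lemma ev_pos_real (P : ℝ[X]) (h : 0 < P.leadingCoeff) : ∀ᶠ x : ℝ in atTop, 0 < P.eval x := by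
  have h1 := Polynomial.isEquivalent_atTop_lead P
  have h2 : ∀ᶠ x : ℝ in atTop, P.leadingCoeff * x ^ P.natDegree ≠ 0 := by
    filter_upwards [eventually_gt_atTop 0] with x hx
    positivity
  have h3 := (Asymptotics.isEquivalent_iff_tendsto_one h2).1 h1
  filter_upwards [h3.eventually (lt_mem_nhds (show (0 : ℝ) < 1 by norm_num)), eventually_gt_atTop 0] with x hx hx0
  simp only [Pi.div_apply] at hx
  have h4 : 0 < P.leadingCoeff * x ^ P.natDegree := by positivity
  exact (div_pos_iff_of_pos_right h4).1 hx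

lemma eval_cast (f : ℤ[X]) (n : ℕ) : ((f.eval (n : ℤ) : ℤ) : ℝ) = (f.map (Int.castRingHom ℝ)).eval (n : ℝ) := by
  have := Polynomial.eval_natCast_map (Int.castRingHom ℝ) f n
  rw [this]
  simp

lemma lead_cast (f : ℤ[X]) : (f.map (Int.castRingHom ℝ)).leadingCoeff = (f.leadingCoeff : ℝ) := by
  rw [Polynomial.leadingCoeff_map_of_injective (RingHom.injective_int _)]
  simp

lemma deg_cast (f : ℤ[X]) : (f.map (Int.castRingHom ℝ)).natDegree = f.natDegree :=
  Polynomial.natDegree_map_eq_of_injective (RingHom.injective_int _) f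

lemma ev_pos_int (f : ℤ[X]) (h : 0 < f.leadingCoeff) : ∀ᶠ n : ℕ in atTop, 0 < f.eval (n : ℤ) := by
  have h1 := ev_pos_real (f.map (Int.castRingHom ℝ)) (by rw [lead_cast]; exact_mod_cast h)
  filter_upwards [tendsto_natCast_atTop_atTop.eventually h1] with n hn
  rw [← eval_cast] at hn
  exact_mod_cast hn

/-- polynomial values -/
noncomputable def pv (f : ℤ[X]) (n : ℕ) : ℕ := (f.eval (n : ℤ)).toNat

lemma pv_mono (f : ℤ[X]) (hd : 0 < f.natDegree) (hl : 0 < f.leadingCoeff) : ∀ᶠ n : ℕ in atTop, pv f n < pv f (n + 1) := by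
  set P := f.map (Int.castRingHom ℝ) with hP
  have hPd : P.natDegree = f.natDegree := deg_cast f
  have hPl : P.leadingCoeff = (f.leadingCoeff : ℝ) := lead_cast f
  have hl' : (0 : ℝ) < f.leadingCoeff := by exact_mod_cast hl
  have h1 : 0 < (derivative P).leadingCoeff := by
    have h2 : (derivative P).coeff (P.natDegree - 1) = P.leadingCoeff * (P.natDegree) := by
      rw [Polynomial.coeff_derivative]
      rw [show P.natDegree - 1 + 1 = P.natDegree by omega]
      rw [Polynomial.leadingCoeff]
      congr 1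
      have : ((P.natDegree - 1 : ℕ) : ℝ) + 1 = ((P.natDegree - 1 + 1 : ℕ) : ℝ) := by push_cast; ring
      rw [this, show P.natDegree - 1 + 1 = P.natDegree by omega]
    have h3 : 0 < (derivative P).coeff (P.natDegree - 1) := by
      rw [h2, hPl, hPd]
      have : (0 : ℝ) < f.natDegree := by exact_mod_cast hd
      positivity
    have h4 : (derivative P).natDegree ≤ P.natDegree - 1 := Polynomial.natDegree_derivative_le P
    have h5 : P.natDegree - 1 ≤ (derivative P).natDegree := Polynomial.le_natDegree_of_ne_zero h3.ne'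
    rw [Polynomial.leadingCoeff, le_antisymm h4 h5]
    exact h3
  have h2 := ev_pos_real _ h1
  obtain ⟨x₀, hx₀⟩ := eventually_atTop.1 h2
  have h3 : StrictMonoOn (fun x => P.eval x) (Ici x₀) := by
    apply strictMonoOn_of_deriv_pos (convex_Ici x₀) (P.continuous.continuousOn)
    intro x hx
    rw [interior_Ici] at hx
    rw [Polynomial.deriv]
    exact hx₀ x (le_of_lt hx)
  filter_upwards [tendsto_natCast_atTop_atTop.eventually (eventually_ge_atTop x₀), ev_pos_int f hl] with n hn hn2
  have h4 : P.eval (n : ℝ) < P.eval ((n + 1 : ℕ) : ℝ) := h3 hn (show x₀ ≤ ((n + 1 : ℕ) : ℝ) by push_cast; linarith) (by push_cast; linarith)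
  rw [hP, ← eval_cast, ← eval_cast] at h4
  have h5 : f.eval (n : ℤ) < f.eval ((n + 1 : ℕ) : ℤ) := by exact_mod_cast h4
  unfold pv
  omega

lemma pv_ord (f g : ℤ[X]) (hf : 0 < f.leadingCoeff) (hg : 0 < g.leadingCoeff) (hfg : f ≠ g) :
    (∀ᶠ n in atTop, pv f n < pv g n) ∨ (∀ᶠ n in atTop, pv g n < pv f n) := by
  have key : ∀ f g : ℤ[X], 0 < f.leadingCoeff → 0 < (g - f).leadingCoeff → ∀ᶠ n in atTop, pv f n < pv g n := by
    intro f g hf h
    filter_upwards [ev_pos_int _ h, ev_pos_int f hf] with n hn hn2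
    rw [Polynomial.eval_sub] at hn
    unfold pv
    omega
  have h0 : (g - f).leadingCoeff ≠ 0 := by
    rw [Ne, Polynomial.leadingCoeff_eq_zero, sub_eq_zero]
    exact fun h => hfg h.symm
  rcases lt_or_gt_of_ne h0 with h | h
  · right
    refine key g f hg ?_
    have : f - g = - (g - f) := by ring
    rw [this, Polynomial.leadingCoeff_neg]
    linarith
  · left
    exact key f g hf h

lemma pv_log (f : ℤ[X]) (hl : 0 < f.leadingCoeff) :
    Tendsto (fun n : ℕ => Real.log (pv f n) / Real.log n) atTop (𝓝 (f.natDegree : ℝ)) := by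
  set P := f.map (Int.castRingHom ℝ) with hP
  have hPd : P.natDegree = f.natDegree := deg_cast f
  have hPl : P.leadingCoeff = (f.leadingCoeff : ℝ) := lead_cast f
  have hl' : (0 : ℝ) < f.leadingCoeff := by exact_mod_cast hl
  have h2 : ∀ᶠ x : ℝ in atTop, P.leadingCoeff * x ^ P.natDegree ≠ 0 := by
    filter_upwards [eventually_gt_atTop 0] with x hx
    rw [hPl]
    positivity
  have h3 := ((Asymptotics.isEquivalent_iff_tendsto_one h2).1 (Polynomial.isEquivalent_atTop_lead P)).comp tendsto_natCast_atTop_atTop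
  have h4 : Tendsto (fun n : ℕ => Real.log ((pv f n : ℝ) / (P.leadingCoeff * (n : ℝ) ^ P.natDegree))) atTop (𝓝 0) := by
    have h5 : Tendsto (fun n : ℕ => (pv f n : ℝ) / (P.leadingCoeff * (n : ℝ) ^ P.natDegree)) atTop (𝓝 1) := by
      refine h3.congr' ?_
      filter_upwards [ev_pos_int f hl] with n hn
      simp only [Function.comp_apply, Pi.div_apply]
      rw [hP, ← eval_cast]
      congr 1
      have : ((f.eval (n : ℤ)).toNat : ℤ) = f.eval (n : ℤ) := Int.toNat_of_nonneg hn.le
      unfold pv
      exact_mod_cast this.symm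
    have h6 := (Real.continuousAt_log one_ne_zero).tendsto.comp h5
    rwa [Real.log_one] at h6
  have hlogn : Tendsto (fun n : ℕ => Real.log (n : ℝ)) atTop atTop := tendsto_log
  have h7 : Tendsto (fun n : ℕ => Real.log ((pv f n : ℝ) / (P.leadingCoeff * (n : ℝ) ^ P.natDegree)) / Real.log n +
      Real.log P.leadingCoeff / Real.log n + P.natDegree) atTop (𝓝 (0 + 0 + P.natDegree)) := by
    refine (Tendsto.add ?_ ?_).add_const _
    · have := h4.mul (tendsto_inv_atTop_zero.comp hlogn)
      rw [zero_mul] at this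
      exact this
    · exact tendsto_const_nhds.div_atTop hlogn
  rw [zero_add, zero_add, hPd] at h7
  refine h7.congr' ?_
  filter_upwards [ev_pos_int f hl, eventually_gt_atTop 1] with n hn hn1
  have hn1' : (1 : ℝ) < n := by exact_mod_cast hn1
  have hlog : 0 < Real.log n := Real.log_pos hn1'
  have hpv : (0 : ℝ) < pv f n := by
    have : 0 < pv f n := by
      unfold pv
      omega
    exact_mod_cast this
  rw [Real.log_div hpv.ne' (by rw [hPl]; positivity), Real.log_mul (by rw [hPl]; positivity) (by positivity), Real.log_pow]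
  field_simp
  ring

end Pool.Agent.R528.RM
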