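import Mathlib
import Pool.Agent.H95.P.R528_RM_BHPoly

set_option autoImplicit false
set_option linter.unusedSectionVars false

/-! # Polynomial values in random models with a fixed sieving modulus -/

open MeasureTheory Filter Set Polynomial
open scoped ENNReal Topology

namespace Pool.Agent.R528.RM

variable {Ω : Type} {m0 : MeasurableSpace Ω} {μ : Measure Ω} [IsProbabilityMeasure μ]
  {ℱ : Filtration ℕ m0} {A : ℕ → Set Ω}

/-- the density profile of the model sieved by `W` -/
noncomputable def rhoW (W : ℕ) (m : ℕ) : ℝ :=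
  if Nat.Coprime m W then min 1 (((W : ℝ) / Nat.totient W) / Real.log m) else 0

lemma rhoW_nonneg (W m : ℕ) : 0 ≤ rhoW W m := by
  unfold rhoW
  split_ifs
  · refine le_min zero_le_one (div_nonneg (by positivity) (Real.log_natCast_nonneg m))
  · exact le_rfl

lemma rhoW_le (W m : ℕ) : rhoW W m ≤ 1 := by
  unfold rhoW
  split_ifs
  · exact min_le_left _ _
  · exact zero_le_one

lemma log_succ_ratio : Tendsto (fun n : ℕ => Real.log ((n + 1 : ℕ) : ℝ) / Real.log n) atTop (𝓝 1) := by
  have h1 : Tendsto (fun n : ℕ => Real.log (((n + 1 : ℕ) : ℝ) / n)) atTop (𝓝 0) := by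
    have h2 : Tendsto (fun n : ℕ => ((n + 1 : ℕ) : ℝ) / n) atTop (𝓝 1) := by
      have h3 : Tendsto (fun n : ℕ => 1 + 1 / (n : ℝ)) atTop (𝓝 (1 + 0)) :=
        tendsto_const_nhds.add tendsto_one_div_atTop_nhds_zero_nat
      rw [add_zero] at h3
      refine h3.congr' ?_
      filter_upwards [eventually_gt_atTop 0] with n hn
      have : (n : ℝ) ≠ 0 := by exact_mod_cast hn.ne'
      push_cast
      field_simp
    have h6 := (Real.continuousAt_log one_ne_zero).tendsto.comp h2
    rwa [Real.log_one] at h6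
  have h2 := (h1.mul (tendsto_inv_atTop_zero.comp tendsto_log)).add_const 1
  rw [zero_mul, zero_add] at h2
  refine h2.congr' ?_
  filter_upwards [eventually_gt_atTop 1] with n hn
  have hn' : (1 : ℝ) < n := by exact_mod_cast hn
  have hl : 0 < Real.log (n : ℝ) := Real.log_pos hn'
  rw [Real.log_div (by positivity) (by linarith)]
  simp only [Function.comp_apply]
  field_simp
  ring

/-- the densities of the sieved model follow the profile -/
lemma dens_profile (hA : ∀ n, MeasurableSet[ℱ n] (A n)) (W : ℕ) (hW : 0 < W)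
    (hcop : ∀ n, ¬ Nat.Coprime n W → A n = ∅)
    (hd : ∀ᵐ ω ∂μ, Tendsto (fun n : ℕ => dens μ ℱ A n ω * Real.log n)
      (atTop ⊓ 𝓟 {n : ℕ | Nat.Coprime (n + 1) W}) (𝓝 ((W : ℝ) / Nat.totient W))) :
    ∀ᵐ ω ∂μ, ∀ ε : ℝ, 0 < ε → ∀ᶠ n : ℕ in atTop,
      |dens μ ℱ A n ω - rhoW W (n + 1)| ≤ ε * rhoW W (n + 1) := by
  have hz : ∀ᵐ ω ∂μ, ∀ n, ¬ Nat.Coprime (n + 1) W → dens μ ℱ A n ω = 0 := by
    rw [ae_all_iff]
    intro n
    by_cases h : Nat.Coprime (n + 1) W
    · exact Eventually.of_forall fun ω h2 => absurd h h2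
    · have h1 : dens μ ℱ A n =ᵐ[μ] 0 := by
        unfold dens
        rw [hcop _ h, indicator_empty]
        rw [show (fun _ : Ω => (0 : ℝ)) = 0 from rfl, condExp_zero]
      filter_upwards [h1] with ω hω _
      exact hω
  filter_upwards [hz, hd] with ω hω1 hω2 ε hε
  set c := (W : ℝ) / Nat.totient W with hc
  have hcpos : 0 < c := div_pos (by exact_mod_cast hW) (by exact_mod_cast Nat.totient_pos.2 hW)
  have h1 : Tendsto (fun n : ℕ => dens μ ℱ A n ω * Real.log ((n + 1 : ℕ) : ℝ))
      (atTop ⊓ 𝓟 {n : ℕ | Nat.Coprime (n + 1) W}) (𝓝 c) := by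
    have h2 := hω2.mul (log_succ_ratio.mono_left (inf_le_left : atTop ⊓ 𝓟 {n : ℕ | Nat.Coprime (n + 1) W} ≤ atTop))
    rw [mul_one] at h2
    refine h2.congr' ?_
    apply Filter.Eventually.filter_mono inf_le_left
    filter_upwards [eventually_gt_atTop 1] with n hn
    have hn' : (1 : ℝ) < n := by exact_mod_cast hn
    have hl : 0 < Real.log (n : ℝ) := Real.log_pos hn'
    field_simp
  have h2 := (Metric.tendsto_nhds.1 h1) (ε * c) (by positivity)
  rw [eventually_inf_principal] at h2
  have h3 : ∀ᶠ n : ℕ in atTop, c ≤ Real.log n := tendsto_log.eventually_ge_atTop c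
  filter_upwards [h2, h3, eventually_gt_atTop 2] with n hn hn2 hn3
  by_cases hcp : Nat.Coprime (n + 1) W
  · have h4 := hn hcp
    have hlog1 : Real.log (n : ℝ) ≤ Real.log ((n + 1 : ℕ) : ℝ) :=
      Real.log_le_log (by exact_mod_cast (by omega : 0 < n)) (by push_cast; linarith)
    have hl : 0 < Real.log ((n + 1 : ℕ) : ℝ) := lt_of_lt_of_le hcpos (hn2.trans hlog1)
    have e1 : rhoW W (n + 1) = c / Real.log ((n + 1 : ℕ) : ℝ) := by
      unfold rhoW
      rw [if_pos hcp, min_eq_right]
      rw [div_le_one hl]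
      linarith
    rw [e1, Real.dist_eq] at *
    rw [show dens μ ℱ A n ω - c / Real.log ((n + 1 : ℕ) : ℝ) = (dens μ ℱ A n ω * Real.log ((n + 1 : ℕ) : ℝ) - c) / Real.log ((n + 1 : ℕ) : ℝ) by
      field_simp, abs_div, abs_of_pos hl, ← mul_div_assoc]
    exact div_le_div_of_nonneg_right h4.le hl.le
  · rw [hω1 n hcp]
    have e1 : rhoW W (n + 1) = 0 := by
      unfold rhoW
      rw [if_neg hcp]
    rw [e1]
    simp

lemma avg_congr {a a' : ℕ → ℝ} {δ : ℝ} (h : ∀ᶠ n in atTop, a n = a' n)
    (hδ : Tendsto (fun x : ℕ => (∑ n ∈ Finset.range x, a n) / x) atTop (𝓝 δ)) :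
    Tendsto (fun x : ℕ => (∑ n ∈ Finset.range x, a' n) / x) atTop (𝓝 δ) := by
  have h1 : Tendsto (fun n => a' n - a n) atTop (𝓝 0) := by
    refine tendsto_const_nhds.congr' ?_
    filter_upwards [h] with n hn
    rw [hn, sub_self]
  have h2 := h1.cesaro
  have h3 := hδ.add h2
  rw [add_zero] at h3
  refine h3.congr fun x => ?_
  rw [Finset.sum_sub_distrib]
  ring

/-- admissible residues: all values are coprime to `W` -/
def good (P : Finset ℤ[X]) (W : ℕ) (n : ℕ) : Prop := ∀ f ∈ P, Int.gcd (f.eval (n : ℤ)) W = 1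

noncomputable instance (P : Finset ℤ[X]) (W : ℕ) : DecidablePred (good P W) := Classical.decPred _

lemma good_periodic (P : Finset ℤ[X]) (W : ℕ) : Function.Periodic (good P W) W := by
  intro n
  unfold good
  apply propext
  refine forall₂_congr fun f _ => ?_
  have h1 : (W : ℤ) ∣ f.eval ((n + W : ℕ) : ℤ) - f.eval (n : ℤ) := by
    have := Polynomial.sub_dvd_eval_sub ((n + W : ℕ) : ℤ) (n : ℤ) f
    refine dvd_trans ?_ this
    push_cast
    simp
  obtain ⟨t, ht⟩ := h1
  have h2 : f.eval ((n + W : ℕ) : ℤ) = f.eval (n : ℤ) + W * t := by linarith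
  rw [h2, Int.gcd_add_mul_left_left]

/-- eventually `good` is the same as coprimality of the members -/
lemma good_pv (P : Finset ℤ[X]) (W : ℕ) (hP : ∀ f ∈ P, 0 < f.leadingCoeff) :
    ∀ᶠ n : ℕ in atTop, (good P W n ↔ ∀ f ∈ P, Nat.Coprime (pv f n) W) := by
  have h1 : ∀ᶠ n : ℕ in atTop, ∀ f ∈ P, 0 < f.eval (n : ℤ) := by
    rw [eventually_all_finset]
    exact fun f hf => ev_pos_int f (hP f hf)
  filter_upwards [h1] with n hn
  unfold good
  refine forall₂_congr fun f hf => ?_
  have h2 : ((pv f n : ℕ) : ℤ) = f.eval (n : ℤ) := Int.toNat_of_nonneg (hn f hf).le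
  rw [← h2, Int.gcd_natCast_natCast]

/-- the limit constant -/
noncomputable def bhConst (W : ℕ) (P : Finset ℤ[X]) : ℝ :=
  ((Nat.count (good P W) W : ℝ) / W) * (((W : ℝ) / Nat.totient W) ^ P.card * ∏ f ∈ P, ((f.natDegree : ℝ))⁻¹)

lemma profile_sum (W : ℕ) (hW : 0 < W) (P : Finset ℤ[X]) (hP : ∀ f ∈ P, 0 < f.natDegree ∧ 0 < f.leadingCoeff) :
    Tendsto (fun x : ℕ => (∑ n ∈ Finset.range x, ∏ f ∈ P, rhoW W (pv f n)) * Real.log x ^ P.card / x) atTop
      (𝓝 (bhConst W P)) := by
  classical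
  set c := (W : ℝ) / Nat.totient W with hc
  have hcpos : 0 < c := div_pos (by exact_mod_cast hW) (by exact_mod_cast Nat.totient_pos.2 hW)
  set a : ℕ → ℝ := fun n => if (∀ f ∈ P, Nat.Coprime (pv f n) W) then 1 else 0 with ha
  set b : ℕ → ℝ := fun n => ∏ f ∈ P, min 1 (c / Real.log (pv f n)) with hb
  have h0 : ∀ (f : ℤ[X]) (n : ℕ), 0 ≤ min 1 (c / Real.log (pv f n)) := fun f n =>
    le_min zero_le_one (div_nonneg hcpos.le (Real.log_natCast_nonneg _))
  have h1 : ∀ n, ∏ f ∈ P, rhoW W (pv f n) = a n * b n := by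
    intro n
    simp only [ha, hb]
    by_cases h : ∀ f ∈ P, Nat.Coprime (pv f n) W
    · rw [if_pos h, one_mul]
      refine Finset.prod_congr rfl fun f hf => ?_
      unfold rhoW
      rw [if_pos (h f hf)]
    · rw [if_neg h, zero_mul]
      push Not at h
      obtain ⟨f, hf, hfn⟩ := h
      refine Finset.prod_eq_zero hf ?_
      unfold rhoW
      rw [if_neg hfn]
  simp_rw [h1]
  refine avg_log_dens (C := 1) ?_ P.card ?_ ?_ ?_
  · intro n
    simp only [hb]
    rw [abs_of_nonneg (Finset.prod_nonneg fun f _ => h0 f n)]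
    exact Finset.prod_le_one (fun f _ => h0 f n) fun f _ => min_le_left _ _
  · have h2 : Tendsto (fun n : ℕ => ∏ f ∈ P, (min 1 (c / Real.log (pv f n)) * Real.log n)) atTop
        (𝓝 (∏ f ∈ P, c * (f.natDegree : ℝ)⁻¹)) := by
      refine tendsto_finsetProd _ fun f hf => ?_
      have h3 := pv_log f (hP f hf).2
      have hdpos : (0 : ℝ) < f.natDegree := by exact_mod_cast (hP f hf).1
      have h4 := (h3.inv₀ hdpos.ne').const_mul c
      refine h4.congr' ?_
      have h5 : Tendsto (fun n : ℕ => Real.log (pv f n)) atTop atTop := by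
        have h6 := h3.pos_mul_atTop hdpos tendsto_log
        refine h6.congr' ?_
        filter_upwards [eventually_gt_atTop 1] with n hn
        have hn' : (1 : ℝ) < n := by exact_mod_cast hn
        have hl : 0 < Real.log (n : ℝ) := Real.log_pos hn'
        field_simp
      filter_upwards [h5.eventually_ge_atTop c, h5.eventually_gt_atTop 0, eventually_gt_atTop 1] with n hn1 hn2 hn3
      have hn' : (1 : ℝ) < n := by exact_mod_cast hn3
      have hl : 0 < Real.log (n : ℝ) := Real.log_pos hn'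
      rw [min_eq_right ((div_le_one hn2).2 hn1)]
      field_simp
    rw [Finset.prod_mul_distrib, Finset.prod_const] at h2
    refine h2.congr fun n => ?_
    simp only [hb]
    rw [Finset.prod_mul_distrib, Finset.prod_const]
  · intro n
    simp only [ha]
    split_ifs <;> simp
  · have h2 := periodic_dens (good P W) W hW (good_periodic P W)
    refine avg_congr ?_ h2
    filter_upwards [good_pv P W fun f hf => (hP f hf).2] with n hn
    simp only [ha]
    by_cases h : good P W n
    · rw [if_pos h, if_pos (hn.1 h)]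
    · rw [if_neg h, if_neg (fun h' => h (hn.2 h'))]

/-- the counting function is a sum of products of indicators -/
lemma count_YY (P : Finset ℤ[X]) (x : ℕ) (ω : Ω) [DecidablePred fun n => ∀ f ∈ P, ω ∈ A (pv f n)] :
    ((Nat.count (fun n => ∀ f ∈ P, ω ∈ A (pv f n)) x : ℕ) : ℝ) = ∑ n ∈ Finset.range x, YY A pv P n ω := by
  rw [Nat.count_eq_card_filter_range, ← Finset.sum_boole]
  refine Finset.sum_congr rfl fun n _ => ?_
  rw [YY_eq]
  by_cases h : ∀ f ∈ P, ω ∈ A (pv f n)
  · rw [if_pos h, indicator_of_mem (show ω ∈ {ω | ∀ i ∈ P, ω ∈ A (pv i n)} from h)]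
  · rw [if_neg h, indicator_of_notMem (show ω ∉ {ω | ∀ i ∈ P, ω ∈ A (pv i n)} from h)]

/-- the local factor is multiplicative -/
lemma good_mul (P : Finset ℤ[X]) {a b : ℕ} (ha : 0 < a) (hb : 0 < b) (hab : Nat.Coprime a b) :
    Nat.count (good P (a * b)) (a * b) = Nat.count (good P a) a * Nat.count (good P b) b := by
  classical
  have hsplit : ∀ n, good P (a * b) n ↔ good P a n ∧ good P b n := by
    intro n
    unfold good
    constructor
    · intro h
      constructor <;> intro f hf
      · have h1 := h f hf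
        rw [Int.gcd_eq_natAbs] at h1 ⊢
        simp only [Int.natAbs_natCast] at h1 ⊢
        exact Nat.Coprime.coprime_mul_right_right (h1 : Nat.Coprime _ _)
      · have h1 := h f hf
        rw [Int.gcd_eq_natAbs] at h1 ⊢
        simp only [Int.natAbs_natCast] at h1 ⊢
        exact Nat.Coprime.coprime_mul_left_right (h1 : Nat.Coprime _ _)
    · rintro ⟨h1, h2⟩ f hf
      have h3 := h1 f hf
      have h4 := h2 f hf
      rw [Int.gcd_eq_natAbs] at h3 h4 ⊢
      simp only [Int.natAbs_natCast] at h3 h4 ⊢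
      exact Nat.Coprime.mul_right (h3 : Nat.Coprime _ _) (h4 : Nat.Coprime _ _)
  simp only [Nat.count_eq_card_filter_range]
  rw [← Finset.card_product]
  refine Finset.card_nbij (fun n => (n % a, n % b)) ?_ ?_ ?_
  · intro n hn
    simp only [Finset.coe_filter, Finset.mem_range, Set.mem_ofPred_eq] at hn
    obtain ⟨_, h2⟩ := hn
    rw [hsplit] at h2
    refine Finset.mem_coe.2 (Finset.mem_product.2 ⟨Finset.mem_filter.2 ⟨Finset.mem_range.2 (Nat.mod_lt _ ha), ?_⟩,
      Finset.mem_filter.2 ⟨Finset.mem_range.2 (Nat.mod_lt _ hb), ?_⟩⟩)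
    · rw [(good_periodic P a).map_mod_nat n]; exact h2.1
    · rw [(good_periodic P b).map_mod_nat n]; exact h2.2
  · intro n hn m hm h
    simp only [Finset.coe_filter, Finset.mem_range, Set.mem_ofPred_eq] at hn hm
    simp only [Prod.mk.injEq] at h
    have h3 : n ≡ m [MOD a * b] := (Nat.modEq_and_modEq_iff_modEq_mul hab).1 ⟨h.1, h.2⟩
    have h4 : n % (a * b) = m % (a * b) := h3
    rwa [Nat.mod_eq_of_lt hn.1, Nat.mod_eq_of_lt hm.1] at h4
  · rintro ⟨u, v⟩ huv
    simp only [Finset.coe_product, Finset.coe_filter, Finset.mem_range, Set.mem_prod, Set.mem_ofPred_eq] at huv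
    obtain ⟨⟨h1, h2⟩, ⟨h3, h4⟩⟩ := huv
    obtain ⟨n, hn1, hn2⟩ := Nat.chineseRemainder hab u v
    refine ⟨n % (a * b), ?_, ?_⟩
    · simp only [Finset.coe_filter, Finset.mem_range, Set.mem_ofPred_eq]
      refine ⟨Nat.mod_lt _ (Nat.mul_pos ha hb), ?_⟩
      rw [(good_periodic P (a * b)).map_mod_nat n, hsplit]
      constructor
      · rw [← (good_periodic P a).map_mod_nat n, show n % a = u % a from hn1, Nat.mod_eq_of_lt h1]; exact h2
      · rw [← (good_periodic P b).map_mod_nat n, show n % b = v % b from hn2, Nat.mod_eq_of_lt h3]; exact h4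
    · simp only [Prod.mk.injEq]
      constructor
      · rw [Nat.mod_mod_of_dvd _ (Dvd.intro _ rfl), show n % a = u % a from hn1, Nat.mod_eq_of_lt h1]
      · rw [Nat.mod_mod_of_dvd _ (Dvd.intro_left _ rfl), show n % b = v % b from hn2, Nat.mod_eq_of_lt h3]

/-- the constant as a product over the primes of the modulus -/
lemma const_prod (P : Finset ℤ[X]) (Q : Finset ℕ) (hQ : ∀ p ∈ Q, p.Prime) :
    ((Nat.count (good P (∏ p ∈ Q, p)) (∏ p ∈ Q, p) : ℝ) / ((∏ p ∈ Q, p : ℕ) : ℝ)) *
      (((∏ p ∈ Q, p : ℕ) : ℝ) / Nat.totient (∏ p ∈ Q, p)) ^ P.card =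
    ∏ p ∈ Q, ((Nat.count (good P p) p : ℝ) / p * (1 - 1 / (p : ℝ))⁻¹ ^ P.card) := by
  classical
  induction Q using Finset.induction_on with
  | empty =>
    have h1 : good P 1 0 := by
      intro f _
      simp
    have h2 : Nat.count (good P 1) 1 = 1 := by
      rw [Nat.count_eq_card_filter_range, Finset.filter_true_of_mem]
      · simp
      · intro x hx
        rw [Finset.mem_range] at hx
        rw [show x = 0 by omega]
        exact h1
    have h3 : ∏ p ∈ (∅ : Finset ℕ), p = 1 := Finset.prod_empty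
    rw [h3, Finset.prod_empty, h2]
    simp
  | insert p Q hp ih =>
    have hpp : p.Prime := hQ p (Finset.mem_insert_self p Q)
    have hQ' : ∀ q ∈ Q, q.Prime := fun q hq => hQ q (Finset.mem_insert_of_mem hq)
    have hcop : Nat.Coprime p (∏ q ∈ Q, q) := by
      refine Nat.Coprime.prod_right fun q hq => ?_
      refine (Nat.coprime_primes hpp (hQ' q hq)).2 ?_
      rintro rfl
      exact hp hq
    have hpos : 0 < ∏ q ∈ Q, q := Finset.prod_pos fun q hq => (hQ' q hq).pos
    rw [Finset.prod_insert hp, Finset.prod_insert hp, ← ih hQ', good_mul P hpp.pos hpos hcop,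
      Nat.totient_mul hcop, Nat.totient_prime hpp]
    have e1 : (0 : ℝ) < p := by exact_mod_cast hpp.pos
    have e2 : (0 : ℝ) < ((∏ q ∈ Q, q : ℕ) : ℝ) := by exact_mod_cast hpos
    have e3 : (0 : ℝ) < Nat.totient (∏ q ∈ Q, q) := by exact_mod_cast Nat.totient_pos.2 hpos
    have e4 : ((p - 1 : ℕ) : ℝ) = p - 1 := by
      rw [Nat.cast_sub hpp.one_le]
      simp
    have e5 : (1 : ℝ) < p := by exact_mod_cast hpp.one_lt
    push_cast [e4]
    have e6 : (1 - 1 / (p : ℝ))⁻¹ = p / (p - 1) := by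
      rw [one_sub_div e1.ne', inv_div]
    rw [e6]
    have e7 : (p : ℝ) - 1 ≠ 0 := by linarith
    rw [mul_div_mul_comm, mul_div_mul_comm, mul_pow]
    ring

theorem bh_poly (hA : ∀ n, MeasurableSet[ℱ n] (A n)) (W : ℕ) (hW : 0 < W)
    (hcop : ∀ n, ¬ Nat.Coprime n W → A n = ∅)
    (hd : ∀ᵐ ω ∂μ, Tendsto (fun n : ℕ => dens μ ℱ A n ω * Real.log n)
      (atTop ⊓ 𝓟 {n : ℕ | Nat.Coprime (n + 1) W}) (𝓝 ((W : ℝ) / Nat.totient W))) :
    ∀ᵐ ω ∂μ, ∀ P : Finset ℤ[X], (∀ f ∈ P, 0 < f.natDegree ∧ 0 < f.leadingCoeff) →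
      Tendsto (fun x : ℕ => (∑ n ∈ Finset.range x, YY A pv P n ω) * Real.log x ^ P.card / x) atTop
        (𝓝 (bhConst W P)) := by
  classical
  rw [ae_all_iff]
  intro P
  by_cases hP : ∀ f ∈ P, 0 < f.natDegree ∧ 0 < f.leadingCoeff
  swap
  · exact Eventually.of_forall fun ω h => absurd h hP
  have h1 := profile_sum W hW P hP
  by_cases hcnt : Nat.count (good P W) W = 0
  · -- a fixed obstruction
    have hno : ∀ n, ¬ good P W n := by
      intro n hn
      have h2 : good P W (n % W) := by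
        have := (good_periodic P W).map_mod_nat n
        rw [this]
        exact hn
      have h3 : 0 < Nat.count (good P W) W := by
        rw [Nat.count_eq_card_filter_range, Finset.card_pos]
        exact ⟨n % W, Finset.mem_filter.2 ⟨Finset.mem_range.2 (Nat.mod_lt _ hW), h2⟩⟩
      omega
    have hC : bhConst W P = 0 := by
      unfold bhConst
      rw [hcnt]
      simp
    rw [hC]
    refine Eventually.of_forall fun ω _ => ?_
    obtain ⟨n₀, hn₀⟩ := eventually_atTop.1 (good_pv P W fun f hf => (hP f hf).2)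
    have hY : ∀ n, n₀ ≤ n → YY A pv P n ω = 0 := by
      intro n hn
      have h2 : ¬ ∀ f ∈ P, Nat.Coprime (pv f n) W := fun h => hno n ((hn₀ n hn).2 h)
      push Not at h2
      obtain ⟨f, hf, hfn⟩ := h2
      refine Finset.prod_eq_zero hf ?_
      rw [hcop _ hfn, indicator_empty]
    have hlim : Tendsto (fun x : ℕ => (∑ n ∈ Finset.range n₀, YY A pv P n ω) * (Real.log x ^ P.card / x)) atTop (𝓝 ((∑ n ∈ Finset.range n₀, YY A pv P n ω) * 0)) := by
      refine Tendsto.const_mul _ ?_
      have h20 : Tendsto (fun x : ℝ => Real.log x ^ P.card / x ^ (1 : ℝ)) atTop (𝓝 0) :=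
        (isLittleO_log_rpow_rpow_atTop (P.card : ℝ) one_pos).tendsto_div_nhds_zero.congr fun x => by
          rw [Real.rpow_natCast]
      exact (h20.comp tendsto_natCast_atTop_atTop).congr fun x => by simp
    rw [mul_zero] at hlim
    refine hlim.congr' ?_
    filter_upwards [eventually_ge_atTop n₀] with x hx
    rw [← Finset.sum_range_add_sum_Ico _ hx, Finset.sum_eq_zero (s := Finset.Ico n₀ x) fun n hn => hY n (Finset.mem_Ico.1 hn).1, add_zero]
    ring
  · have hCpos : 0 < bhConst W P := by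
      unfold bhConst
      have e1 : (0 : ℝ) < Nat.count (good P W) W := by exact_mod_cast Nat.pos_of_ne_zero hcnt
      have e2 : (0 : ℝ) < W := by exact_mod_cast hW
      have e3 : (0 : ℝ) < Nat.totient W := by exact_mod_cast Nat.totient_pos.2 hW
      have e4 : 0 < ∏ f ∈ P, ((f.natDegree : ℝ))⁻¹ := Finset.prod_pos fun f hf => by
        have : (0 : ℝ) < f.natDegree := by exact_mod_cast (hP f hf).1
        positivity
      positivity
    -- divergence
    have hx : Tendsto (fun x : ℕ => (x : ℝ) / Real.log x ^ P.card) atTop atTop := by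
      have h20 : Tendsto (fun x : ℝ => Real.log x ^ P.card / x ^ (1 : ℝ)) atTop (𝓝 0) :=
        (isLittleO_log_rpow_rpow_atTop (P.card : ℝ) one_pos).tendsto_div_nhds_zero.congr fun x => by
          rw [Real.rpow_natCast]
      have h21 : Tendsto (fun x : ℕ => Real.log (x : ℝ) ^ P.card / x) atTop (𝓝[>] 0) := by
        rw [tendsto_nhdsWithin_iff]
        refine ⟨(h20.comp tendsto_natCast_atTop_atTop).congr fun x => by simp, ?_⟩
        filter_upwards [eventually_gt_atTop 1] with n hn
        have hn' : (1 : ℝ) < n := by exact_mod_cast hn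
        have hl : 0 < Real.log (n : ℝ) := Real.log_pos hn'
        exact div_pos (pow_pos hl _) (by linarith)
      exact (h21.inv_tendsto_nhdsGT_zero).congr fun x => by simp
    have hU : Tendsto (fun x => ∑ n ∈ Finset.range x, ∏ f ∈ P, rhoW W (pv f n)) atTop atTop := by
      refine (h1.pos_mul_atTop hCpos hx).congr' ?_
      filter_upwards [eventually_gt_atTop 1] with n hn
      have hn' : (1 : ℝ) < n := by exact_mod_cast hn
      have hl : 0 < Real.log (n : ℝ) := Real.log_pos hn'
      have hl' : Real.log (n : ℝ) ^ P.card ≠ 0 := (pow_pos hl _).ne'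
      field_simp
    have h2 := bhg_ev (μ := μ) hA (rhoW W) (rhoW_nonneg W) (rhoW_le W) (dens_profile hA W hW hcop hd) pv P
      (fun f hf => pv_mono f (hP f hf).1 (hP f hf).2)
      (fun f hf g hg hfg => pv_ord f g (hP f hf).2 (hP g hg).2 hfg) hU
    filter_upwards [h2] with ω hω _
    have h3 := hω.mul h1
    rw [one_mul] at h3
    refine h3.congr' ?_
    filter_upwards [hU.eventually_gt_atTop 0] with x hx0
    have := hx0.ne'
    field_simp

end Pool.Agent.R528.RM
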