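import Mathlib
import Pool.Agent.H50.G.S.R528.RM.Gold
import Pool.Agent.H95.P.R528_RM_BHOut

set_option autoImplicit false
set_option linter.unusedSectionVars false

/-! # Sums of two chosen integers in models sieved by finitely many primes -/

open MeasureTheory Filter Set Polynomial
open scoped ENNReal Topology

namespace Pool.Agent.R528.RM

variable {Ω : Type} {m0 : MeasurableSpace Ω} {μ : Measure Ω} [IsProbabilityMeasure μ]
  {ℱ : Filtration ℕ m0} {A : ℕ → Set Ω}

/-- counting a periodic predicate -/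
lemma count_periodic (p : ℕ → Prop) [DecidablePred p] (W : ℕ) (hW : 0 < W) (hp : Function.Periodic p W) (x : ℕ) :
    |(Nat.count p x : ℝ) - x * ((Nat.count p W : ℝ) / W)| ≤ W := by
  have h2 : ∀ q r : ℕ, Nat.count p (q * W + r) = q * Nat.count p W + Nat.count p r := by
    intro q r
    induction q with
    | zero => simp
    | succ q ih =>
      have h3 : (fun k => p (W + k)) = p := by
        funext k
        rw [add_comm]
        exact hp k
      have : (q + 1) * W + r = W + (q * W + r) := by ring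
      rw [this, Nat.count_add]
      simp only [h3, ih]
      ring
  have hWr : (0 : ℝ) < W := by exact_mod_cast hW
  have hcW : (Nat.count p W : ℝ) ≤ W := by exact_mod_cast Nat.count_le p (n := W)
  have h3 : Nat.count p x = (x / W) * Nat.count p W + Nat.count p (x % W) := by
    conv_lhs => rw [← Nat.div_add_mod' x W]
    exact h2 _ _
  have h4 : (x : ℝ) = (x / W : ℕ) * W + (x % W : ℕ) := by exact_mod_cast (Nat.div_add_mod' x W).symm
  have h5 : (Nat.count p (x % W) : ℝ) ≤ (x % W : ℕ) := by exact_mod_cast Nat.count_le p (n := x % W)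
  have h6 : ((x % W : ℕ) : ℝ) ≤ W := by exact_mod_cast (Nat.mod_lt x hW).le
  have e1 : (Nat.count p x : ℝ) - x * ((Nat.count p W : ℝ) / W) =
      (Nat.count p (x % W) : ℝ) - (x % W : ℕ) * ((Nat.count p W : ℝ) / W) := by
    rw [h3]
    push_cast
    conv_lhs => rw [h4]
    field_simp
    ring
  have g1 : (0 : ℝ) ≤ (Nat.count p (x % W) : ℝ) := Nat.cast_nonneg _
  have g2 : (0 : ℝ) ≤ ((x % W : ℕ) : ℝ) := Nat.cast_nonneg _
  have g3 : (0 : ℝ) ≤ (Nat.count p W : ℝ) / W := by positivity
  have g4 : (Nat.count p W : ℝ) / W ≤ 1 := (div_le_one hWr).2 hcW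
  have g5 : ((x % W : ℕ) : ℝ) * ((Nat.count p W : ℝ) / W) ≤ W := by
    calc _ ≤ ((x % W : ℕ) : ℝ) * 1 := mul_le_mul_of_nonneg_left g4 g2
      _ ≤ W := by linarith
  rw [e1, abs_le]
  constructor
  · linarith [mul_nonneg g2 g3]
  · linarith [mul_nonneg g2 g3]

/-- the truncated logarithmic weight -/
noncomputable def bb (c : ℝ) (j : ℕ) : ℝ := min 1 (c / Real.log j)

lemma bb_nonneg {c : ℝ} (hc : 0 ≤ c) (j : ℕ) : 0 ≤ bb c j :=
  le_min zero_le_one (div_nonneg hc (Real.log_natCast_nonneg j))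

lemma bb_le (c : ℝ) (j : ℕ) : bb c j ≤ 1 := min_le_left _ _

lemma bb_log {c : ℝ} : Tendsto (fun n : ℕ => bb c n * Real.log n ^ 1) atTop (𝓝 c) := by
  refine tendsto_const_nhds.congr' ?_
  filter_upwards [tendsto_log.eventually_ge_atTop c, tendsto_log.eventually_gt_atTop 0] with n hn hn2
  unfold bb
  rw [min_eq_right ((div_le_one hn2).2 hn)]
  field_simp

lemma pair_avg {c : ℝ} (hc : 0 < c) :
    Tendsto (fun n : ℕ => (∑ j ∈ Finset.range (n + 1), |bb c j * bb c (n - j) * Real.log n ^ 2 - c ^ 2|) / n) atTop (𝓝 0) := by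
  have h1 := avg_log (b := bb c) (C := 1) (β := c) (fun n => by
    rw [abs_of_nonneg (bb_nonneg hc.le n)]; exact bb_le c n) 1 bb_log
  have h2 : Tendsto (fun n : ℕ => 4 * c * ((∑ j ∈ Finset.range n, |bb c j * Real.log n ^ 1 - c|) / n + c / n)) atTop (𝓝 (4 * c * (0 + 0))) :=
    (h1.add (tendsto_const_nhds.div_atTop tendsto_natCast_atTop_atTop)).const_mul _
  rw [add_zero, mul_zero] at h2
  refine squeeze_zero_norm' ?_ h2
  filter_upwards [eventually_ge_atTop 4] with n hn
  have hn' : (4 : ℝ) ≤ n := by exact_mod_cast hn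
  have hL : 0 < Real.log (n : ℝ) := Real.log_pos (by linarith)
  set x : ℕ → ℝ := fun j => bb c j * Real.log n with hx
  have hx0 : ∀ j, 0 ≤ x j := fun j => mul_nonneg (bb_nonneg hc.le j) hL.le
  -- the upper half
  have hup : ∀ j : ℕ, n ≤ 2 * j → |x j - c| ≤ c := by
    intro j hj
    have hj' : (n : ℝ) ≤ 2 * j := by exact_mod_cast hj
    have hjpos : (2 : ℝ) ≤ j := by linarith
    have e1 : Real.log n ≤ 2 * Real.log j := by
      have : 2 * Real.log (j : ℝ) = Real.log ((j : ℝ) ^ 2) := by rw [Real.log_pow]; norm_num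
      rw [this]
      exact Real.log_le_log (by linarith) (by nlinarith)
    have e2 : 0 < Real.log (j : ℝ) := Real.log_pos (by linarith)
    have e3 : x j ≤ 2 * c := by
      calc x j ≤ c / Real.log j * Real.log n := mul_le_mul_of_nonneg_right (min_le_right _ _) hL.le
        _ ≤ c / Real.log j * (2 * Real.log j) := mul_le_mul_of_nonneg_left e1 (div_nonneg hc.le e2.le)
        _ = 2 * c := by field_simp
    rw [abs_le]
    constructor <;> linarith [hx0 j]
  have hpt : ∀ j ∈ Finset.range (n + 1), |bb c j * bb c (n - j) * Real.log n ^ 2 - c ^ 2| ≤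
      2 * c * (|x j - c| + |x (n - j) - c|) := by
    intro j hj
    have hj' := Finset.mem_range.1 hj
    have e1 : bb c j * bb c (n - j) * Real.log n ^ 2 - c ^ 2 = (x j - c) * (x (n - j) - c) + c * (x j - c) + c * (x (n - j) - c) := by
      simp only [hx]
      ring
    rw [e1]
    have e2 : |x j - c| * |x (n - j) - c| ≤ c * (|x j - c| + |x (n - j) - c|) := by
      rcases le_total n (2 * j) with h | h
      · have := hup j h
        have g := abs_nonneg (x (n - j) - c)
        have g2 := abs_nonneg (x j - c)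
        nlinarith
      · have := hup (n - j) (by omega)
        have g := abs_nonneg (x (n - j) - c)
        have g2 := abs_nonneg (x j - c)
        nlinarith
    calc |(x j - c) * (x (n - j) - c) + c * (x j - c) + c * (x (n - j) - c)| ≤
          |(x j - c) * (x (n - j) - c)| + |c * (x j - c)| + |c * (x (n - j) - c)| := by
          refine (abs_add_le _ _).trans (add_le_add (abs_add_le _ _) le_rfl)
      _ = |x j - c| * |x (n - j) - c| + c * |x j - c| + c * |x (n - j) - c| := by
          rw [abs_mul, abs_mul, abs_mul, abs_of_pos hc]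
      _ ≤ _ := by linarith
  have hsum := Finset.sum_le_sum hpt
  have e3 : ∑ j ∈ Finset.range (n + 1), 2 * c * (|x j - c| + |x (n - j) - c|) = 4 * c * ∑ j ∈ Finset.range (n + 1), |x j - c| := by
    rw [← Finset.mul_sum, Finset.sum_add_distrib]
    have e4 : ∑ j ∈ Finset.range (n + 1), |x (n - j) - c| = ∑ j ∈ Finset.range (n + 1), |x j - c| := by
      rw [← Finset.sum_range_reflect]
      refine Finset.sum_congr rfl fun j hj => ?_
      have hj' := Finset.mem_range.1 hj
      rw [show n - (n + 1 - 1 - j) = j by omega]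
    rw [e4]
    ring
  rw [e3] at hsum
  have e7 : ∑ j ∈ Finset.range (n + 1), |x j - c| = ∑ j ∈ Finset.range n, |x j - c| + |x n - c| := Finset.sum_range_succ _ _
  rw [e7] at hsum
  have e5 := hup n (by omega)
  rw [Real.norm_eq_abs, abs_of_nonneg (div_nonneg (Finset.sum_nonneg fun _ _ => abs_nonneg _) (by positivity)),
    div_le_iff₀ (by linarith)]
  simp only [pow_one]
  set Sg := ∑ j ∈ Finset.range n, |bb c j * Real.log n - c| with hSg
  have e6 : 4 * c * (Sg / n + c / n) * n = 4 * c * (Sg + c) := by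
    field_simp
  rw [e6]
  refine hsum.trans ?_
  apply mul_le_mul_of_nonneg_left _ (by positivity)
  have e8 : ∑ j ∈ Finset.range n, |x j - c| = Sg := rfl
  linarith

/-- the two linear forms `X` and `n - X` -/
noncomputable def PP (n : ℕ) : Finset ℤ[X] := {X, C (n : ℤ) - X}

lemma PP_ne (n : ℕ) : (X : ℤ[X]) ≠ C (n : ℤ) - X := by
  intro h
  have := congr_arg (fun f => f.coeff 1) h
  simp at this

lemma PP_card (n : ℕ) : (PP n).card = 2 := by
  unfold PP
  exact Finset.card_pair (PP_ne n)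

lemma good_PP (n W j : ℕ) (hj : j ≤ n) : good (PP n) W j ↔ Nat.Coprime j W ∧ Nat.Coprime (n - j) W := by
  unfold good PP
  constructor
  · intro h
    have h1 := h X (by simp)
    have h2 := h (C (n : ℤ) - X) (by simp)
    simp only [eval_X, eval_sub, eval_C] at h1 h2
    refine ⟨h1, ?_⟩
    rw [← Nat.cast_sub hj] at h2
    exact h2
  · rintro ⟨h1, h2⟩ f hf
    simp only [Finset.mem_insert, Finset.mem_singleton] at hf
    rcases hf with rfl | rfl
    · simp only [eval_X]
      exact h1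
    · simp only [eval_sub, eval_C, eval_X]
      rw [← Nat.cast_sub hj]
      exact h2

/-- the local factor at `Q` -/
noncomputable def singQ (Q : Finset ℕ) (n : ℕ) : ℝ :=
  ∏ p ∈ Q, (1 - (if p ∣ n then 1 else 2 : ℝ) / p) / (1 - 1 / (p : ℝ)) ^ 2

lemma omega_PP (n : ℕ) {p : ℕ} (hp : p.Prime) : omegaF (PP n) p = if p ∣ n then 1 else 2 := by
  have hpi : Prime (p : ℤ) := Nat.prime_iff_prime_int.1 hp
  have h1 : ∀ r : ℕ, r < p → ((p : ℤ) ∣ ∏ f ∈ PP n, f.eval (r : ℤ) ↔ r = 0 ∨ r = n % p) := by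
    intro r hr
    unfold PP
    rw [Finset.prod_pair (PP_ne n), hpi.dvd_mul]
    simp only [eval_X, eval_sub, eval_C]
    refine or_congr ?_ ?_
    · rw [Int.natCast_dvd_natCast]
      constructor
      · intro h
        exact Nat.eq_zero_of_dvd_of_lt h hr
      · rintro rfl
        exact dvd_zero _
    · have e1 : (p : ℤ) ∣ (n : ℤ) - r ↔ r ≡ n [MOD p] := (Nat.modEq_iff_dvd).symm
      rw [e1]
      constructor
      · intro h
        have : r % p = n % p := h
        rwa [Nat.mod_eq_of_lt hr] at this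
      · rintro h
        show r % p = n % p
        rw [h, Nat.mod_mod]
  have h2 : {r : ℕ | r < p ∧ (p : ℤ) ∣ ∏ f ∈ PP n, f.eval (r : ℤ)} = {0, n % p} := by
    ext r
    simp only [Set.mem_ofPred_eq, Set.mem_insert_iff, Set.mem_singleton_iff]
    constructor
    · rintro ⟨h3, h4⟩
      exact (h1 r h3).1 h4
    · intro h3
      have h4 : r < p := by
        rcases h3 with h | h
        · rw [h]; exact hp.pos
        · rw [h]; exact Nat.mod_lt _ hp.pos
      exact ⟨h4, (h1 r h4).2 h3⟩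
  unfold omegaF
  rw [h2]
  split_ifs with h
  · rw [Nat.mod_eq_zero_of_dvd h]
    simp
  · rw [Set.ncard_pair]
    intro h3
    exact h (Nat.dvd_of_mod_eq_zero h3.symm)

lemma singQ_eq (Q : Finset ℕ) (hQ : ∀ p ∈ Q, p.Prime) (n : ℕ) :
    ((Nat.count (good (PP n) (∏ p ∈ Q, p)) (∏ p ∈ Q, p) : ℝ) / ((∏ p ∈ Q, p : ℕ) : ℝ)) *
      (((∏ p ∈ Q, p : ℕ) : ℝ) / Nat.totient (∏ p ∈ Q, p)) ^ 2 = singQ Q n := by
  have h1 := const_prod (PP n) Q hQ
  rw [PP_card] at h1
  rw [h1]
  unfold singQ
  refine Finset.prod_congr rfl fun p hp => ?_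
  have h4 := omega_good (PP n) (hQ p hp)
  have h5 : (Nat.count (good (PP n) p) p : ℝ) + omegaF (PP n) p = p := by exact_mod_cast h4
  have h6 : (0 : ℝ) < p := by exact_mod_cast (hQ p hp).pos
  have h7 : (Nat.count (good (PP n) p) p : ℝ) / p = 1 - (omegaF (PP n) p : ℝ) / p := by
    field_simp
    linarith
  rw [h7, inv_pow, omega_PP n (hQ p hp)]
  push_cast
  exact (div_eq_mul_inv _ _).symm

/-- the expected size in the sieved model -/
lemma goldE_asymp (Q : Finset ℕ) (hQ : ∀ p ∈ Q, p.Prime) :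
    Tendsto (fun n : ℕ => goldE (rhoW (∏ p ∈ Q, p)) n * Real.log n ^ 2 / n - singQ Q n) atTop (𝓝 0) := by
  classical
  set W := ∏ p ∈ Q, p with hWdef
  have hW : 0 < W := Finset.prod_pos fun q hq => (hQ q hq).pos
  set c := (W : ℝ) / Nat.totient W with hc
  have hcpos : 0 < c := div_pos (by exact_mod_cast hW) (by exact_mod_cast Nat.totient_pos.2 hW)
  have h1 := pair_avg hcpos
  have h2 : Tendsto (fun n : ℕ => c ^ 2 * ((W + 1 : ℝ) / n)) atTop (𝓝 0) := by
    have := (tendsto_const_nhds (x := (W + 1 : ℝ))).div_atTop (tendsto_natCast_atTop_atTop (R := ℝ))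
    have h3 := this.const_mul (c ^ 2)
    rwa [mul_zero] at h3
  have h3 := h1.add h2
  rw [add_zero] at h3
  refine squeeze_zero_norm' ?_ h3
  filter_upwards [eventually_gt_atTop 0] with n hn
  have hn' : (0 : ℝ) < n := by exact_mod_cast hn
  set a : ℕ → ℝ := fun j => if good (PP n) W j then 1 else 0 with ha
  have e1 : goldE (rhoW W) n = ∑ j ∈ Finset.range (n + 1), a j * (bb c j * bb c (n - j)) := by
    unfold goldE
    refine Finset.sum_congr rfl fun j hj => ?_
    have hj' := Finset.mem_range.1 hj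
    simp only [ha]
    unfold rhoW bb
    rw [← hc]
    by_cases h : good (PP n) W j
    · have h4 := (good_PP n W j (by omega)).1 h
      rw [if_pos h, if_pos h4.1, if_pos h4.2, one_mul]
    · rw [if_neg h, zero_mul]
      rw [good_PP n W j (by omega)] at h
      by_cases h5 : Nat.Coprime j W
      · rw [if_neg (show ¬ Nat.Coprime (n - j) W from fun h6 => h ⟨h5, h6⟩), mul_zero]
      · rw [if_neg h5, zero_mul]
  have e2 : ∑ j ∈ Finset.range (n + 1), a j = Nat.count (good (PP n) W) (n + 1) := by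
    simp only [ha]
    rw [Finset.sum_boole, Nat.count_eq_card_filter_range]
  have e3 := count_periodic (good (PP n) W) W hW (good_periodic (PP n) W) (n + 1)
  have e4 : singQ Q n = (Nat.count (good (PP n) W) W : ℝ) / W * c ^ 2 := (singQ_eq Q hQ n).symm
  set d := (Nat.count (good (PP n) W) W : ℝ) / W with hd
  have hd0 : 0 ≤ d := by positivity
  have hd1 : d ≤ 1 := by
    rw [hd, div_le_one (by exact_mod_cast hW)]
    exact_mod_cast Nat.count_le _ (n := W)
  have e5 : goldE (rhoW W) n * Real.log n ^ 2 / n - singQ Q n =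
      (∑ j ∈ Finset.range (n + 1), a j * (bb c j * bb c (n - j) * Real.log n ^ 2 - c ^ 2)) / n +
      c ^ 2 * ((∑ j ∈ Finset.range (n + 1), a j - n * d) / n) := by
    have e6 : ∑ j ∈ Finset.range (n + 1), a j * (bb c j * bb c (n - j) * Real.log n ^ 2 - c ^ 2) =
        goldE (rhoW W) n * Real.log n ^ 2 - (∑ j ∈ Finset.range (n + 1), a j) * c ^ 2 := by
      rw [e1, Finset.sum_mul, Finset.sum_mul, ← Finset.sum_sub_distrib]
      refine Finset.sum_congr rfl fun j _ => ?_
      ring
    rw [e6, e4]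
    field_simp
    ring
  rw [e5, Real.norm_eq_abs]
  refine (abs_add_le _ _).trans (add_le_add ?_ ?_)
  · rw [abs_div, abs_of_pos hn']
    apply div_le_div_of_nonneg_right _ hn'.le
    refine (Finset.abs_sum_le_sum_abs _ _).trans (Finset.sum_le_sum fun j _ => ?_)
    rw [abs_mul]
    refine mul_le_of_le_one_left (abs_nonneg _) ?_
    simp only [ha]
    split_ifs <;> simp
  · rw [abs_mul, abs_of_nonneg (sq_nonneg c), abs_div, abs_of_pos hn', e2]
    apply mul_le_mul_of_nonneg_left _ (sq_nonneg c)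
    apply div_le_div_of_nonneg_right _ hn'.le
    have e7 := abs_le.1 e3
    push_cast at e7
    rw [abs_le]
    constructor <;> nlinarith [e7.1, e7.2]

theorem gold_sieved (hA : ∀ n, MeasurableSet[ℱ n] (A n)) (Q : Finset ℕ) (hQ : ∀ p ∈ Q, p.Prime)
    (hcop : ∀ n, (∃ p ∈ Q, p ∣ n) → A n = ∅)
    (hd : ∀ᵐ ω ∂μ, Tendsto (fun n : ℕ => dens μ ℱ A n ω * Real.log n)
      (atTop ⊓ 𝓟 {n : ℕ | ∀ p ∈ Q, ¬ p ∣ n + 1}) (𝓝 (∏ p ∈ Q, (1 - 1 / (p : ℝ))⁻¹))) :
    ∀ᵐ ω ∂μ, Tendsto (fun n : ℕ => gold A n ω * Real.log n ^ 2 / n - singQ Q n) atTop (𝓝 0) := by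
  classical
  set W := ∏ p ∈ Q, p with hWdef
  have hW : 0 < W := Finset.prod_pos fun q hq => (hQ q hq).pos
  have hc : ∀ n, Nat.Coprime n W ↔ ∀ p ∈ Q, ¬ p ∣ n := by
    intro n
    rw [hWdef, Nat.coprime_prod_right_iff]
    refine forall₂_congr fun p hp => ?_
    rw [Nat.coprime_comm]
    exact Nat.Prime.coprime_iff_not_dvd (hQ p hp)
  have hprof := dens_profile (μ := μ) hA W hW (fun n hn => hcop n (by
    rw [hc] at hn
    push Not at hn
    exact hn)) (by
    rw [totient_prod Q hQ]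
    simp_rw [hc]
    exact hd)
  have h1 := gold_law (μ := μ) hA (rhoW W) (fun n => ⟨rhoW_nonneg W n, rhoW_le W n⟩) hprof
  filter_upwards [h1] with ω hω
  have h2 := goldE_asymp Q hQ
  rw [← hWdef] at h2
  -- boundedness of the local factor
  obtain ⟨K, hK0, hK⟩ : ∃ K : ℝ, 0 ≤ K ∧ ∀ n, |singQ Q n| ≤ K := by
    refine ⟨∏ p ∈ Q, 1 / (1 - 1 / (p : ℝ)) ^ 2, ?_, fun n => ?_⟩
    · exact Finset.prod_nonneg fun p _ => by positivity
    · unfold singQ
      rw [Finset.abs_prod]
      apply Finset.prod_le_prod (fun _ _ => abs_nonneg _)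
      intro p hp
      have hp2 : (2 : ℝ) ≤ p := by exact_mod_cast (hQ p hp).two_le
      have e1 : 0 < (1 - 1 / (p : ℝ)) ^ 2 := by
        have : 1 / (p : ℝ) ≤ 1 / 2 := one_div_le_one_div_of_le (by norm_num) hp2
        have : 0 < 1 - 1 / (p : ℝ) := by linarith
        positivity
      rw [abs_div, abs_of_pos e1]
      apply div_le_div_of_nonneg_right _ e1.le
      have e2 : (0 : ℝ) ≤ (if p ∣ n then 1 else 2 : ℝ) / p := by split_ifs <;> positivity
      have e3 : (if p ∣ n then 1 else 2 : ℝ) / p ≤ 1 := by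
        rw [div_le_one (by linarith)]
        split_ifs <;> linarith
      rw [abs_le]
      constructor <;> linarith
  have h3 : Tendsto (fun n : ℕ => gold A n ω * Real.log n ^ 2 / n - goldE (rhoW W) n * Real.log n ^ 2 / n) atTop (𝓝 0) := by
    rw [Metric.tendsto_atTop]
    intro ε hε
    have h4 := hω (ε / (2 * (K + 1))) (by positivity)
    have h5 : Tendsto (fun n : ℕ => 14 * √(n * Real.log n) * Real.log n ^ 2 / n) atTop (𝓝 0) := by
      have h6 : Tendsto (fun x : ℝ => 14 * (Real.log x ^ (5 / 2 : ℝ) / x ^ (1 / 2 : ℝ))) atTop (𝓝 (14 * 0)) :=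
        ((isLittleO_log_rpow_rpow_atTop (5 / 2 : ℝ) (by norm_num : (0 : ℝ) < 1 / 2)).tendsto_div_nhds_zero).const_mul _
      rw [mul_zero] at h6
      refine (h6.comp tendsto_natCast_atTop_atTop).congr' ?_
      filter_upwards [eventually_gt_atTop 1] with n hn
      have hn' : (1 : ℝ) < n := by exact_mod_cast hn
      have hL : 0 < Real.log (n : ℝ) := Real.log_pos hn'
      simp only [Function.comp_apply]
      rw [Real.sqrt_eq_rpow, Real.mul_rpow (by linarith) hL.le]
      have e1 : Real.log (n : ℝ) ^ (5 / 2 : ℝ) = Real.log n ^ (1 / 2 : ℝ) * Real.log n ^ 2 := by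
        rw [← Real.rpow_natCast, ← Real.rpow_add hL]
        norm_num
      have e2 : (n : ℝ) = (n : ℝ) ^ (1 / 2 : ℝ) * (n : ℝ) ^ (1 / 2 : ℝ) := by
        rw [← Real.rpow_add (by linarith)]
        norm_num
      have e3 : (n : ℝ) ^ (1 / 2 : ℝ) ≠ 0 := (Real.rpow_pos_of_pos (by linarith) _).ne'
      rw [e1]
      conv_rhs => rw [show (14 * ((n : ℝ) ^ (1 / 2 : ℝ) * Real.log n ^ (1 / 2 : ℝ)) * Real.log n ^ 2 / n) =
        (14 * ((n : ℝ) ^ (1 / 2 : ℝ) * Real.log n ^ (1 / 2 : ℝ)) * Real.log n ^ 2) / ((n : ℝ) ^ (1 / 2 : ℝ) * (n : ℝ) ^ (1 / 2 : ℝ)) by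
          rw [← e2]]
      field_simp
    have h6 := (Metric.tendsto_atTop.1 h2) 1 one_pos
    obtain ⟨n₁, hn₁⟩ := h6
    obtain ⟨n₂, hn₂⟩ := eventually_atTop.1 ((h4.and (h5.eventually (gt_mem_nhds (show (0 : ℝ) < ε / 2 by positivity)))).and
      ((eventually_ge_atTop n₁).and (eventually_gt_atTop 1)))
    refine ⟨n₂, fun n hn => ?_⟩
    obtain ⟨⟨g1, g2⟩, g3, g4⟩ := hn₂ n hn
    have hn' : (1 : ℝ) < n := by exact_mod_cast g4
    have g5 := hn₁ n g3
    rw [Real.dist_eq, sub_zero] at g5 ⊢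
    have g6 : goldE (rhoW W) n * Real.log n ^ 2 / n ≤ K + 1 := by
      have := (abs_lt.1 g5).2
      have := (abs_le.1 (hK n)).2
      linarith
    rw [← sub_div, ← sub_mul, abs_div, abs_mul, abs_of_nonneg (sq_nonneg (Real.log (n : ℝ))), abs_of_pos (show (0 : ℝ) < n by linarith)]
    calc |gold A n ω - goldE (rhoW W) n| * Real.log n ^ 2 / n
        ≤ (14 * √(n * Real.log n) + ε / (2 * (K + 1)) * goldE (rhoW W) n) * Real.log n ^ 2 / n := by
          apply div_le_div_of_nonneg_right _ (by linarith)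
          exact mul_le_mul_of_nonneg_right g1 (sq_nonneg _)
      _ = 14 * √(n * Real.log n) * Real.log n ^ 2 / n + ε / (2 * (K + 1)) * (goldE (rhoW W) n * Real.log n ^ 2 / n) := by ring
      _ ≤ 14 * √(n * Real.log n) * Real.log n ^ 2 / n + ε / (2 * (K + 1)) * (K + 1) := by
          have := mul_le_mul_of_nonneg_left g6 (show 0 ≤ ε / (2 * (K + 1)) by positivity)
          linarith
      _ = 14 * √(n * Real.log n) * Real.log n ^ 2 / n + ε / 2 := by field_simp
      _ < ε := by linarith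
  have h4 := h3.add h2
  rw [add_zero] at h4
  refine h4.congr fun n => ?_
  ring

end Pool.Agent.R528.RM
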