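import Mathlib
import Pool.Agent.H95.P.R528_RM_Tup
import Pool.Agent.H95.P.R528_RM_GoldQ

set_option autoImplicit false
set_option linter.unusedSectionVars false

/-! # Tuples with uniformity in the shifts: fixed length, sieved models -/

open MeasureTheory Filter Set Polynomial
open scoped ENNReal Topology

namespace Pool.Agent.R528.RM

variable {Ω : Type} {m0 : MeasurableSpace Ω} {μ : Measure Ω} [IsProbabilityMeasure μ]
  {ℱ : Filtration ℕ m0} {A : ℕ → Set Ω}

/-- fixed length -/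
theorem tup_fixed (hA : ∀ n, MeasurableSet[ℱ n] (A n)) (ρ : ℕ → ℝ) (hρ : ∀ n, 0 ≤ ρ n ∧ ρ n ≤ 1)
    (hd : ∀ᵐ ω ∂μ, ∀ ε : ℝ, 0 < ε → ∀ᶠ n : ℕ in atTop, |dens μ ℱ A n ω - ρ (n + 1)| ≤ ε * ρ (n + 1)) :
    ∀ᵐ ω ∂μ, ∀ C k : ℕ, ∀ ε : ℝ, 0 < ε → ∀ᶠ x : ℕ in atTop, ∀ H : Finset ℕ, H ⊆ Finset.range (x ^ C + 1) → H.card = k →
      |TN A ρ x H ∅ ω - TN A ρ x ∅ H ω| ≤ 4 * k * lamT C k x + ε * TN A ρ x ∅ H ω := by
  filter_upwards [tup_law (μ := μ) hA ρ hρ hd] with ω hω C k ε hε
  set ε₁ := min ε 1 with hε₁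
  have h0 : 0 < ε₁ := lt_min hε one_pos
  have h1 : ε₁ ≤ 1 := min_le_right _ _
  have h2 : ε₁ ≤ ε := min_le_left _ _
  set ε' := ε₁ / (2 * (k + 1)) with hε'
  have hk0 : (0 : ℝ) ≤ k := Nat.cast_nonneg k
  have h3 : 0 < ε' := by positivity
  have h4 : ε' ≤ 1 := by
    rw [hε', div_le_one (by positivity)]
    linarith
  have h5 : k * ε' ≤ ε₁ / 2 := by
    rw [hε', mul_div_assoc', div_le_div_iff₀ (by positivity) (by norm_num)]
    nlinarith
  have hup : (1 + ε') ^ k ≤ 1 + ε₁ := by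
    have e1 : (1 + ε') ^ k ≤ Real.exp (k * ε') := by
      have g1 : 1 + ε' ≤ Real.exp ε' := by have := Real.add_one_le_exp ε'; linarith
      calc (1 + ε') ^ k ≤ (Real.exp ε') ^ k := pow_le_pow_left₀ (by linarith) g1 _
        _ = _ := by rw [← Real.exp_nat_mul]
    have g1 : 0 ≤ k * ε' := by positivity
    have e2 := Real.abs_exp_sub_one_le (x := k * ε') (by rw [abs_of_nonneg g1]; linarith)
    rw [abs_of_nonneg g1] at e2
    have e3 := (le_abs_self _).trans e2
    linarith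
  have hlow : 1 - ε₁ ≤ (1 - ε') ^ k := by
    have e1 := one_add_mul_le_pow (show (-2 : ℝ) ≤ -ε' by linarith) k
    have e2 : 1 + (k : ℝ) * -ε' = 1 - k * ε' := by ring
    rw [e2] at e1
    rw [show (1 : ℝ) - ε' = 1 + -ε' by ring]
    linarith
  filter_upwards [hω C ε' h3 h4] with x hx H hH hHk
  have h6 := hx H hH
  rw [hHk] at h6
  have hE := TN_nonneg (A := A) hρ x ∅ H ω
  have hlam : 0 ≤ lamT C k x := Real.sqrt_nonneg _
  set E := TN A ρ x ∅ H ω
  have hkl : 0 ≤ k * (2 * lamT C k x) := by positivity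
  rw [abs_le]
  constructor
  · have g1 : (1 - ε₁) * E ≤ (1 - ε') ^ k * E := mul_le_mul_of_nonneg_right hlow hE
    have g2 : ε₁ * E ≤ ε * E := mul_le_mul_of_nonneg_right h2 hE
    linarith [h6.1]
  · have g1 : (1 + ε') ^ k * (E + k * (2 * lamT C k x)) ≤ (1 + ε₁) * (E + k * (2 * lamT C k x)) :=
      mul_le_mul_of_nonneg_right hup (by linarith)
    have g2 : ε₁ * E ≤ ε * E := mul_le_mul_of_nonneg_right h2 hE
    have g3 : ε₁ * (k * (2 * lamT C k x)) ≤ 1 * (k * (2 * lamT C k x)) := mul_le_mul_of_nonneg_right h1 hkl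
    linarith [h6.2]

/-- uniform averages of the weights -/
lemma bb_avg {c : ℝ} (hc : 0 < c) (k : ℕ) {ε : ℝ} (hε : 0 < ε) : ∀ᶠ x : ℕ in atTop, ∀ H : Finset ℕ,
    H ⊆ Finset.range (x + 1) → H.card = k →
    (∑ n ∈ Finset.range x, |(∏ h ∈ H, bb c (n + 1 + h)) * Real.log x ^ k - c ^ k|) / x ≤ ε := by
  -- choice of η
  obtain ⟨η, hη0, hη1, hη2, hη3⟩ : ∃ η : ℝ, 0 < η ∧ η < 1 ∧ (c / (1 - η)) ^ k ≤ c ^ k + ε / 2 ∧ c ^ k - ε / 2 ≤ (c / (1 + η)) ^ k := by
    have t1 : Tendsto (fun η : ℝ => (c / (1 - η)) ^ k) (𝓝 0) (𝓝 ((c / (1 - 0)) ^ k)) := by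
      have : ContinuousAt (fun η : ℝ => (c / (1 - η)) ^ k) 0 :=
        ContinuousAt.pow (ContinuousAt.div continuousAt_const (by fun_prop) (by norm_num)) k
      exact this.tendsto
    have t2 : Tendsto (fun η : ℝ => (c / (1 + η)) ^ k) (𝓝 0) (𝓝 ((c / (1 + 0)) ^ k)) := by
      have : ContinuousAt (fun η : ℝ => (c / (1 + η)) ^ k) 0 :=
        ContinuousAt.pow (ContinuousAt.div continuousAt_const (by fun_prop) (by norm_num)) k
      exact this.tendsto
    rw [sub_zero, div_one] at t1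
    rw [add_zero, div_one] at t2
    have h1 := (t1.eventually (gt_mem_nhds (show c ^ k < c ^ k + ε / 2 by linarith))).and
      ((t2.eventually (lt_mem_nhds (show c ^ k - ε / 2 < c ^ k by linarith))).and
        (gt_mem_nhds (show (0 : ℝ) < 1 by norm_num)))
    obtain ⟨r, hr, hr1⟩ := Metric.eventually_nhds_iff.1 h1
    have h2 := hr1 (y := r / 2) (by rw [Real.dist_eq, sub_zero, abs_of_pos (by positivity)]; linarith)
    exact ⟨r / 2, by positivity, h2.2.2, h2.1.le, h2.2.1.le⟩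
  have hη' : 0 < 1 - η := by linarith
  have t3 : Tendsto (fun x : ℕ => (x : ℝ) ^ (1 - η)) atTop atTop :=
    (tendsto_rpow_atTop hη').comp tendsto_natCast_atTop_atTop
  have t4 : Tendsto (fun x : ℕ => Real.log (x : ℝ) ^ k / (x : ℝ) ^ η) atTop (𝓝 0) := by
    have h20 : Tendsto (fun x : ℝ => Real.log x ^ k / x ^ η) atTop (𝓝 0) :=
      (isLittleO_log_rpow_rpow_atTop (k : ℝ) hη0).tendsto_div_nhds_zero.congr fun x => by
        rw [Real.rpow_natCast]
    exact h20.comp tendsto_natCast_atTop_atTop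
  have t5 : Tendsto (fun x : ℕ => 1 / (x : ℝ) ^ η) atTop (𝓝 0) :=
    tendsto_const_nhds.div_atTop ((tendsto_rpow_atTop hη0).comp tendsto_natCast_atTop_atTop)
  have t6 : Tendsto (fun x : ℕ => Real.log (x : ℝ) ^ k / (x : ℝ) ^ η + c ^ k * (1 / (x : ℝ) ^ η)) atTop (𝓝 (0 + c ^ k * 0)) :=
    t4.add (t5.const_mul _)
  rw [mul_zero, add_zero] at t6
  have t7 : ∀ᶠ x : ℕ in atTop, Real.log (2 * (x : ℝ) + 1) ≤ (1 + η) * Real.log x := by
    have h1 := tendsto_log.eventually_ge_atTop (Real.log 3 / η)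
    filter_upwards [h1, eventually_ge_atTop 1] with x hx hx1
    have hx1' : (1 : ℝ) ≤ x := by exact_mod_cast hx1
    rw [div_le_iff₀ hη0] at hx
    have h2 : Real.log (2 * (x : ℝ) + 1) ≤ Real.log (3 * x) := Real.log_le_log (by linarith) (by linarith)
    rw [Real.log_mul (by norm_num) (by linarith)] at h2
    linarith
  filter_upwards [t6.eventually (gt_mem_nhds (show (0 : ℝ) < ε / 2 by positivity)), t7,
    t3.eventually_ge_atTop (Real.exp c), t3.eventually_ge_atTop 3, eventually_ge_atTop 3] with x hx1 hx2 hx3 hx4 hx5 H hH hHk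
  have hx5' : (3 : ℝ) ≤ x := by exact_mod_cast hx5
  have hxpos : (0 : ℝ) < x := by linarith
  have hlogx : 0 < Real.log x := Real.log_pos (by linarith)
  set y := (x : ℝ) ^ (1 - η) with hy
  have hyx : y * (x : ℝ) ^ η = x := by
    rw [hy, ← Real.rpow_add hxpos]
    norm_num
  have hxη : 0 < (x : ℝ) ^ η := Real.rpow_pos_of_pos hxpos _
  have hP0 : ∀ n, 0 ≤ ∏ h ∈ H, bb c (n + 1 + h) := fun n => Finset.prod_nonneg fun h _ => bb_nonneg hc.le _
  have hP1 : ∀ n, ∏ h ∈ H, bb c (n + 1 + h) ≤ 1 := fun n => Finset.prod_le_one (fun h _ => bb_nonneg hc.le _) fun h _ => bb_le c _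
  have p1 : ∀ n, |(∏ h ∈ H, bb c (n + 1 + h)) * Real.log x ^ k - c ^ k| ≤ Real.log x ^ k + c ^ k := by
    intro n
    have g1 : (∏ h ∈ H, bb c (n + 1 + h)) * Real.log x ^ k ≤ Real.log x ^ k := mul_le_of_le_one_left (by positivity) (hP1 n)
    have g2 : 0 ≤ (∏ h ∈ H, bb c (n + 1 + h)) * Real.log x ^ k := mul_nonneg (hP0 n) (by positivity)
    have g3 : 0 ≤ c ^ k := by positivity
    have g4 : 0 ≤ Real.log (x : ℝ) ^ k := by positivity
    rw [abs_le]
    constructor <;> linarith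
  have p2 : ∀ n : ℕ, n < x → y ≤ ((n + 1 : ℕ) : ℝ) → |(∏ h ∈ H, bb c (n + 1 + h)) * Real.log x ^ k - c ^ k| ≤ ε / 2 := by
    intro n hn hyn
    have g1 : (∏ h ∈ H, bb c (n + 1 + h)) * Real.log x ^ k = ∏ h ∈ H, (bb c (n + 1 + h) * Real.log x) := by
      rw [Finset.prod_mul_distrib, Finset.prod_const, hHk]
    have g2 : ∀ h ∈ H, c / (1 + η) ≤ bb c (n + 1 + h) * Real.log x ∧ bb c (n + 1 + h) * Real.log x ≤ c / (1 - η) := by
      intro h hh
      have hhx := Finset.mem_range.1 (hH hh)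
      have m1 : y ≤ ((n + 1 + h : ℕ) : ℝ) := hyn.trans (by push_cast; linarith [Nat.cast_nonneg (α := ℝ) h])
      have m2 : ((n + 1 + h : ℕ) : ℝ) ≤ 2 * x + 1 := by
        have : n + 1 + h ≤ 2 * x + 1 := by omega
        exact_mod_cast this
      have m0 : 0 < ((n + 1 + h : ℕ) : ℝ) := by positivity
      have l1 : (1 - η) * Real.log x ≤ Real.log ((n + 1 + h : ℕ) : ℝ) := by
        have := Real.log_le_log (by linarith) m1
        rwa [hy, Real.log_rpow hxpos] at this
      have l2 : Real.log ((n + 1 + h : ℕ) : ℝ) ≤ (1 + η) * Real.log x := (Real.log_le_log m0 m2).trans hx2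
      have l3 : c ≤ Real.log ((n + 1 + h : ℕ) : ℝ) := by
        have := Real.log_le_log (Real.exp_pos c) (hx3.trans m1)
        rwa [Real.log_exp] at this
      have l4 : 0 < Real.log ((n + 1 + h : ℕ) : ℝ) := lt_of_lt_of_le hc l3
      have e1 : bb c (n + 1 + h) = c / Real.log ((n + 1 + h : ℕ) : ℝ) := by
        unfold bb
        exact min_eq_right ((div_le_one l4).2 l3)
      rw [e1, div_mul_eq_mul_div]
      constructor
      · rw [div_le_div_iff₀ (by linarith) l4]
        nlinarith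
      · rw [div_le_div_iff₀ l4 hη']
        nlinarith
    rw [g1]
    have g3 : ∏ h ∈ H, (bb c (n + 1 + h) * Real.log x) ≤ (c / (1 - η)) ^ k := by
      rw [← hHk, ← Finset.prod_const]
      exact Finset.prod_le_prod (fun h hh => (div_pos hc (by linarith)).le.trans (g2 h hh).1) fun h hh => (g2 h hh).2
    have g4 : (c / (1 + η)) ^ k ≤ ∏ h ∈ H, (bb c (n + 1 + h) * Real.log x) := by
      rw [← hHk, ← Finset.prod_const]
      exact Finset.prod_le_prod (fun h hh => (div_pos hc (by linarith)).le) fun h hh => (g2 h hh).1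
    rw [abs_le]
    constructor <;> linarith
  have s1 : ∑ n ∈ Finset.range x, |(∏ h ∈ H, bb c (n + 1 + h)) * Real.log x ^ k - c ^ k| ≤
      ∑ n ∈ Finset.range x, (ε / 2 + if ((n + 1 : ℕ) : ℝ) < y then Real.log x ^ k + c ^ k else 0) := by
    refine Finset.sum_le_sum fun n hn => ?_
    have hnx := Finset.mem_range.1 hn
    split_ifs with h
    · have := p1 n
      linarith
    · have := p2 n hnx (not_lt.1 h)
      linarith
  have s2 : ∑ n ∈ Finset.range x, (ε / 2 + if ((n + 1 : ℕ) : ℝ) < y then Real.log x ^ k + c ^ k else 0) ≤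
      x * (ε / 2) + y * (Real.log x ^ k + c ^ k) := by
    rw [Finset.sum_add_distrib, Finset.sum_const, Finset.card_range, nsmul_eq_mul, ← Finset.sum_filter,
      Finset.sum_const, nsmul_eq_mul]
    have hcard : ((Finset.filter (fun n : ℕ => ((n + 1 : ℕ) : ℝ) < y) (Finset.range x)).card : ℝ) ≤ y := by
      have : Finset.filter (fun n : ℕ => ((n + 1 : ℕ) : ℝ) < y) (Finset.range x) ⊆ Finset.range ⌊y⌋₊ := by
        intro n hn
        rw [Finset.mem_filter] at hn
        rw [Finset.mem_range]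
        exact Nat.lt_of_succ_le (Nat.le_floor hn.2.le)
      have h7 := Finset.card_le_card this
      rw [Finset.card_range] at h7
      have h8 : ((Finset.filter (fun n : ℕ => ((n + 1 : ℕ) : ℝ) < y) (Finset.range x)).card : ℝ) ≤ ⌊y⌋₊ := by exact_mod_cast h7
      exact h8.trans (Nat.floor_le (by linarith))
    have : 0 ≤ Real.log (x : ℝ) ^ k + c ^ k := by positivity
    have h9 := mul_le_mul_of_nonneg_right hcard this
    linarith
  have s3 : y * (Real.log x ^ k + c ^ k) = x * (Real.log (x : ℝ) ^ k / (x : ℝ) ^ η + c ^ k * (1 / (x : ℝ) ^ η)) := by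
    have : y = x / (x : ℝ) ^ η := by rw [eq_div_iff hxη.ne', hyx]
    rw [this]
    field_simp
  rw [div_le_iff₀ hxpos]
  rw [s3] at s2
  have s4 := mul_lt_mul_of_pos_left hx1 hxpos
  nlinarith

/-- the linear forms -/
noncomputable def PH (H : Finset ℕ) : Finset ℤ[X] := by
  classical
  exact H.image (fun h : ℕ => (X + C (h : ℤ) : ℤ[X]))

lemma PH_inj (a b : ℕ) (h : (X + C (a : ℤ) : ℤ[X]) = X + C (b : ℤ)) : a = b := by
  have := congr_arg (fun f => f.coeff 0) h
  simpa using this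

lemma PH_card (H : Finset ℕ) : (PH H).card = H.card := by
  classical
  unfold PH
  exact Finset.card_image_of_injective _ fun a b h => PH_inj a b h

lemma good_PH (H : Finset ℕ) (W n : ℕ) : good (PH H) W n ↔ ∀ h ∈ H, Nat.Coprime (n + h) W := by
  classical
  unfold good PH
  simp only [Finset.mem_image, forall_exists_index, and_imp, forall_apply_eq_imp_iff₂, eval_add, eval_X, eval_C]
  refine forall₂_congr fun h _ => ?_
  rw [← Nat.cast_add, Int.gcd_natCast_natCast]

/-- number of residues modulo `p` occupied by `H` -/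
def occ (H : Finset ℕ) (p : ℕ) : ℕ := (H.image (· % p)).card

lemma omega_PH (H : Finset ℕ) {p : ℕ} (hp : p.Prime) : omegaF (PH H) p = occ H p := by
  classical
  have hpi : Prime (p : ℤ) := Nat.prime_iff_prime_int.1 hp
  have h1 : ∀ r : ℕ, ((p : ℤ) ∣ ∏ f ∈ PH H, f.eval (r : ℤ)) ↔ ∃ h ∈ H, p ∣ r + h := by
    intro r
    rw [hpi.dvd_finsetProd_iff]
    unfold PH
    simp only [Finset.mem_image]
    constructor
    · rintro ⟨f, ⟨h, hh, rfl⟩, hf⟩
      refine ⟨h, hh, ?_⟩
      simp only [eval_add, eval_X, eval_C] at hf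
      exact_mod_cast hf
    · rintro ⟨h, hh, hf⟩
      refine ⟨X + C (h : ℤ), ⟨h, hh, rfl⟩, ?_⟩
      simp only [eval_add, eval_X, eval_C]
      exact_mod_cast hf
  unfold omegaF occ
  simp only [h1]
  have h2 : {r : ℕ | r < p ∧ ∃ h ∈ H, p ∣ r + h} = ↑((Finset.range p).filter (fun r => ∃ h ∈ H, p ∣ r + h)) := by
    ext r
    simp
  rw [h2, Set.ncard_coe_finset]
  refine Finset.card_nbij' (fun r => (p - r) % p) (fun r => (p - r) % p) ?_ ?_ ?_ ?_
  · intro r hr
    simp only [Finset.coe_filter, Finset.mem_range, Set.mem_ofPred_eq] at hr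
    obtain ⟨hr, h, hh, hd⟩ := hr
    show (p - r) % p ∈ ((_ : Finset ℕ) : Set ℕ)
    rw [Finset.mem_coe, Finset.mem_image]
    refine ⟨h, hh, ?_⟩
    have e1 : h ≡ p - r [MOD p] := by
      have e2 : r + h ≡ r + (p - r) [MOD p] := by
        rw [show r + (p - r) = p by omega]
        exact ((Nat.modEq_zero_iff_dvd).2 hd).trans (Nat.modEq_zero_iff_dvd.2 dvd_rfl).symm
      exact Nat.ModEq.add_left_cancel' r e2
    exact e1
  · intro r hr
    rw [Finset.mem_coe, Finset.mem_image] at hr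
    obtain ⟨h, hh, rfl⟩ := hr
    show (p - h % p) % p ∈ ((_ : Finset ℕ) : Set ℕ)
    rw [Finset.mem_coe, Finset.mem_filter, Finset.mem_range]
    refine ⟨Nat.mod_lt _ hp.pos, h, hh, ?_⟩
    have hlt := Nat.mod_lt h hp.pos
    apply (Nat.modEq_zero_iff_dvd).1
    calc (p - h % p) % p + h ≡ (p - h % p) + h % p [MOD p] :=
          Nat.ModEq.add (Nat.mod_modEq _ _) (Nat.mod_modEq _ _).symm
      _ = p := by omega
      _ ≡ 0 [MOD p] := Nat.modEq_zero_iff_dvd.2 dvd_rfl
  · intro r hr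
    simp only [Finset.coe_filter, Finset.mem_range, Set.mem_ofPred_eq] at hr
    show (p - (p - r) % p) % p = r
    rcases Nat.eq_zero_or_pos r with h0 | h0
    · subst h0
      simp
    · rw [Nat.mod_eq_of_lt (show p - r < p by omega), show p - (p - r) = r by omega, Nat.mod_eq_of_lt hr.1]
  · intro r hr
    rw [Finset.mem_coe, Finset.mem_image] at hr
    obtain ⟨h, hh, rfl⟩ := hr
    have hlt := Nat.mod_lt h hp.pos
    show (p - (p - h % p) % p) % p = h % p
    rcases Nat.eq_zero_or_pos (h % p) with h0 | h0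
    · rw [h0]
      simp
    · rw [Nat.mod_eq_of_lt (show p - h % p < p by omega), show p - (p - h % p) = h % p by omega, Nat.mod_mod]

/-- the local factors at `Q` -/
noncomputable def singH (Q : Finset ℕ) (H : Finset ℕ) : ℝ :=
  ∏ p ∈ Q, (1 - (occ H p : ℝ) / p) / (1 - 1 / (p : ℝ)) ^ H.card

lemma singH_eq (Q : Finset ℕ) (hQ : ∀ p ∈ Q, p.Prime) (H : Finset ℕ) :
    ((Nat.count (good (PH H) (∏ p ∈ Q, p)) (∏ p ∈ Q, p) : ℝ) / ((∏ p ∈ Q, p : ℕ) : ℝ)) *
      (((∏ p ∈ Q, p : ℕ) : ℝ) / Nat.totient (∏ p ∈ Q, p)) ^ H.card = singH Q H := by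
  have h1 := const_prod (PH H) Q hQ
  rw [PH_card] at h1
  rw [h1]
  unfold singH
  refine Finset.prod_congr rfl fun p hp => ?_
  have h4 := omega_good (PH H) (hQ p hp)
  have h5 : (Nat.count (good (PH H) p) p : ℝ) + omegaF (PH H) p = p := by exact_mod_cast h4
  have h6 : (0 : ℝ) < p := by exact_mod_cast (hQ p hp).pos
  have h7 : (Nat.count (good (PH H) p) p : ℝ) / p = 1 - (omegaF (PH H) p : ℝ) / p := by
    field_simp
    linarith
  rw [h7, inv_pow, omega_PH H (hQ p hp)]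
  exact (div_eq_mul_inv _ _).symm

/-- the expected size in the sieved model, uniformly in the shifts -/
lemma TNE_asymp (Q : Finset ℕ) (hQ : ∀ p ∈ Q, p.Prime) (k : ℕ) {ε : ℝ} (hε : 0 < ε) :
    ∀ᶠ x : ℕ in atTop, ∀ H : Finset ℕ, H ⊆ Finset.range (x + 1) → H.card = k → ∀ ω : Ω,
      |TN A (rhoW (∏ p ∈ Q, p)) x ∅ H ω * Real.log x ^ k / x - singH Q H| ≤ ε := by
  classical
  set W := ∏ p ∈ Q, p with hWdef
  have hW : 0 < W := Finset.prod_pos fun q hq => (hQ q hq).pos
  set c := (W : ℝ) / Nat.totient W with hc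
  have hcpos : 0 < c := div_pos (by exact_mod_cast hW) (by exact_mod_cast Nat.totient_pos.2 hW)
  have t1 : Tendsto (fun x : ℕ => c ^ k * ((2 * W + 2 : ℝ) / x)) atTop (𝓝 0) := by
    have := (tendsto_const_nhds (x := (2 * W + 2 : ℝ))).div_atTop (tendsto_natCast_atTop_atTop (R := ℝ))
    have h3 := this.const_mul (c ^ k)
    rwa [mul_zero] at h3
  filter_upwards [bb_avg hcpos k (show (0 : ℝ) < ε / 2 by positivity), t1.eventually (gt_mem_nhds (show (0 : ℝ) < ε / 2 by positivity)),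
    eventually_gt_atTop 0] with x hx1 hx2 hx3 H hH hHk ω
  have hx' : (0 : ℝ) < x := by exact_mod_cast hx3
  set a : ℕ → ℝ := fun n => if good (PH H) W (n + 1) then 1 else 0 with ha
  have e1 : TN A (rhoW W) x ∅ H ω = ∑ n ∈ Finset.range x, a n * ∏ h ∈ H, bb c (n + 1 + h) := by
    unfold TN
    refine Finset.sum_congr rfl fun n _ => ?_
    rw [Finset.prod_empty, one_mul]
    simp only [ha]
    by_cases h : good (PH H) W (n + 1)
    · have h4 := (good_PH H W (n + 1)).1 h
      rw [if_pos h, one_mul]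
      refine Finset.prod_congr rfl fun h hh => ?_
      unfold rhoW bb
      rw [if_pos (h4 h hh)]
    · rw [if_neg h, zero_mul]
      rw [good_PH] at h
      push Not at h
      obtain ⟨h, hh, hn⟩ := h
      refine Finset.prod_eq_zero hh ?_
      unfold rhoW
      rw [if_neg hn]
  have e2 : |∑ n ∈ Finset.range x, a n - (Nat.count (good (PH H) W) (x + 1) : ℝ)| ≤ 1 := by
    have h1 : (Nat.count (good (PH H) W) (x + 1) : ℝ) = ∑ n ∈ Finset.range (x + 1), (if good (PH H) W n then (1 : ℝ) else 0) := by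
      rw [Finset.sum_boole, Nat.count_eq_card_filter_range]
    rw [h1, Finset.sum_range_succ']
    simp only [ha]
    rw [show ∀ s t : ℝ, s - (s + t) = -t by intro s t; ring, abs_neg]
    split_ifs <;> simp
  have e3 := count_periodic (good (PH H) W) W hW (good_periodic (PH H) W) (x + 1)
  have e4 : singH Q H = (Nat.count (good (PH H) W) W : ℝ) / W * c ^ k := by
    rw [← hHk]
    exact (singH_eq Q hQ H).symm
  set d := (Nat.count (good (PH H) W) W : ℝ) / W with hd
  have hd0 : 0 ≤ d := by positivity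
  have hd1 : d ≤ 1 := by
    rw [hd, div_le_one (by exact_mod_cast hW)]
    exact_mod_cast Nat.count_le _ (n := W)
  have e5 : TN A (rhoW W) x ∅ H ω * Real.log x ^ k / x - singH Q H =
      (∑ n ∈ Finset.range x, a n * ((∏ h ∈ H, bb c (n + 1 + h)) * Real.log x ^ k - c ^ k)) / x +
      c ^ k * ((∑ n ∈ Finset.range x, a n - x * d) / x) := by
    have e6 : ∑ n ∈ Finset.range x, a n * ((∏ h ∈ H, bb c (n + 1 + h)) * Real.log x ^ k - c ^ k) =
        TN A (rhoW W) x ∅ H ω * Real.log x ^ k - (∑ n ∈ Finset.range x, a n) * c ^ k := by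
      rw [e1, Finset.sum_mul, Finset.sum_mul, ← Finset.sum_sub_distrib]
      refine Finset.sum_congr rfl fun j _ => ?_
      ring
    rw [e6, e4]
    field_simp
    ring
  rw [e5]
  have f1 : |(∑ n ∈ Finset.range x, a n * ((∏ h ∈ H, bb c (n + 1 + h)) * Real.log x ^ k - c ^ k)) / x| ≤ ε / 2 := by
    refine le_trans ?_ (hx1 H hH hHk)
    rw [abs_div, abs_of_pos hx']
    apply div_le_div_of_nonneg_right _ hx'.le
    refine (Finset.abs_sum_le_sum_abs _ _).trans (Finset.sum_le_sum fun j _ => ?_)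
    rw [abs_mul]
    refine mul_le_of_le_one_left (abs_nonneg _) ?_
    simp only [ha]
    split_ifs <;> simp
  have f2 : |c ^ k * ((∑ n ∈ Finset.range x, a n - x * d) / x)| ≤ c ^ k * ((2 * W + 2 : ℝ) / x) := by
    rw [abs_mul, abs_of_nonneg (show 0 ≤ c ^ k by positivity), abs_div, abs_of_pos hx']
    apply mul_le_mul_of_nonneg_left _ (by positivity)
    apply div_le_div_of_nonneg_right _ hx'.le
    have e7 := abs_le.1 e3
    have e8 := abs_le.1 e2
    have hW' : (0 : ℝ) < W := by exact_mod_cast hW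
    push_cast at e7
    rw [abs_le]
    constructor <;> nlinarith [e7.1, e7.2, e8.1, e8.2]
  refine (abs_add_le _ _).trans ?_
  linarith

/-- uniform law in the sieved models -/
theorem tup_sieved (hA : ∀ n, MeasurableSet[ℱ n] (A n)) (Q : Finset ℕ) (hQ : ∀ p ∈ Q, p.Prime)
    (hcop : ∀ n, (∃ p ∈ Q, p ∣ n) → A n = ∅)
    (hd : ∀ᵐ ω ∂μ, Tendsto (fun n : ℕ => dens μ ℱ A n ω * Real.log n)
      (atTop ⊓ 𝓟 {n : ℕ | ∀ p ∈ Q, ¬ p ∣ n + 1}) (𝓝 (∏ p ∈ Q, (1 - 1 / (p : ℝ))⁻¹))) :
    ∀ᵐ ω ∂μ, ∀ k : ℕ, ∀ ε : ℝ, 0 < ε → ∀ᶠ x : ℕ in atTop, ∀ H : Finset ℕ, H ⊆ Finset.range (x + 1) → H.card = k →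
      |TN A (rhoW (∏ p ∈ Q, p)) x H ∅ ω * Real.log x ^ k / x - singH Q H| ≤ ε := by
  classical
  set W := ∏ p ∈ Q, p with hWdef
  have hW : 0 < W := Finset.prod_pos fun q hq => (hQ q hq).pos
  have hc : ∀ n, Nat.Coprime n W ↔ ∀ p ∈ Q, ¬ p ∣ n := by
    intro n
    rw [hWdef, Nat.coprime_prod_right_iff]
    refine forall₂_congr fun p hp => ?_
    rw [Nat.coprime_comm]
    exact Nat.Prime.coprime_iff_not_dvd (hQ p hp)
  have hprof := dens_profile (μ := μ) hA W hW (fun n hn => hcop n (by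
    rw [hc] at hn
    push Not at hn
    exact hn)) (by
    rw [totient_prod Q hQ]
    simp_rw [hc]
    exact hd)
  have hρ : ∀ n, 0 ≤ rhoW W n ∧ rhoW W n ≤ 1 := fun n => ⟨rhoW_nonneg W n, rhoW_le W n⟩
  filter_upwards [tup_fixed (μ := μ) hA (rhoW W) hρ hprof] with ω hω k ε hε
  -- boundedness of the local factor
  obtain ⟨K, hK0, hK⟩ : ∃ K : ℝ, 0 ≤ K ∧ ∀ H : Finset ℕ, H.card = k → |singH Q H| ≤ K := by
    refine ⟨∏ p ∈ Q, 1 / (1 - 1 / (p : ℝ)) ^ k, ?_, fun H hH => ?_⟩
    · refine Finset.prod_nonneg fun p hp => ?_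
      have hp2 : (2 : ℝ) ≤ p := by exact_mod_cast (hQ p hp).two_le
      have : 1 / (p : ℝ) ≤ 1 / 2 := one_div_le_one_div_of_le (by norm_num) hp2
      have : 0 < 1 - 1 / (p : ℝ) := by linarith
      positivity
    · unfold singH
      rw [Finset.abs_prod]
      apply Finset.prod_le_prod (fun _ _ => abs_nonneg _)
      intro p hp
      have hp2 : (2 : ℝ) ≤ p := by exact_mod_cast (hQ p hp).two_le
      have e1 : 0 < (1 - 1 / (p : ℝ)) ^ k := by
        have : 1 / (p : ℝ) ≤ 1 / 2 := one_div_le_one_div_of_le (by norm_num) hp2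
        have : 0 < 1 - 1 / (p : ℝ) := by linarith
        positivity
      rw [hH, abs_div, abs_of_pos e1]
      apply div_le_div_of_nonneg_right _ e1.le
      have e2 : (0 : ℝ) ≤ (occ H p : ℝ) / p := by positivity
      have e3 : (occ H p : ℝ) / p ≤ 1 := by
        rw [div_le_one (by linarith)]
        have : occ H p ≤ p := by
          unfold occ
          have h1 : H.image (· % p) ⊆ Finset.range p := by
            intro r hr
            obtain ⟨h, _, rfl⟩ := Finset.mem_image.1 hr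
            exact Finset.mem_range.2 (Nat.mod_lt _ (hQ p hp).pos)
          have h2 := Finset.card_le_card h1
          rwa [Finset.card_range] at h2
        exact_mod_cast this
      rw [abs_le]
      constructor <;> linarith
  have t1 : Tendsto (fun x : ℕ => 4 * k * lamT 1 k x * Real.log x ^ k / x) atTop (𝓝 0) := by
    have h6 : Tendsto (fun x : ℝ => 4 * k * √(16 * k) * (Real.log x ^ ((k : ℝ) + 1 / 2) / x ^ (1 / 2 : ℝ))) atTop (𝓝 (4 * k * √(16 * k) * 0)) :=
      ((isLittleO_log_rpow_rpow_atTop ((k : ℝ) + 1 / 2) (by norm_num : (0 : ℝ) < 1 / 2)).tendsto_div_nhds_zero).const_mul _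
    rw [mul_zero] at h6
    refine (h6.comp tendsto_natCast_atTop_atTop).congr' ?_
    filter_upwards [eventually_gt_atTop 1] with n hn
    have hn' : (1 : ℝ) < n := by exact_mod_cast hn
    have hL : 0 < Real.log (n : ℝ) := Real.log_pos hn'
    simp only [Function.comp_apply]
    unfold lamT
    have e0 : √(8 * ((1 : ℕ) + 1) * k * (n * Real.log n)) = √(16 * k) * √(n * Real.log n) := by
      rw [← Real.sqrt_mul (by positivity)]
      congr 1
      push_cast
      ring
    have e2 : (n : ℝ) = (n : ℝ) ^ (1 / 2 : ℝ) * (n : ℝ) ^ (1 / 2 : ℝ) := by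
      rw [← Real.rpow_add (by linarith)]
      norm_num
    have e1 : Real.log (n : ℝ) ^ ((k : ℝ) + 1 / 2) = Real.log n ^ k * Real.log n ^ (1 / 2 : ℝ) := by
      rw [Real.rpow_add hL, Real.rpow_natCast]
    have e3 : (n : ℝ) ^ (1 / 2 : ℝ) ≠ 0 := (Real.rpow_pos_of_pos (by linarith) _).ne'
    rw [e0, Real.sqrt_eq_rpow (n * Real.log n), Real.mul_rpow (by linarith) hL.le, e1]
    have e5 : 4 * (k : ℝ) * (√(16 * k) * ((n : ℝ) ^ (1 / 2 : ℝ) * Real.log n ^ (1 / 2 : ℝ))) * Real.log n ^ k / n =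
        4 * (k : ℝ) * (√(16 * k) * ((n : ℝ) ^ (1 / 2 : ℝ) * Real.log n ^ (1 / 2 : ℝ))) * Real.log n ^ k / ((n : ℝ) ^ (1 / 2 : ℝ) * (n : ℝ) ^ (1 / 2 : ℝ)) := by
      rw [← e2]
    rw [e5]
    field_simp
  filter_upwards [hω 1 k (ε / (4 * (K + 1))) (by positivity), TNE_asymp (A := A) Q hQ k (show (0 : ℝ) < min 1 (ε / 4) by positivity),
    t1.eventually (gt_mem_nhds (show (0 : ℝ) < ε / 4 by positivity)), eventually_gt_atTop 1] with x hx1 hx2 hx3 hx4 H hH hHk
  have hx' : (1 : ℝ) < x := by exact_mod_cast hx4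
  have g1 := hx1 H (by simpa using hH) hHk
  have g2 := hx2 H hH hHk ω
  rw [← hWdef] at g2
  set E := TN A (rhoW W) x ∅ H ω with hE
  set T := TN A (rhoW W) x H ∅ ω with hT
  have hlk : 0 ≤ Real.log (x : ℝ) ^ k := by
    have := Real.log_natCast_nonneg x
    positivity
  have g3 : E * Real.log x ^ k / x ≤ K + 1 := by
    have h1 := (abs_le.1 g2).2
    have h2 := (abs_le.1 (hK H hHk)).2
    have h3 := min_le_left 1 (ε / 4)
    linarith
  have g4 : |T * Real.log x ^ k / x - E * Real.log x ^ k / x| ≤ ε / 2 := by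
    rw [← sub_div, ← sub_mul, abs_div, abs_mul, abs_of_nonneg hlk, abs_of_pos (show (0 : ℝ) < x by linarith)]
    calc |T - E| * Real.log x ^ k / x ≤ (4 * k * lamT 1 k x + ε / (4 * (K + 1)) * E) * Real.log x ^ k / x := by
          apply div_le_div_of_nonneg_right _ (by linarith)
          exact mul_le_mul_of_nonneg_right g1 hlk
      _ = 4 * k * lamT 1 k x * Real.log x ^ k / x + ε / (4 * (K + 1)) * (E * Real.log x ^ k / x) := by ring
      _ ≤ ε / 4 + ε / (4 * (K + 1)) * (K + 1) := by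
          have := mul_le_mul_of_nonneg_left g3 (show 0 ≤ ε / (4 * (K + 1)) by positivity)
          linarith
      _ = ε / 2 := by
          field_simp
          ring
  have g5 : |E * Real.log x ^ k / x - singH Q H| ≤ ε / 4 := g2.trans (min_le_right _ _)
  calc |T * Real.log x ^ k / x - singH Q H| ≤ |T * Real.log x ^ k / x - E * Real.log x ^ k / x| + |E * Real.log x ^ k / x - singH Q H| :=
        abs_sub_le _ _ _
    _ ≤ ε := by linarith

end Pool.Agent.R528.RM
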