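import Mathlib
import Pool.Agent.H95.P.R528_RM_TupQ

set_option autoImplicit false
set_option linter.unusedSectionVars false

/-! # A multiplicative exponential inequality for predictable sums along increasing sequences -/

open MeasureTheory Filter Set
open scoped ENNReal Topology

namespace Pool.Agent.N893.SM

open Pool.Agent.R528.RM

variable {Ω : Type} {m0 : MeasurableSpace Ω} {μ : Measure Ω} [IsProbabilityMeasure μ]
  {ℱ : Filtration ℕ m0} {A : ℕ → Set Ω}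

/-- the exponent -/
noncomputable def Gx (μ : Measure Ω) (ℱ : Filtration ℕ m0) (A : ℕ → Set Ω) (θ : ℝ) (v : ℕ → ℕ) (w : ℕ → Ω → ℝ)
    (M : ℕ) (ω : Ω) : ℝ :=
  ∑ k ∈ Finset.range M, w k ω * (θ * In A (v k) ω - (Real.exp θ - 1) * dens μ ℱ A (v k - 1) ω)

lemma Gx_meas (hA : ∀ n, MeasurableSet[ℱ n] (A n)) (θ : ℝ) {v : ℕ → ℕ} (hv : StrictMono v) {w : ℕ → Ω → ℝ}
    (hw : ∀ k, StronglyMeasurable[ℱ (v k - 1)] (w k)) (M : ℕ) :
    StronglyMeasurable[ℱ (v M - 1)] (Gx μ ℱ A θ v w M) := by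
  have h1 : Gx μ ℱ A θ v w M = ∑ k ∈ Finset.range M, (fun ω => w k ω * (θ * In A (v k) ω - (Real.exp θ - 1) * dens μ ℱ A (v k - 1) ω)) := by
    funext ω
    simp [Gx]
  rw [h1]
  refine Finset.stronglyMeasurable_sum _ fun k hk => ?_
  have hk' := hv (Finset.mem_range.1 hk)
  have h2 : StronglyMeasurable[ℱ (v M - 1)] (w k) := (hw k).mono (ℱ.mono (by omega))
  have h3 : StronglyMeasurable[ℱ (v M - 1)] (In A (v k)) := In_meas hA (by omega)
  have h4 : StronglyMeasurable[ℱ (v M - 1)] (dens μ ℱ A (v k - 1)) := (dens_meas _).mono (ℱ.mono (by omega))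
  have h5 : StronglyMeasurable[ℱ (v M - 1)] (fun ω => θ * In A (v k) ω) := h3.const_mul θ
  have h6 : StronglyMeasurable[ℱ (v M - 1)] (fun ω => (Real.exp θ - 1) * dens μ ℱ A (v k - 1) ω) := h4.const_mul _
  have h7 : StronglyMeasurable[ℱ (v M - 1)] (fun ω => θ * In A (v k) ω - (Real.exp θ - 1) * dens μ ℱ A (v k - 1) ω) :=
    @StronglyMeasurable.sub _ _ _ _ (ℱ (v M - 1)) _ _ _ h5 h6
  exact @StronglyMeasurable.mul _ _ _ _ (ℱ (v M - 1)) _ _ _ h2 h7

lemma Gx_bound (hA : ∀ n, MeasurableSet[ℱ n] (A n)) (θ : ℝ) (v : ℕ → ℕ) {w : ℕ → Ω → ℝ}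
    (hw1 : ∀ k ω, 0 ≤ w k ω ∧ w k ω ≤ 1) (M : ℕ) :
    ∀ᵐ ω ∂μ, |Gx μ ℱ A θ v w M ω| ≤ M * (|θ| + |Real.exp θ - 1|) := by
  have h1 : ∀ᵐ ω ∂μ, ∀ n, 0 ≤ dens μ ℱ A n ω ∧ dens μ ℱ A n ω ≤ 1 := ae_all_iff.2 fun n => dens01 hA n
  filter_upwards [h1] with ω hω
  unfold Gx
  refine (Finset.abs_sum_le_sum_abs _ _).trans ?_
  refine (Finset.sum_le_card_nsmul _ _ (|θ| + |Real.exp θ - 1|) fun k _ => ?_).trans
    (by rw [Finset.card_range, nsmul_eq_mul])
  rw [abs_mul, abs_of_nonneg (hw1 k ω).1]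
  have h2 := hω (v k - 1)
  have h3 : |θ * In A (v k) ω - (Real.exp θ - 1) * dens μ ℱ A (v k - 1) ω| ≤ |θ| + |Real.exp θ - 1| := by
    refine (abs_sub _ _).trans (add_le_add ?_ ?_)
    · rw [abs_mul, abs_of_nonneg (In_nonneg (A := A) _ _)]
      exact mul_le_of_le_one_right (abs_nonneg _) (In_le _ _)
    · rw [abs_mul, abs_of_nonneg h2.1]
      exact mul_le_of_le_one_right (abs_nonneg _) h2.2
  calc w k ω * |θ * In A (v k) ω - (Real.exp θ - 1) * dens μ ℱ A (v k - 1) ω| ≤ 1 * (|θ| + |Real.exp θ - 1|) :=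
        mul_le_mul (hw1 k ω).2 h3 (abs_nonneg _) zero_le_one
    _ = _ := one_mul _

lemma exp_convex (θ : ℝ) {w : ℝ} (h0 : 0 ≤ w) (h1 : w ≤ 1) : Real.exp (θ * w) ≤ 1 + w * (Real.exp θ - 1) := by
  have h := convexOn_exp.2 (mem_univ (0 : ℝ)) (mem_univ θ) (show (0 : ℝ) ≤ 1 - w by linarith) h0 (by ring)
  simp only [smul_eq_mul, mul_zero, zero_add, Real.exp_zero, mul_one] at h
  rw [mul_comm w θ] at h
  linarith

theorem Gx_mgf (hA : ∀ n, MeasurableSet[ℱ n] (A n)) (θ : ℝ) {v : ℕ → ℕ} (hv : StrictMono v) (hv1 : ∀ n, 1 ≤ v n)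
    {w : ℕ → Ω → ℝ} (hw : ∀ k, StronglyMeasurable[ℱ (v k - 1)] (w k)) (hw1 : ∀ k ω, 0 ≤ w k ω ∧ w k ω ≤ 1) (M : ℕ) :
    Integrable (fun ω => Real.exp (Gx μ ℱ A θ v w M ω)) μ ∧ ∫ ω, Real.exp (Gx μ ℱ A θ v w M ω) ∂μ ≤ 1 := by
  have hint : ∀ M, Integrable (fun ω => Real.exp (Gx μ ℱ A θ v w M ω)) μ := by
    intro M
    have hm : AEStronglyMeasurable (fun ω => Real.exp (Gx μ ℱ A θ v w M ω)) μ :=
      Real.continuous_exp.comp_aestronglyMeasurable
        (((Gx_meas (μ := μ) hA θ hv hw M).mono (ℱ.le _)).aestronglyMeasurable)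
    refine Integrable.of_bound hm (Real.exp (M * (|θ| + |Real.exp θ - 1|))) ?_
    filter_upwards [Gx_bound (μ := μ) (ℱ := ℱ) hA θ v hw1 M] with ω hω
    rw [Real.norm_eq_abs, abs_of_pos (Real.exp_pos _)]
    exact Real.exp_le_exp.2 ((le_abs_self _).trans hω)
  refine ⟨hint M, ?_⟩
  induction M with
  | zero => simp [Gx]
  | succ M ih =>
    set D := dens μ ℱ A (v M - 1) with hD
    set I := In A (v M) with hI
    set c : ℝ := Real.exp θ - 1 with hc
    set B : ℝ := Real.exp (M * (|θ| + |c|)) with hB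
    set E : Ω → ℝ := fun ω => Real.exp (Gx μ ℱ A θ v w M ω) with hE
    set F : Ω → ℝ := fun ω => E ω * Real.exp (-(c * (w M ω * D ω))) with hF
    have hs : ∀ ω, Gx μ ℱ A θ v w (M + 1) ω = Gx μ ℱ A θ v w M ω + w M ω * (θ * I ω - c * D ω) := by
      intro ω
      unfold Gx
      rw [Finset.sum_range_succ]
    have h01 := dens01 (μ := μ) (ℱ := ℱ) hA (v M - 1)
    have hpt : ∀ ω, Real.exp (Gx μ ℱ A θ v w (M + 1) ω) ≤ F ω + (F ω * (c * w M ω)) * I ω := by
      intro ω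
      have hI01 : I ω = 0 ∨ I ω = 1 := by
        simp only [hI, In]
        by_cases h : ω ∈ A (v M)
        · right; rw [indicator_of_mem h]
        · left; rw [indicator_of_notMem h]
      have h3 : Real.exp (w M ω * (θ * I ω)) ≤ 1 + c * w M ω * I ω := by
        rcases hI01 with h | h
        · rw [h]; simp
        · rw [h, mul_one, mul_one, mul_comm (w M ω) θ, mul_comm c]
          exact exp_convex θ (hw1 M ω).1 (hw1 M ω).2
      rw [hs, show Gx μ ℱ A θ v w M ω + w M ω * (θ * I ω - c * D ω) =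
        (Gx μ ℱ A θ v w M ω + -(c * (w M ω * D ω))) + w M ω * (θ * I ω) by ring, Real.exp_add, Real.exp_add]
      calc Real.exp (Gx μ ℱ A θ v w M ω) * Real.exp (-(c * (w M ω * D ω))) * Real.exp (w M ω * (θ * I ω)) ≤
          Real.exp (Gx μ ℱ A θ v w M ω) * Real.exp (-(c * (w M ω * D ω))) * (1 + c * w M ω * I ω) :=
            mul_le_mul_of_nonneg_left h3 (by positivity)
        _ = _ := by simp only [hF, hE]; ring
    -- measurability
    have hEm : StronglyMeasurable[ℱ (v M - 1)] E :=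
      Real.continuous_exp.comp_stronglyMeasurable (Gx_meas (μ := μ) hA θ hv hw M)
    have hDm : StronglyMeasurable[ℱ (v M - 1)] D := dens_meas _
    have hwD : StronglyMeasurable[ℱ (v M - 1)] (fun ω => w M ω * D ω) :=
      @StronglyMeasurable.mul _ _ _ _ (ℱ (v M - 1)) _ _ _ (hw M) hDm
    have hexpm : StronglyMeasurable[ℱ (v M - 1)] (fun ω => Real.exp (-(c * (w M ω * D ω)))) :=
      Real.continuous_exp.comp_stronglyMeasurable ((hwD.const_mul c).neg)
    have hFm : StronglyMeasurable[ℱ (v M - 1)] F :=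
      @StronglyMeasurable.mul _ _ _ _ (ℱ (v M - 1)) _ _ _ hEm hexpm
    have hfm : StronglyMeasurable[ℱ (v M - 1)] (fun ω => F ω * (c * w M ω)) :=
      @StronglyMeasurable.mul _ _ _ _ (ℱ (v M - 1)) _ _ _ hFm ((hw M).const_mul c)
    have hFb : ∀ᵐ ω ∂μ, ‖F ω‖ ≤ B * Real.exp |c| := by
      filter_upwards [Gx_bound (μ := μ) (ℱ := ℱ) hA θ v hw1 M, h01] with ω hω h2
      simp only [hF]
      rw [norm_mul]
      refine mul_le_mul ?_ ?_ (norm_nonneg _) (Real.exp_pos _).le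
      · simp only [hE]
        rw [Real.norm_eq_abs, abs_of_pos (Real.exp_pos _)]
        exact Real.exp_le_exp.2 ((le_abs_self _).trans hω)
      · rw [Real.norm_eq_abs, abs_of_pos (Real.exp_pos _)]
        refine Real.exp_le_exp.2 ((le_abs_self _).trans ?_)
        rw [abs_neg, abs_mul]
        refine mul_le_of_le_one_right (abs_nonneg _) ?_
        rw [abs_mul, abs_of_nonneg (hw1 M ω).1, abs_of_nonneg h2.1]
        exact mul_le_one₀ (hw1 M ω).2 h2.1 h2.2
    have hB0 : 0 ≤ B * Real.exp |c| := by positivity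
    have hfb : ∀ᵐ ω ∂μ, ‖F ω * (c * w M ω)‖ ≤ B * Real.exp |c| * |c| := by
      filter_upwards [hFb] with ω hω
      rw [norm_mul]
      refine mul_le_mul hω ?_ (norm_nonneg _) hB0
      rw [Real.norm_eq_abs, abs_mul, abs_of_nonneg (hw1 M ω).1]
      exact mul_le_of_le_one_right (abs_nonneg _) (hw1 M ω).2
    have hvM : v M - 1 + 1 = v M := by have := hv1 M; omega
    have hpull := pull_A (μ := μ) hA (v M - 1) hfm (B * Real.exp |c| * |c|) hfb
    rw [hvM] at hpull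
    have hFam : AEStronglyMeasurable F μ := (hFm.mono (ℱ.le _)).aestronglyMeasurable
    have hfam : AEStronglyMeasurable (fun ω => F ω * (c * w M ω)) μ := (hfm.mono (ℱ.le _)).aestronglyMeasurable
    have hIam : AEStronglyMeasurable I μ :=
      ((stronglyMeasurable_const.indicator (ℱ.le _ _ (hA (v M))))).aestronglyMeasurable
    have hDam : AEStronglyMeasurable D μ := ((dens_meas (v M - 1)).mono (ℱ.le _)).aestronglyMeasurable
    have i0 : Integrable F μ := Integrable.of_bound hFam _ hFb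
    have i1 : Integrable (fun ω => F ω * (c * w M ω) * I ω) μ := by
      refine Integrable.of_bound (hfam.mul hIam) (B * Real.exp |c| * |c|) ?_
      filter_upwards [hfb] with ω hω
      rw [norm_mul]
      have hI1 : ‖I ω‖ ≤ 1 := by
        rw [Real.norm_eq_abs, abs_of_nonneg (In_nonneg _ _)]
        exact In_le _ _
      calc _ ≤ (B * Real.exp |c| * |c|) * 1 := mul_le_mul hω hI1 (norm_nonneg _) (by positivity)
        _ = _ := mul_one _
    have i2 : Integrable (fun ω => F ω * (c * w M ω) * D ω) μ := by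
      refine Integrable.of_bound (hfam.mul hDam) (B * Real.exp |c| * |c|) ?_
      filter_upwards [hfb, h01] with ω hω h2
      rw [norm_mul]
      have hD1 : ‖D ω‖ ≤ 1 := by
        rw [Real.norm_eq_abs, abs_of_nonneg h2.1]
        exact h2.2
      calc _ ≤ (B * Real.exp |c| * |c|) * 1 := mul_le_mul hω hD1 (norm_nonneg _) (by positivity)
        _ = _ := mul_one _
    have h5 := integral_mono (hint (M + 1)) (i0.add i1) hpt
    have h6 : ∫ ω, (F + fun ω => F ω * (c * w M ω) * I ω) ω ∂μ = ∫ ω, (F + fun ω => F ω * (c * w M ω) * D ω) ω ∂μ := by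
      simp only [Pi.add_apply]
      rw [integral_add i0 i1, integral_add i0 i2]
      congr 1
    have h7 : ∫ ω, (F + fun ω => F ω * (c * w M ω) * D ω) ω ∂μ ≤ ∫ ω, E ω ∂μ := by
      refine integral_mono (i0.add i2) (hint M) fun ω => ?_
      simp only [Pi.add_apply, hF]
      have h8 : 1 + c * (w M ω * D ω) ≤ Real.exp (c * (w M ω * D ω)) := by
        have := Real.add_one_le_exp (c * (w M ω * D ω))
        linarith
      calc E ω * Real.exp (-(c * (w M ω * D ω))) + E ω * Real.exp (-(c * (w M ω * D ω))) * (c * w M ω) * D ω =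
          E ω * Real.exp (-(c * (w M ω * D ω))) * (1 + c * (w M ω * D ω)) := by ring
        _ ≤ E ω * Real.exp (-(c * (w M ω * D ω))) * Real.exp (c * (w M ω * D ω)) :=
          mul_le_mul_of_nonneg_left h8 (by positivity)
        _ = E ω := by
          rw [mul_assoc, ← Real.exp_add, neg_add_cancel, Real.exp_zero, mul_one]
    calc ∫ ω, Real.exp (Gx μ ℱ A θ v w (M + 1) ω) ∂μ ≤ ∫ ω, (F + fun ω => F ω * (c * w M ω) * I ω) ω ∂μ := h5
      _ = _ := h6
      _ ≤ _ := h7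
      _ ≤ 1 := ih

/-- the tail -/
theorem Gx_tail (hA : ∀ n, MeasurableSet[ℱ n] (A n)) (θ : ℝ) {v : ℕ → ℕ} (hv : StrictMono v) (hv1 : ∀ n, 1 ≤ v n)
    {w : ℕ → Ω → ℝ} (hw : ∀ k, StronglyMeasurable[ℱ (v k - 1)] (w k)) (hw1 : ∀ k ω, 0 ≤ w k ω ∧ w k ω ≤ 1) (M : ℕ) (t : ℝ) :
    μ.real {ω | t ≤ Gx μ ℱ A θ v w M ω} ≤ Real.exp (-t) := by
  obtain ⟨hint, h1⟩ := Gx_mgf (μ := μ) hA θ hv hv1 hw hw1 M
  have h2 := mul_meas_ge_le_integral_of_nonneg (μ := μ) (Eventually.of_forall fun ω => (Real.exp_pos (Gx μ ℱ A θ v w M ω)).le)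
    hint (Real.exp t)
  have h3 : μ.real {ω | t ≤ Gx μ ℱ A θ v w M ω} ≤ μ.real {ω | Real.exp t ≤ Real.exp (Gx μ ℱ A θ v w M ω)} := by
    apply measureReal_mono _ (measure_ne_top _ _)
    intro ω hω
    exact Real.exp_le_exp.2 hω
  have h4 : Real.exp t * μ.real {ω | t ≤ Gx μ ℱ A θ v w M ω} ≤ 1 :=
    (mul_le_mul_of_nonneg_left h3 (Real.exp_pos _).le).trans (h2.trans h1)
  rw [Real.exp_neg, ← one_div, le_div_iff₀ (Real.exp_pos _), mul_comm]
  exact h4

/-- what the two tails give -/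
lemma Gx_two {θ : ℝ} (h0 : 0 < θ) (h1 : θ ≤ 1) {v : ℕ → ℕ} {w : ℕ → Ω → ℝ} {M : ℕ} {t : ℝ} {ω : Ω}
    (hD : ∀ n, 0 ≤ dens μ ℱ A n ω) (hw : ∀ k, 0 ≤ w k ω)
    (ha : Gx μ ℱ A θ v w M ω < t) (hb : Gx μ ℱ A (-θ) v w M ω < t) :
    (1 - θ) * (∑ k ∈ Finset.range M, w k ω * dens μ ℱ A (v k - 1) ω) - t / θ ≤ ∑ k ∈ Finset.range M, w k ω * In A (v k) ω ∧
    ∑ k ∈ Finset.range M, w k ω * In A (v k) ω ≤ (1 + θ) * (∑ k ∈ Finset.range M, w k ω * dens μ ℱ A (v k - 1) ω) + t / θ := by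
  have e : ∀ θ : ℝ, Gx μ ℱ A θ v w M ω = θ * (∑ k ∈ Finset.range M, w k ω * In A (v k) ω) -
      (Real.exp θ - 1) * ∑ k ∈ Finset.range M, w k ω * dens μ ℱ A (v k - 1) ω := by
    intro θ
    unfold Gx
    rw [Finset.mul_sum, Finset.mul_sum, ← Finset.sum_sub_distrib]
    refine Finset.sum_congr rfl fun k _ => ?_
    ring
  rw [e] at ha hb
  set S := ∑ k ∈ Finset.range M, w k ω * In A (v k) ω
  set D := ∑ k ∈ Finset.range M, w k ω * dens μ ℱ A (v k - 1) ω with hDdef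
  have hD0 : 0 ≤ D := Finset.sum_nonneg fun k _ => mul_nonneg (hw k) (hD _)
  have h2 : Real.exp θ - 1 ≤ θ * (1 + θ) := by
    have h := Real.abs_exp_sub_one_sub_id_le (x := θ) (by rw [abs_of_pos h0]; exact h1)
    have := (abs_le.1 h).2
    nlinarith
  have h3 : θ * (1 - θ) ≤ 1 - Real.exp (-θ) := by
    have h := Real.abs_exp_sub_one_sub_id_le (x := -θ) (by rw [abs_neg, abs_of_pos h0]; exact h1)
    have := (abs_le.1 h).2
    nlinarith
  constructor
  · rw [sub_le_iff_le_add, ← sub_le_iff_le_add', le_div_iff₀ h0]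
    have h4 := mul_le_mul_of_nonneg_right h3 hD0
    nlinarith
  · rw [← sub_le_iff_le_add', le_div_iff₀ h0]
    have h4 := mul_le_mul_of_nonneg_right h2 hD0
    nlinarith

end Pool.Agent.N893.SM
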