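import Mathlib
import Pool.Agent.H95.P.N893_SM_Exp

set_option autoImplicit false
set_option linter.unusedSectionVars false

/-! # The values of several linear forms in increasing order -/

open MeasureTheory Filter Set
open scoped ENNReal Topology

namespace Pool.Agent.N893.SM

open Pool.Agent.R528.RM

/-- the value of the form `a n + b` -/
def val (f : ℕ × ℕ) (n : ℕ) : ℕ := f.1 * n + f.2

/-- the number of forms with values at most `t` -/
def cntF (s : Finset (ℕ × ℕ)) (n t : ℕ) : ℕ := (s.filter (fun f => val f n ≤ t)).card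

/-- the rank of a form -/
def rk (s : Finset (ℕ × ℕ)) (n : ℕ) (f : ℕ × ℕ) : ℕ := (s.filter (fun g => val g n < val f n)).card

/-- the value number `j` (from `0`), with multiplicity -/
noncomputable def us (s : Finset (ℕ × ℕ)) (j n : ℕ) : ℕ := sInf {t | j < cntF s n t}

/-- no ties -/
def gd (s : Finset (ℕ × ℕ)) (n : ℕ) : Prop := ∀ f ∈ s, ∀ g ∈ s, val f n = val g n → f = g

/-- positive slopes and constants -/
def Pos (s : Finset (ℕ × ℕ)) : Prop := ∀ f ∈ s, 1 ≤ f.1 ∧ 1 ≤ f.2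

lemma us_nonempty {s : Finset (ℕ × ℕ)} {j : ℕ} (hj : j < s.card) (n : ℕ) : {t | j < cntF s n t}.Nonempty := by
  refine ⟨∑ f ∈ s, val f n, ?_⟩
  show j < cntF s n _
  unfold cntF
  rw [Finset.filter_true_of_mem]
  · exact hj
  · intro f hf
    exact Finset.single_le_sum (f := fun f => val f n) (fun _ _ => Nat.zero_le _) hf

lemma us_mem {s : Finset (ℕ × ℕ)} {j : ℕ} (hj : j < s.card) (n : ℕ) : j < cntF s n (us s j n) :=
  Nat.sInf_mem (us_nonempty hj n)

lemma us_lt {s : Finset (ℕ × ℕ)} {j n t : ℕ} (h : t < us s j n) : cntF s n t ≤ j := by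
  have := Nat.notMem_of_lt_sInf h
  exact not_lt.1 this

lemma us_le {s : Finset (ℕ × ℕ)} {j n t : ℕ} (h : j < cntF s n t) : us s j n ≤ t := Nat.sInf_le h

lemma us_pos {s : Finset (ℕ × ℕ)} (hs : Pos s) {j : ℕ} (hj : j < s.card) (n : ℕ) : 1 ≤ us s j n := by
  by_contra h
  have h0 : us s j n = 0 := by omega
  have h1 := us_mem hj n
  rw [h0] at h1
  unfold cntF at h1
  rw [Finset.filter_false_of_mem] at h1
  · simp at h1
  · intro f hf
    have := hs f hf
    unfold val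
    omega

lemma us_mono {s : Finset (ℕ × ℕ)} (hs : Pos s) {j : ℕ} (hj : j < s.card) : StrictMono (us s j) := by
  refine strictMono_nat_of_lt_succ fun n => ?_
  have h1 := us_mem hj (n + 1)
  have h2 := us_pos hs hj (n + 1)
  have h3 : us s j n ≤ us s j (n + 1) - 1 := by
    refine us_le (h1.trans_le ?_)
    unfold cntF
    refine Finset.card_le_card ?_
    intro f hf
    rw [Finset.mem_filter] at hf ⊢
    refine ⟨hf.1, ?_⟩
    have := hs f hf.1
    have h4 := hf.2
    unfold val at h4 ⊢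
    have h5 : f.1 * (n + 1) = f.1 * n + f.1 := by ring
    omega
  omega

lemma rk_lt_card {s : Finset (ℕ × ℕ)} {n : ℕ} {f : ℕ × ℕ} (hf : f ∈ s) : rk s n f < s.card := by
  unfold rk
  refine Finset.card_lt_card ?_
  rw [Finset.filter_ssubset]
  exact ⟨f, hf, lt_irrefl _⟩

lemma rk_lt {s : Finset (ℕ × ℕ)} {n : ℕ} {f g : ℕ × ℕ} (hf : f ∈ s) (h : val f n < val g n) : rk s n f < rk s n g := by
  unfold rk
  refine Finset.card_lt_card ?_
  refine ⟨?_, ?_⟩
  · intro e he
    rw [Finset.mem_filter] at he ⊢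
    exact ⟨he.1, he.2.trans h⟩
  · intro hsub
    have h1 : f ∈ s.filter (fun e => val e n < val g n) := Finset.mem_filter.2 ⟨hf, h⟩
    have h2 := hsub h1
    rw [Finset.mem_filter] at h2
    exact lt_irrefl _ h2.2

lemma val_lt_of_rk {s : Finset (ℕ × ℕ)} {n : ℕ} {f g : ℕ × ℕ} (hg : g ∈ s) (h : rk s n f < rk s n g) :
    val f n < val g n := by
  by_contra hcon
  push Not at hcon
  rcases hcon.lt_or_eq with h1 | h1
  · exact absurd (rk_lt hg h1) (by omega)
  · unfold rk at h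
    rw [h1] at h
    exact lt_irrefl _ h

lemma rk_inj {s : Finset (ℕ × ℕ)} {n : ℕ} (hg : gd s n) : Set.InjOn (rk s n) s := by
  intro f hf g hg' h
  rcases lt_trichotomy (val f n) (val g n) with h1 | h1 | h1
  · exact absurd (rk_lt hf h1) (by omega)
  · exact hg f hf g hg' h1
  · exact absurd (rk_lt hg' h1) (by omega)

/-- the form of rank `j` -/
lemma rk_surj {s : Finset (ℕ × ℕ)} {n : ℕ} (hg : gd s n) {j : ℕ} (hj : j < s.card) : ∃ f ∈ s, rk s n f = j := by
  have h1 : s.image (rk s n) = Finset.range s.card := by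
    refine Finset.eq_of_subset_of_card_le ?_ ?_
    · intro r hr
      obtain ⟨f, hf, rfl⟩ := Finset.mem_image.1 hr
      exact Finset.mem_range.2 (rk_lt_card hf)
    · rw [Finset.card_range, Finset.card_image_of_injOn (rk_inj hg)]
  have h2 : j ∈ s.image (rk s n) := by
    rw [h1]
    exact Finset.mem_range.2 hj
  obtain ⟨f, hf, h⟩ := Finset.mem_image.1 h2
  exact ⟨f, hf, h⟩

lemma us_rk {s : Finset (ℕ × ℕ)} {n : ℕ} {f : ℕ × ℕ} (hf : f ∈ s) : us s (rk s n f) n = val f n := by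
  apply le_antisymm
  · refine us_le ?_
    unfold rk cntF
    refine Finset.card_lt_card ?_
    refine ⟨?_, ?_⟩
    · intro e he
      rw [Finset.mem_filter] at he ⊢
      exact ⟨he.1, he.2.le⟩
    · intro hsub
      have h2 := hsub (Finset.mem_filter.2 ⟨hf, le_rfl⟩)
      rw [Finset.mem_filter] at h2
      exact lt_irrefl _ h2.2
  · by_contra hcon
    push Not at hcon
    have h1 := us_mem (rk_lt_card (n := n) hf) n
    have h2 : cntF s n (us s (rk s n f) n) ≤ rk s n f := by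
      unfold cntF
      conv_rhs => unfold rk
      refine Finset.card_le_card ?_
      intro e he
      rw [Finset.mem_filter] at he ⊢
      exact ⟨he.1, he.2.trans_lt hcon⟩
    omega

/-! ### few ties -/

/-- the only place of a tie -/
def tie (p : (ℕ × ℕ) × (ℕ × ℕ)) : ℕ := (((p.2.2 : ℤ) - p.1.2) / ((p.1.1 : ℤ) - p.2.1)).toNat

lemma tie_eq {f g : ℕ × ℕ} {n : ℕ} (hfg : f ≠ g) (h : val f n = val g n) : tie (f, g) = n := by
  unfold tie val at *
  have h1 : ((f.1 : ℤ) - g.1) * n = (g.2 : ℤ) - f.2 := by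
    have : (f.1 : ℤ) * n + f.2 = g.1 * n + g.2 := by exact_mod_cast h
    linear_combination this
  have h2 : (f.1 : ℤ) - g.1 ≠ 0 := by
    intro h0
    rw [h0, zero_mul] at h1
    apply hfg
    have e1 : f.1 = g.1 := by omega
    have e2 : f.2 = g.2 := by omega
    exact Prod.ext e1 e2
  show (((g.2 : ℤ) - f.2) / ((f.1 : ℤ) - g.1)).toNat = n
  rw [← h1, Int.mul_ediv_cancel_left _ h2, Int.toNat_natCast]

open Classical in
lemma few_bad (s : Finset (ℕ × ℕ)) (x : ℕ) : ((Finset.range x).filter (fun n => ¬ gd s n)).card ≤ s.card ^ 2 := by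
  have h1 : (Finset.range x).filter (fun n => ¬ gd s n) ⊆ (s ×ˢ s).image tie := by
    intro n hn
    have h2 := (Finset.mem_filter.1 hn).2
    unfold gd at h2
    push Not at h2
    obtain ⟨f, hf, g, hg, h3, h4⟩ := h2
    exact Finset.mem_image.2 ⟨(f, g), Finset.mem_product.2 ⟨hf, hg⟩, tie_eq h4 h3⟩
  refine (Finset.card_le_card h1).trans (Finset.card_image_le.trans ?_)
  rw [Finset.card_product, sq]

/-! ### the mixed products -/

variable {Ω : Type} {m0 : MeasurableSpace Ω} {μ : Measure Ω} [IsProbabilityMeasure μ]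
  {ℱ : Filtration ℕ m0} {A : ℕ → Set Ω}

/-- mixed products -/
noncomputable def Rj (A : ℕ → Set Ω) (ρ : ℕ → ℝ) (s : Finset (ℕ × ℕ)) (j n : ℕ) (ω : Ω) : ℝ :=
  ∏ f ∈ s, if rk s n f < j then In A (val f n) ω else ρ (val f n)

open Classical in
/-- the weights -/
noncomputable def Wj (A : ℕ → Set Ω) (ρ : ℕ → ℝ) (s : Finset (ℕ × ℕ)) (j n : ℕ) (ω : Ω) : ℝ :=
  if gd s n then ∏ f ∈ s.filter (fun f => rk s n f ≠ j), (if rk s n f < j then In A (val f n) ω else ρ (val f n)) else 0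

lemma fac01 {ρ : ℕ → ℝ} (hρ : ∀ n, 0 ≤ ρ n ∧ ρ n ≤ 1) (s : Finset (ℕ × ℕ)) (j n : ℕ) (ω : Ω) (f : ℕ × ℕ) :
    0 ≤ (if rk s n f < j then In A (val f n) ω else ρ (val f n)) ∧
    (if rk s n f < j then In A (val f n) ω else ρ (val f n)) ≤ 1 := by
  split_ifs
  · exact ⟨In_nonneg _ _, In_le _ _⟩
  · exact hρ _

lemma Wj01 {ρ : ℕ → ℝ} (hρ : ∀ n, 0 ≤ ρ n ∧ ρ n ≤ 1) (s : Finset (ℕ × ℕ)) (j n : ℕ) (ω : Ω) :
    0 ≤ Wj A ρ s j n ω ∧ Wj A ρ s j n ω ≤ 1 := by
  unfold Wj
  split_ifs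
  · exact ⟨Finset.prod_nonneg fun f _ => (fac01 hρ s j n ω f).1,
      Finset.prod_le_one (fun f _ => (fac01 hρ s j n ω f).1) fun f _ => (fac01 hρ s j n ω f).2⟩
  · exact ⟨le_rfl, zero_le_one⟩

lemma Rj01 {ρ : ℕ → ℝ} (hρ : ∀ n, 0 ≤ ρ n ∧ ρ n ≤ 1) (s : Finset (ℕ × ℕ)) (j n : ℕ) (ω : Ω) :
    0 ≤ Rj A ρ s j n ω ∧ Rj A ρ s j n ω ≤ 1 :=
  ⟨Finset.prod_nonneg fun f _ => (fac01 hρ s j n ω f).1,
    Finset.prod_le_one (fun f _ => (fac01 hρ s j n ω f).1) fun f _ => (fac01 hρ s j n ω f).2⟩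

lemma Wj_meas (hA : ∀ n, MeasurableSet[ℱ n] (A n)) (ρ : ℕ → ℝ) {s : Finset (ℕ × ℕ)} {j : ℕ} (hj : j < s.card) (n : ℕ) :
    StronglyMeasurable[ℱ (us s j n - 1)] (Wj A ρ s j n) := by
  classical
  by_cases hg : gd s n
  · have h1 : Wj A ρ s j n = fun ω => ∏ f ∈ s.filter (fun f => rk s n f ≠ j),
        (fun ω => if rk s n f < j then In A (val f n) ω else ρ (val f n)) ω := by
      funext ω
      unfold Wj
      rw [if_pos hg]
    rw [h1]
    have h2 : (fun ω => ∏ f ∈ s.filter (fun f => rk s n f ≠ j),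
        (fun ω => if rk s n f < j then In A (val f n) ω else ρ (val f n)) ω) =
        ∏ f ∈ s.filter (fun f => rk s n f ≠ j), (fun ω => if rk s n f < j then In A (val f n) ω else ρ (val f n)) := by
      funext ω
      rw [Finset.prod_apply]
    rw [h2]
    refine Finset.stronglyMeasurable_prod _ fun f hf => ?_
    rw [Finset.mem_filter] at hf
    by_cases h : rk s n f < j
    · simp only [h, if_true]
      obtain ⟨g, hgs, hgj⟩ := rk_surj hg hj
      have h3 : val f n < val g n := val_lt_of_rk hgs (by rw [hgj]; exact h)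
      have h4 : us s j n = val g n := by rw [← hgj]; exact us_rk hgs
      exact In_meas hA (by omega)
    · simp only [h, if_false]
      exact @stronglyMeasurable_const _ _ (ℱ (us s j n - 1)) _ _
  · have h1 : Wj A ρ s j n = fun _ => 0 := by
      funext ω
      unfold Wj
      rw [if_neg hg]
    rw [h1]
    exact @stronglyMeasurable_const _ _ (ℱ (us s j n - 1)) _ _

lemma R_step {ρ : ℕ → ℝ} {s : Finset (ℕ × ℕ)} {j n : ℕ} (hj : j < s.card) (hg : gd s n) (ω : Ω) :
    Rj A ρ s (j + 1) n ω = Wj A ρ s j n ω * In A (us s j n) ω ∧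
    Rj A ρ s j n ω = Wj A ρ s j n ω * ρ (us s j n) := by
  classical
  obtain ⟨g, hgs, hgj⟩ := rk_surj hg hj
  have h4 : us s j n = val g n := by rw [← hgj]; exact us_rk hgs
  have h5 : s.filter (fun f => rk s n f ≠ j) = s.erase g := by
    ext f
    rw [Finset.mem_filter, Finset.mem_erase]
    constructor
    · rintro ⟨h1, h2⟩
      refine ⟨?_, h1⟩
      rintro rfl
      exact h2 hgj
    · rintro ⟨h1, h2⟩
      refine ⟨h2, fun h3 => h1 ?_⟩
      exact rk_inj hg h2 hgs (h3.trans hgj.symm)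
  unfold Wj Rj
  rw [if_pos hg, h5, h4]
  constructor
  · rw [← Finset.prod_erase_mul s _ hgs, if_pos (by rw [hgj]; exact Nat.lt_succ_self j)]
    congr 1
    refine Finset.prod_congr rfl fun f hf => ?_
    rw [Finset.mem_erase] at hf
    have h6 : rk s n f ≠ j := fun h => hf.1 (rk_inj hg hf.2 hgs (h.trans hgj.symm))
    by_cases h7 : rk s n f < j
    · rw [if_pos h7, if_pos (by omega)]
    · rw [if_neg h7, if_neg (by omega)]
  · rw [← Finset.prod_erase_mul s _ hgs, if_neg (show ¬ rk s n g < j by omega)]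

lemma R_zero {ρ : ℕ → ℝ} (s : Finset (ℕ × ℕ)) (n : ℕ) (ω : Ω) : Rj A ρ s 0 n ω = ∏ f ∈ s, ρ (val f n) := by
  unfold Rj
  refine Finset.prod_congr rfl fun f _ => ?_
  rw [if_neg (Nat.not_lt_zero _)]

lemma R_card {ρ : ℕ → ℝ} (s : Finset (ℕ × ℕ)) (n : ℕ) (ω : Ω) : Rj A ρ s s.card n ω = ∏ f ∈ s, In A (val f n) ω := by
  unfold Rj
  refine Finset.prod_congr rfl fun f hf => ?_
  rw [if_pos (rk_lt_card hf)]

end Pool.Agent.N893.SM
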