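import Mathlib
import Pool.Agent.H95.P.R528_RM_TupQ

set_option autoImplicit false
set_option linter.unusedSectionVars false

/-! # Uniform tuples in sieved models: ratios -/

open MeasureTheory Filter Set Polynomial
open scoped ENNReal Topology

namespace Pool.Agent.N893.SM

open Pool.Agent.R528.RM

variable {Ω : Type} {m0 : MeasurableSpace Ω} {μ : Measure Ω} [IsProbabilityMeasure μ]
  {ℱ : Filtration ℕ m0} {A : ℕ → Set Ω}

lemma coprime_prod_iff (Q : Finset ℕ) (hQ : ∀ p ∈ Q, p.Prime) (n : ℕ) :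
    Nat.Coprime n (∏ p ∈ Q, p) ↔ ∀ p ∈ Q, ¬ p ∣ n := by
  rw [Nat.coprime_prod_right_iff]
  refine forall₂_congr fun p hp => ?_
  rw [Nat.coprime_comm]
  exact Nat.Prime.coprime_iff_not_dvd (hQ p hp)

lemma occ_le (H : Finset ℕ) {p : ℕ} (hp : 0 < p) : occ H p ≤ p := by
  unfold occ
  have h1 : H.image (· % p) ⊆ Finset.range p := by
    intro r hr
    obtain ⟨h, _, rfl⟩ := Finset.mem_image.1 hr
    exact Finset.mem_range.2 (Nat.mod_lt _ hp)
  have h2 := Finset.card_le_card h1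
  rwa [Finset.card_range] at h2

/-- all classes occupied -/
lemma occ_full {H : Finset ℕ} {p : ℕ} (hp : 0 < p) (h : occ H p = p) (m : ℕ) : ∃ a ∈ H, p ∣ m + a := by
  have h1 : H.image (· % p) = Finset.range p := by
    refine Finset.eq_of_subset_of_card_le ?_ ?_
    · intro r hr
      obtain ⟨h, _, rfl⟩ := Finset.mem_image.1 hr
      exact Finset.mem_range.2 (Nat.mod_lt _ hp)
    · rw [Finset.card_range]
      exact h.ge
  have h2 : (p - m % p) % p ∈ H.image (· % p) := by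
    rw [h1]
    exact Finset.mem_range.2 (Nat.mod_lt _ hp)
  obtain ⟨a, ha, hae⟩ := Finset.mem_image.1 h2
  refine ⟨a, ha, (Nat.modEq_zero_iff_dvd).1 ?_⟩
  have hlt := Nat.mod_lt m hp
  have e1 : a ≡ p - m % p [MOD p] := hae
  calc m + a ≡ m % p + (p - m % p) [MOD p] := Nat.ModEq.add (Nat.mod_modEq _ _).symm e1
    _ = p := by omega
    _ ≡ 0 [MOD p] := Nat.modEq_zero_iff_dvd.2 dvd_rfl

lemma singH_zero {Q H : Finset ℕ} (hQ : ∀ p ∈ Q, p.Prime) (h : singH Q H = 0) : ∃ p ∈ Q, occ H p = p := by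
  unfold singH at h
  rw [Finset.prod_eq_zero_iff] at h
  obtain ⟨p, hp, h1⟩ := h
  refine ⟨p, hp, ?_⟩
  have hp2 : (2 : ℝ) ≤ p := by exact_mod_cast (hQ p hp).two_le
  have e1 : 0 < (1 - 1 / (p : ℝ)) ^ H.card := by
    have : 1 / (p : ℝ) ≤ 1 / 2 := one_div_le_one_div_of_le (by norm_num) hp2
    have : 0 < 1 - 1 / (p : ℝ) := by linarith
    positivity
  rw [div_eq_zero_iff] at h1
  rcases h1 with h1 | h1
  · have h3 : (occ H p : ℝ) / p = 1 := by linarith
    rw [div_eq_one_iff_eq (by linarith)] at h3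
    exact_mod_cast h3
  · exact absurd h1 e1.ne'

lemma singH_low {Q H : Finset ℕ} (hQ : ∀ p ∈ Q, p.Prime) (h : singH Q H ≠ 0) :
    1 / ((∏ p ∈ Q, p : ℕ) : ℝ) ≤ singH Q H := by
  have h1 : ∀ p ∈ Q, occ H p ≠ p := by
    intro p hp he
    apply h
    unfold singH
    refine Finset.prod_eq_zero hp ?_
    have hp0 : (p : ℝ) ≠ 0 := by exact_mod_cast (hQ p hp).ne_zero
    rw [he, div_self hp0, sub_self, zero_div]
  unfold singH
  push_cast
  rw [one_div, ← Finset.prod_inv_distrib]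
  refine Finset.prod_le_prod (fun p _ => by positivity) fun p hp => ?_
  have hp2 : (2 : ℝ) ≤ p := by exact_mod_cast (hQ p hp).two_le
  have hp0 : (0 : ℝ) < p := by linarith
  have h2 : 1 / (p : ℝ) ≤ 1 / 2 := one_div_le_one_div_of_le (by norm_num) hp2
  have h3 : 0 < 1 / (p : ℝ) := by positivity
  have e1 : 0 < (1 - 1 / (p : ℝ)) ^ H.card := pow_pos (by linarith) _
  have e2 : (1 - 1 / (p : ℝ)) ^ H.card ≤ 1 := pow_le_one₀ (by linarith) (by linarith)
  have h4 : occ H p + 1 ≤ p := lt_of_le_of_ne (occ_le H (hQ p hp).pos) (h1 p hp)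
  have h5 : (occ H p : ℝ) + 1 ≤ p := by exact_mod_cast h4
  rw [le_div_iff₀ e1]
  have h6 : (p : ℝ)⁻¹ ≤ 1 - (occ H p : ℝ) / p := by
    rw [inv_eq_one_div, le_sub_iff_add_le, ← add_div, div_le_one hp0]
    linarith
  calc (p : ℝ)⁻¹ * (1 - 1 / (p : ℝ)) ^ H.card ≤ (p : ℝ)⁻¹ * 1 := mul_le_mul_of_nonneg_left e2 (by positivity)
    _ = (p : ℝ)⁻¹ := mul_one _
    _ ≤ _ := h6

/-- a good residue -/
lemma good_res {Q H : Finset ℕ} (hQ : ∀ p ∈ Q, p.Prime) (h : singH Q H ≠ 0) :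
    ∃ r : ℕ, r < ∏ p ∈ Q, p ∧ ∀ a ∈ H, Nat.Coprime (r + a) (∏ p ∈ Q, p) := by
  classical
  have h1 := singH_eq Q hQ H
  have h2 : Nat.count (good (PH H) (∏ p ∈ Q, p)) (∏ p ∈ Q, p) ≠ 0 := by
    intro h0
    rw [h0] at h1
    simp only [Nat.cast_zero, zero_div, zero_mul] at h1
    exact h h1.symm
  rw [Nat.count_eq_card_filter_range] at h2
  obtain ⟨r, hr⟩ := Finset.card_pos.1 (Nat.pos_of_ne_zero h2)
  rw [Finset.mem_filter, Finset.mem_range] at hr
  exact ⟨r, hr.1, (good_PH H _ r).1 hr.2⟩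

lemma c_one {W : ℕ} (hW : 0 < W) : 1 ≤ (W : ℝ) / Nat.totient W := by
  rw [one_le_div (by exact_mod_cast Nat.totient_pos.2 hW)]
  exact_mod_cast Nat.totient_le W

/-- the lower bound of the expected number -/
lemma E_low (Q : Finset ℕ) (hQ : ∀ p ∈ Q, p.Prime) (C : ℕ) {x : ℕ} (hx : 6 * ∏ p ∈ Q, p ≤ x) (hx3 : 3 ≤ x)
    {H : Finset ℕ} (hH : H ⊆ Finset.range (x ^ C + 1)) (hs : singH Q H ≠ 0) (ω : Ω) :
    (x : ℝ) / (2 * (∏ p ∈ Q, p : ℕ)) * (1 / ((C + 2) * Real.log x)) ^ H.card ≤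
      TN A (rhoW (∏ p ∈ Q, p)) x ∅ H ω := by
  classical
  obtain ⟨r, hr, hgood⟩ := good_res hQ hs
  set W := ∏ p ∈ Q, p with hWdef
  have hW : 0 < W := Finset.prod_pos fun q hq => (hQ q hq).pos
  have hx' : (3 : ℝ) ≤ x := by exact_mod_cast hx3
  have hlog : 1 ≤ Real.log (x : ℝ) := by
    rw [Real.le_log_iff_exp_le (by linarith)]
    exact (Real.exp_one_lt_d9.le.trans (by norm_num)).trans hx'
  -- the indices
  set J := x / W - 2 with hJ
  have hinj : Function.Injective (fun j : ℕ => r + W * (j + 2) - 1) := by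
    intro a b hab
    have hab' : r + W * (a + 2) - 1 = r + W * (b + 2) - 1 := hab
    have h1 : 0 < W * (a + 2) := by positivity
    have h2 : 0 < W * (b + 2) := by positivity
    have h3 : W * (a + 2) = W * (b + 2) := by omega
    have h4 := Nat.eq_of_mul_eq_mul_left hW h3
    omega
  have hsub : (Finset.range J).map ⟨_, hinj⟩ ⊆ Finset.range x := by
    intro n hn
    rw [Finset.mem_map] at hn
    obtain ⟨j, hj, rfl⟩ := hn
    rw [Finset.mem_range] at hj ⊢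
    show r + W * (j + 2) - 1 < x
    have h1 : W * (x / W) ≤ x := Nat.mul_div_le x W
    have h2 : j + 3 ≤ x / W := by omega
    have h3 : W * (j + 3) ≤ W * (x / W) := Nat.mul_le_mul_left W h2
    have h4 : W * (j + 3) = W * (j + 2) + W := by ring
    have h5 : 0 < W * (j + 2) := by positivity
    omega
  have hρ0 : ∀ n, 0 ≤ rhoW W n := fun n => rhoW_nonneg W n
  have h1 : ∑ n ∈ (Finset.range J).map ⟨_, hinj⟩, ∏ h ∈ H, rhoW W (n + 1 + h) ≤
      ∑ n ∈ Finset.range x, ∏ h ∈ H, rhoW W (n + 1 + h) :=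
    Finset.sum_le_sum_of_subset_of_nonneg hsub fun n _ _ => Finset.prod_nonneg fun h _ => hρ0 _
  have h2 : TN A (rhoW W) x ∅ H ω = ∑ n ∈ Finset.range x, ∏ h ∈ H, rhoW W (n + 1 + h) := by
    unfold TN
    refine Finset.sum_congr rfl fun n _ => ?_
    rw [Finset.prod_empty, one_mul]
  rw [h2]
  refine le_trans ?_ h1
  rw [Finset.sum_map]
  have h3 : ∀ j ∈ Finset.range J, (1 / ((C + 2) * Real.log x)) ^ H.card ≤
      ∏ h ∈ H, rhoW W ((⟨_, hinj⟩ : ℕ ↪ ℕ) j + 1 + h) := by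
    intro j hj
    rw [Finset.mem_range] at hj
    rw [← Finset.prod_const]
    refine Finset.prod_le_prod (fun h _ => by positivity) fun h hh => ?_
    have g1 : (⟨_, hinj⟩ : ℕ ↪ ℕ) j + 1 + h = r + h + W * (j + 2) := by
      show r + W * (j + 2) - 1 + 1 + h = _
      have h5 : 0 < W * (j + 2) := by positivity
      omega
    rw [g1]
    have g2 : Nat.Coprime (r + h + W * (j + 2)) W := by
      rw [Nat.coprime_add_mul_left_left]
      exact hgood h hh
    unfold rhoW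
    rw [if_pos g2]
    have g3 : 2 ≤ r + h + W * (j + 2) := by
      have : 1 * 2 ≤ W * (j + 2) := Nat.mul_le_mul hW (by omega)
      omega
    have g4 : r + h + W * (j + 2) ≤ x ^ (C + 2) := by
      have k1 : W * (x / W) ≤ x := Nat.mul_div_le x W
      have k2 : j + 3 ≤ x / W := by omega
      have k3 : W * (j + 3) ≤ W * (x / W) := Nat.mul_le_mul_left W k2
      have k4 : W * (j + 3) = W * (j + 2) + W := by ring
      have k5 : h ≤ x ^ C := by
        have := Finset.mem_range.1 (hH hh)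
        omega
      have k6 : r + h + W * (j + 2) ≤ x + x ^ C := by omega
      have k7 : x + x ^ C ≤ x ^ (C + 2) := by
        have m1 : 1 ≤ x ^ C := Nat.one_le_pow _ _ (by omega)
        have m2 : x ^ (C + 2) = x ^ C * (x * x) := by ring
        rw [m2]
        have m3 : x + 1 ≤ x * x := by nlinarith
        calc x + x ^ C ≤ x ^ C * x + x ^ C * 1 := by nlinarith
          _ = x ^ C * (x + 1) := by ring
          _ ≤ _ := Nat.mul_le_mul_left _ m3
      omega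
    have g5 : (2 : ℝ) ≤ ((r + h + W * (j + 2) : ℕ) : ℝ) := by exact_mod_cast g3
    have g6 : Real.log ((r + h + W * (j + 2) : ℕ) : ℝ) ≤ (C + 2) * Real.log x := by
      have k1 : ((r + h + W * (j + 2) : ℕ) : ℝ) ≤ (x : ℝ) ^ (C + 2) := by exact_mod_cast g4
      have k2 := Real.log_le_log (by linarith) k1
      rw [Real.log_pow] at k2
      push_cast at k2
      push_cast
      exact k2
    have g7 : 0 < Real.log ((r + h + W * (j + 2) : ℕ) : ℝ) := Real.log_pos (by linarith)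
    have g8 : 1 ≤ ((C : ℝ) + 2) * Real.log x := by
      have : (0 : ℝ) ≤ C := Nat.cast_nonneg C
      nlinarith
    refine le_min ?_ ?_
    · rw [div_le_one (by linarith)]
      exact g8
    · exact div_le_div₀ (by linarith [c_one hW]) (c_one hW) g7 g6
  have h4 := Finset.sum_le_sum h3
  refine le_trans ?_ h4
  rw [Finset.sum_const, Finset.card_range, nsmul_eq_mul]
  refine mul_le_mul_of_nonneg_right ?_ (by positivity)
  have hW' : (0 : ℝ) < W := by exact_mod_cast hW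
  have k1 : (x : ℝ) / W < ((x / W : ℕ) : ℝ) + 1 := by
    rw [div_lt_iff₀ hW']
    have := Nat.lt_mul_div_succ x hW
    have k2 : (x : ℝ) < W * ((x / W : ℕ) + 1) := by exact_mod_cast this
    linarith
  have k2 : 6 ≤ x / W := (Nat.le_div_iff_mul_le hW).2 hx
  have k3 : (J : ℝ) = ((x / W : ℕ) : ℝ) - 2 := by
    rw [hJ, Nat.cast_sub (by omega)]
    norm_num
  rw [k3]
  have k4 : (6 : ℝ) ≤ (x : ℝ) / W := by
    rw [le_div_iff₀ hW']
    exact_mod_cast hx
  have k5 : (x : ℝ) / (2 * W) = (x : ℝ) / W / 2 := by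
    field_simp
  rw [k5]
  linarith

lemma lam_small (C k : ℕ) : Tendsto (fun x : ℕ => 4 * k * lamT C k x * Real.log x ^ k / x) atTop (𝓝 0) := by
  have h6 : Tendsto (fun x : ℝ => 4 * k * √(8 * (C + 1) * k) * (Real.log x ^ ((k : ℝ) + 1 / 2) / x ^ (1 / 2 : ℝ))) atTop
      (𝓝 (4 * k * √(8 * (C + 1) * k) * 0)) :=
    ((isLittleO_log_rpow_rpow_atTop ((k : ℝ) + 1 / 2) (by norm_num : (0 : ℝ) < 1 / 2)).tendsto_div_nhds_zero).const_mul _
  rw [mul_zero] at h6
  refine (h6.comp tendsto_natCast_atTop_atTop).congr' ?_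
  filter_upwards [eventually_gt_atTop 1] with n hn
  have hn' : (1 : ℝ) < n := by exact_mod_cast hn
  have hL : 0 < Real.log (n : ℝ) := Real.log_pos hn'
  simp only [Function.comp_apply]
  unfold lamT
  have e0 : √(8 * (C + 1) * k * (n * Real.log n)) = √(8 * (C + 1) * k) * √(n * Real.log n) :=
    Real.sqrt_mul (by positivity) _
  rw [e0, Real.sqrt_eq_rpow (n * Real.log n), Real.mul_rpow (by linarith) hL.le]
  have e1 : Real.log (n : ℝ) ^ ((k : ℝ) + 1 / 2) = Real.log n ^ (1 / 2 : ℝ) * Real.log n ^ k := by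
    rw [← Real.rpow_natCast, ← Real.rpow_add hL]
    ring_nf
  have e2 : (n : ℝ) = (n : ℝ) ^ (1 / 2 : ℝ) * (n : ℝ) ^ (1 / 2 : ℝ) := by
    rw [← Real.rpow_add (by linarith)]
    norm_num
  have e3 : (n : ℝ) ^ (1 / 2 : ℝ) ≠ 0 := (Real.rpow_pos_of_pos (by linarith) _).ne'
  rw [e1]
  rw [eq_div_iff (show (n : ℝ) ≠ 0 by linarith)]
  conv_lhs => rw [mul_comm _ (n : ℝ)]
  nth_rewrite 1 [e2]
  field_simp

/-- uniform ratios for shifts up to `x ^ C` -/
theorem tup_ratio (hA : ∀ n, MeasurableSet[ℱ n] (A n)) (Q : Finset ℕ) (hQ : ∀ p ∈ Q, p.Prime)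
    (hcop : ∀ n, (∃ p ∈ Q, p ∣ n) → A n = ∅)
    (hd : ∀ᵐ ω ∂μ, Tendsto (fun n : ℕ => dens μ ℱ A n ω * Real.log n)
      (atTop ⊓ 𝓟 {n : ℕ | ∀ p ∈ Q, ¬ p ∣ n + 1}) (𝓝 (∏ p ∈ Q, (1 - 1 / (p : ℝ))⁻¹))) :
    ∀ᵐ ω ∂μ, ∀ C k : ℕ, ∀ ε : ℝ, 0 < ε → ∀ᶠ x : ℕ in atTop, ∀ H : Finset ℕ, H ⊆ Finset.range (x ^ C + 1) → H.card = k →
      singH Q H ≠ 0 → |TN A (rhoW (∏ p ∈ Q, p)) x H ∅ ω - TN A (rhoW (∏ p ∈ Q, p)) x ∅ H ω| ≤
        ε * TN A (rhoW (∏ p ∈ Q, p)) x ∅ H ω := by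
  classical
  set W := ∏ p ∈ Q, p with hWdef
  have hW : 0 < W := Finset.prod_pos fun q hq => (hQ q hq).pos
  have hc : ∀ n, Nat.Coprime n W ↔ ∀ p ∈ Q, ¬ p ∣ n := coprime_prod_iff Q hQ
  have hprof := dens_profile (μ := μ) hA W hW (fun n hn => hcop n (by
    rw [hc] at hn
    push Not at hn
    exact hn)) (by
    rw [totient_prod Q hQ]
    simp_rw [hc]
    exact hd)
  have hρ : ∀ n, 0 ≤ rhoW W n ∧ rhoW W n ≤ 1 := fun n => ⟨rhoW_nonneg W n, rhoW_le W n⟩
  filter_upwards [tup_fixed (μ := μ) hA (rhoW W) hρ hprof] with ω hω C k ε hε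
  have hW' : (0 : ℝ) < W := by exact_mod_cast hW
  have hC2 : (0 : ℝ) < (C : ℝ) + 2 := by positivity
  set c₀ : ℝ := 1 / (2 * W) * (1 / (C + 2)) ^ k with hc₀
  have hc₀p : 0 < c₀ := by positivity
  filter_upwards [hω C k (ε / 2) (by positivity),
    (lam_small C k).eventually (gt_mem_nhds (show (0 : ℝ) < ε / 2 * c₀ by positivity)),
    eventually_ge_atTop (6 * W), eventually_ge_atTop 3] with x h1 h2 h3 h4 H hH hk hs
  have h5 := h1 H hH hk
  have h6 := E_low (A := A) Q hQ C h3 h4 hH hs ω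
  rw [← hWdef, hk] at h6
  have hx' : (3 : ℝ) ≤ x := by exact_mod_cast h4
  have hL : 0 < Real.log (x : ℝ) := Real.log_pos (by linarith)
  have h7 : (x : ℝ) / (2 * W) * (1 / ((C + 2) * Real.log x)) ^ k = c₀ * (x / Real.log x ^ k) := by
    rw [hc₀, one_div_pow, one_div_pow, mul_pow]
    field_simp
  rw [h7] at h6
  have h8 : 4 * k * lamT C k x ≤ ε / 2 * (c₀ * (x / Real.log x ^ k)) := by
    rw [div_lt_iff₀ (by linarith)] at h2
    have h9 : 4 * k * lamT C k x ≤ ε / 2 * c₀ * x / Real.log x ^ k := by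
      rw [le_div_iff₀ (by positivity)]
      exact h2.le
    refine h9.trans (le_of_eq ?_)
    ring
  have h10 := mul_le_mul_of_nonneg_left h6 (show 0 ≤ ε / 2 by positivity)
  linarith

end Pool.Agent.N893.SM
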