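import Mathlib
import Pool.Agent.H95.P.N893_SM_Exp
import Pool.Agent.H95.P.N893_SM_Grow

set_option autoImplicit false
set_option linter.unusedSectionVars false

/-! # A uniform law for predictable sums in sequential random models -/

open MeasureTheory Filter Set
open scoped ENNReal Topology

namespace Pool.Agent.N9.AD

open Pool.Agent.R528.RM Pool.Agent.N893.SM

variable {Ω : Type} {m0 : MeasurableSpace Ω} {μ : Measure Ω} [IsProbabilityMeasure μ]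
  {ℱ : Filtration ℕ m0} {A : ℕ → Set Ω}

/-- the errors -/
theorem eng_err (hA : ∀ n, MeasurableSet[ℱ n] (A n)) (θ : ℝ) (E : ℕ) (w : ℕ → ℕ → Ω → ℝ)
    (hw : ∀ N v, 1 ≤ v → StronglyMeasurable[ℱ (v - 1)] (w N v))
    (hw1 : ∀ N v ω, 0 ≤ w N v ω ∧ w N v ω ≤ 1) :
    ∀ᵐ ω ∂μ, ∀ᶠ N : ℕ in atTop, ∀ a b : ℕ, 1 ≤ a → a ≤ N ^ E → b ≤ N ^ E →
      Gx μ ℱ A θ (fun k => a + k) (fun k => w N (a + k)) (b - a) ω < (2 * E + 4 : ℕ) * Real.log N := by
  classical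
  set Bad : ℕ → Set Ω := fun N => ⋃ a ∈ Finset.Icc 1 (N ^ E), ⋃ b ∈ Finset.range (N ^ E + 1),
    {ω | (2 * E + 4 : ℕ) * Real.log N ≤
      Gx μ ℱ A θ (fun k => a + k) (fun k => w N (a + k)) (b - a) ω} with hBad
  have hsum : Summable (fun N : ℕ => 2 * ((N : ℝ) ^ 2)⁻¹) :=
    (Real.summable_nat_pow_inv.2 (by norm_num)).mul_left 2
  have hb : ∀ᶠ N in atTop, μ.real (Bad N) ≤ 2 * ((N : ℝ) ^ 2)⁻¹ := by
    filter_upwards [eventually_ge_atTop 2] with N hN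
    have hN' : (2 : ℝ) ≤ N := by exact_mod_cast hN
    have hN0 : (0 : ℝ) < N := by linarith
    have h1 : ∀ a ∈ Finset.Icc 1 (N ^ E), ∀ b : ℕ,
        μ.real {ω | (2 * E + 4 : ℕ) * Real.log N ≤
          Gx μ ℱ A θ (fun k => a + k) (fun k => w N (a + k)) (b - a) ω} ≤
          ((N : ℝ) ^ (2 * E + 4))⁻¹ := by
      intro a ha b
      have ha1 := (Finset.mem_Icc.1 ha).1
      have h2 := Gx_tail (μ := μ) hA θ (v := fun k => a + k) (fun i j h => by simpa using h)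
        (fun k => by omega) (w := fun k => w N (a + k)) (fun k => hw N (a + k) (by omega))
        (fun k ω => hw1 N (a + k) ω) (b - a) ((2 * E + 4 : ℕ) * Real.log N)
      refine h2.trans (le_of_eq ?_)
      rw [Real.exp_neg]
      congr 1
      rw [← Real.rpow_natCast, Real.rpow_def_of_pos hN0]
      congr 1
      ring
    have h2 : μ.real (Bad N) ≤ ∑ a ∈ Finset.Icc 1 (N ^ E), ∑ b ∈ Finset.range (N ^ E + 1),
        ((N : ℝ) ^ (2 * E + 4))⁻¹ := by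
      refine (measureReal_biUnion_finset_le _ _).trans (Finset.sum_le_sum fun a ha => ?_)
      exact (measureReal_biUnion_finset_le _ _).trans (Finset.sum_le_sum fun b _ => h1 a ha b)
    refine h2.trans ?_
    rw [Finset.sum_const, Finset.sum_const, Finset.card_range, Nat.card_Icc, nsmul_eq_mul,
      nsmul_eq_mul, Nat.add_sub_cancel]
    push_cast
    have e1 : (N : ℝ) ^ (2 * E + 4) = (N : ℝ) ^ E * ((N : ℝ) ^ E * (N : ℝ) ^ 2) * (N : ℝ) ^ 2 := by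
      rw [← pow_add, ← pow_add, ← pow_add]
      congr 1
      ring
    have p1 : 0 < (N : ℝ) ^ E := by positivity
    have p1' : 1 ≤ (N : ℝ) ^ E := one_le_pow₀ (by linarith)
    rw [e1, mul_inv, mul_inv]
    have e2 : (N : ℝ) ^ E * (((N : ℝ) ^ E + 1) *
        (((N : ℝ) ^ E)⁻¹ * ((N : ℝ) ^ E * (N : ℝ) ^ 2)⁻¹ * ((N : ℝ) ^ 2)⁻¹)) =
        (((N : ℝ) ^ E + 1) * ((N : ℝ) ^ E * (N : ℝ) ^ 2)⁻¹) * ((N : ℝ) ^ 2)⁻¹ := by
      field_simp
    rw [e2]
    apply mul_le_mul_of_nonneg_right _ (by positivity)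
    rw [← div_eq_mul_inv, div_le_iff₀ (by positivity)]
    have e3 : (N : ℝ) ^ E ≤ (N : ℝ) ^ E * (N : ℝ) ^ 2 :=
      le_mul_of_one_le_right p1.le (one_le_pow₀ (by linarith))
    linarith
  filter_upwards [bc_real (μ := μ) hsum hb] with ω hω
  filter_upwards [hω] with N hN a b ha haE hbE
  by_contra hcon
  apply hN
  simp only [hBad, Set.mem_iUnion]
  exact ⟨a, Finset.mem_Icc.2 ⟨ha, haE⟩, b, Finset.mem_range.2 (by omega), not_lt.1 hcon⟩

/-- **the law for predictable sums**, uniformly in all intervals -/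
theorem eng (hA : ∀ n, MeasurableSet[ℱ n] (A n)) (ρ : ℕ → ℝ) (hρ : ∀ n, 0 ≤ ρ n ∧ ρ n ≤ 1)
    (hd : ∀ᵐ ω ∂μ, ∀ ε : ℝ, 0 < ε → ∀ᶠ n : ℕ in atTop, |dens μ ℱ A n ω - ρ (n + 1)| ≤ ε * ρ (n + 1))
    (E : ℕ) (w : ℕ → ℕ → Ω → ℝ) (hw : ∀ N v, 1 ≤ v → StronglyMeasurable[ℱ (v - 1)] (w N v))
    (hw1 : ∀ N v ω, 0 ≤ w N v ω ∧ w N v ω ≤ 1) :
    ∀ᵐ ω ∂μ, ∀ ε : ℝ, 0 < ε → ∃ C : ℝ, 0 < C ∧ ∀ᶠ N : ℕ in atTop, ∀ a b : ℕ, 1 ≤ a → b ≤ N ^ E →
      |∑ v ∈ Finset.Ico a b, w N v ω * In A v ω - ∑ v ∈ Finset.Ico a b, w N v ω * ρ v| ≤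
        ε * ∑ v ∈ Finset.Ico a b, w N v ω * ρ v + C * Real.log N := by
  have h01 : ∀ᵐ ω ∂μ, ∀ n, 0 ≤ dens μ ℱ A n ω ∧ dens μ ℱ A n ω ≤ 1 := ae_all_iff.2 fun n => dens01 hA n
  have herr1 : ∀ᵐ ω ∂μ, ∀ j : ℕ, ∀ᶠ N : ℕ in atTop, ∀ a b : ℕ, 1 ≤ a → a ≤ N ^ E → b ≤ N ^ E →
      Gx μ ℱ A (1 / ((j : ℝ) + 1)) (fun k => a + k) (fun k => w N (a + k)) (b - a) ω <
        (2 * E + 4 : ℕ) * Real.log N := ae_all_iff.2 fun j => eng_err hA _ E w hw hw1
  have herr2 : ∀ᵐ ω ∂μ, ∀ j : ℕ, ∀ᶠ N : ℕ in atTop, ∀ a b : ℕ, 1 ≤ a → a ≤ N ^ E → b ≤ N ^ E →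
      Gx μ ℱ A (-(1 / ((j : ℝ) + 1))) (fun k => a + k) (fun k => w N (a + k)) (b - a) ω <
        (2 * E + 4 : ℕ) * Real.log N := ae_all_iff.2 fun j => eng_err hA _ E w hw hw1
  filter_upwards [h01, herr1, herr2, hd] with ω h01 he1 he2 hd ε hε
  -- the parameter `θ`
  obtain ⟨j, hj⟩ := exists_nat_one_div_lt (show 0 < min (ε / 4) 1 by positivity)
  set θ : ℝ := 1 / ((j : ℝ) + 1) with hθ
  have hθ0 : 0 < θ := by positivity
  have hθε : θ ≤ ε / 4 := hj.le.trans (min_le_left _ _)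
  have hθ1 : θ ≤ 1 := hj.le.trans (min_le_right _ _)
  obtain ⟨v₀, hv₀⟩ := eventually_atTop.1 (hd (min (ε / 4) 1) (by positivity))
  refine ⟨3 + (2 * E + 4 : ℕ) / θ, by positivity, ?_⟩
  have hlogN : ∀ᶠ N : ℕ in atTop, (v₀ : ℝ) + 1 ≤ Real.log N :=
    (Real.tendsto_log_atTop.comp tendsto_natCast_atTop_atTop).eventually_ge_atTop _
  filter_upwards [he1 j, he2 j, hlogN] with N h1 h2 h3 a b ha hb
  have hlog0 : 0 ≤ Real.log N := by
    have : (0 : ℝ) ≤ v₀ := Nat.cast_nonneg _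
    linarith
  rcases Nat.lt_or_ge b a with hab | hab
  · rw [Finset.Ico_eq_empty (by omega)]
    simp only [Finset.sum_empty, sub_zero, abs_zero, mul_zero, zero_add]
    positivity
  have e1 : ∀ F : ℕ → ℝ, ∑ k ∈ Finset.range (b - a), F (a + k) = ∑ v ∈ Finset.Ico a b, F v := by
    intro F
    rw [Finset.sum_Ico_eq_sum_range]
  have hGx := Gx_two (μ := μ) (ℱ := ℱ) (A := A) (θ := θ) hθ0 hθ1 (v := fun k => a + k)
    (w := fun k => w N (a + k)) (M := b - a) (t := (2 * E + 4 : ℕ) * Real.log N) (ω := ω)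
    (fun n => (h01 n).1) (fun k => (hw1 N (a + k) ω).1) (h1 a b ha (hab.trans hb) hb)
    (h2 a b ha (hab.trans hb) hb)
  rw [e1 (fun v => w N v ω * dens μ ℱ A (v - 1) ω), e1 (fun v => w N v ω * In A v ω)] at hGx
  set D := ∑ v ∈ Finset.Ico a b, w N v ω * dens μ ℱ A (v - 1) ω with hD
  set R := ∑ v ∈ Finset.Ico a b, w N v ω * ρ v with hR
  set I := ∑ v ∈ Finset.Ico a b, w N v ω * In A v ω with hI
  have hR0 : 0 ≤ R := Finset.sum_nonneg fun v _ => mul_nonneg (hw1 N v ω).1 (hρ v).1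
  -- compare `D` and `R`
  have hDR : |D - R| ≤ ε / 4 * R + Real.log N ∧ |D - R| ≤ R + Real.log N := by
    have g1 : |D - R| ≤ ∑ v ∈ Finset.Ico a b,
        (min (ε / 4) 1 * (w N v ω * ρ v) + if v ≤ v₀ then 1 else 0) := by
      rw [hD, hR, ← Finset.sum_sub_distrib]
      refine (Finset.abs_sum_le_sum_abs _ _).trans (Finset.sum_le_sum fun v hv => ?_)
      have hv1 : 1 ≤ v := ha.trans (Finset.mem_Ico.1 hv).1
      obtain ⟨w0, w1⟩ := hw1 N v ω
      have hm0 : 0 ≤ min (ε / 4) 1 := by positivity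
      have hρv := hρ v
      rw [← mul_sub, abs_mul, abs_of_nonneg w0]
      by_cases hc : v ≤ v₀
      · rw [if_pos hc]
        have g2 := h01 (v - 1)
        have g3 : |dens μ ℱ A (v - 1) ω - ρ v| ≤ 1 := by
          rw [abs_le]
          constructor <;> linarith
        have g4 : w N v ω * |dens μ ℱ A (v - 1) ω - ρ v| ≤ 1 := by
          calc w N v ω * |dens μ ℱ A (v - 1) ω - ρ v| ≤ 1 * 1 :=
                mul_le_mul w1 g3 (abs_nonneg _) zero_le_one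
            _ = 1 := one_mul 1
        have g5 : 0 ≤ min (ε / 4) 1 * (w N v ω * ρ v) := mul_nonneg hm0 (mul_nonneg w0 hρv.1)
        linarith
      · rw [if_neg hc, add_zero]
        have g2 := hv₀ (v - 1) (by omega)
        rw [show v - 1 + 1 = v by omega] at g2
        calc w N v ω * |dens μ ℱ A (v - 1) ω - ρ v| ≤ w N v ω * (min (ε / 4) 1 * ρ v) := by gcongr
          _ = min (ε / 4) 1 * (w N v ω * ρ v) := by ring
    rw [Finset.sum_add_distrib, ← Finset.mul_sum, Finset.sum_boole] at g1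
    have g2 : (((Finset.Ico a b).filter (fun v => v ≤ v₀)).card : ℝ) ≤ Real.log N := by
      have g3 : (Finset.Ico a b).filter (fun v => v ≤ v₀) ⊆ Finset.range (v₀ + 1) := by
        intro v hv
        rw [Finset.mem_filter] at hv
        rw [Finset.mem_range]
        omega
      have g4 := Finset.card_le_card g3
      rw [Finset.card_range] at g4
      have g5 : (((Finset.Ico a b).filter (fun v => v ≤ v₀)).card : ℝ) ≤ ((v₀ + 1 : ℕ) : ℝ) := by
        exact_mod_cast g4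
      push_cast at g5
      linarith
    have g3 : min (ε / 4) 1 * R ≤ ε / 4 * R := mul_le_mul_of_nonneg_right (min_le_left _ _) hR0
    have g4 : min (ε / 4) 1 * R ≤ 1 * R := mul_le_mul_of_nonneg_right (min_le_right _ _) hR0
    constructor <;> linarith
  obtain ⟨hDR1, hDR2⟩ := hDR
  have hD2 : D ≤ 2 * R + Real.log N := by
    have := (abs_le.1 hDR2).2
    linarith
  have hD0 : 0 ≤ D := Finset.sum_nonneg fun v _ => mul_nonneg (hw1 N v ω).1 (h01 _).1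
  have hθD : θ * D ≤ ε / 2 * R + Real.log N := by
    have g1 : θ * D ≤ θ * (2 * R + Real.log N) := mul_le_mul_of_nonneg_left hD2 hθ0.le
    have g2 : θ * (2 * R) ≤ ε / 4 * (2 * R) := mul_le_mul_of_nonneg_right hθε (by linarith)
    have g3 : θ * Real.log N ≤ 1 * Real.log N := mul_le_mul_of_nonneg_right hθ1 hlog0
    nlinarith
  have hdiv : (2 * E + 4 : ℕ) * Real.log N / θ = (2 * E + 4 : ℕ) / θ * Real.log N := by ring
  rw [hdiv] at hGx
  obtain ⟨hG1, hG2⟩ := hGx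
  have hlog1 : (3 + (2 * E + 4 : ℕ) / θ) * Real.log N =
      3 * Real.log N + (2 * E + 4 : ℕ) / θ * Real.log N := by ring
  rw [hlog1]
  have a1 := abs_le.1 hDR1
  have hεR : 0 ≤ ε * R := mul_nonneg hε.le hR0
  rw [abs_le]
  constructor <;> nlinarith

end Pool.Agent.N9.AD
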