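import Mathlib
import Pool.Agent.H95.P.N9_AD_Ind2
import Pool.Agent.H95.P.R528_RM_GoldQ

set_option autoImplicit false
set_option linter.unusedSectionVars false

/-! # Sums of an element of an adapted set and a chosen integer -/

open MeasureTheory Filter Set
open scoped ENNReal Topology

namespace Pool.Agent.N9.AD

open Pool.Agent.R528.RM Pool.Agent.N893.SM

variable {Ω : Type} {m0 : MeasurableSpace Ω} {μ : Measure Ω} [IsProbabilityMeasure μ]
  {ℱ : Filtration ℕ m0} {A : ℕ → Set Ω} {T B : ℕ → Set Ω}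

/-- `log (N / 2)` against `log N` -/
lemma log_half {c ε : ℝ} (hc : 0 < c) (hε : 0 < ε) : ∀ᶠ N : ℕ in atTop, ∀ v : ℕ, N ≤ 2 * v → v ≤ N →
    c / Real.log N ≤ bb c v ∧ bb c v ≤ (1 + ε) * (c / Real.log N) := by
  have hlog : Tendsto (fun N : ℕ => Real.log (N : ℝ)) atTop atTop :=
    Real.tendsto_log_atTop.comp tendsto_natCast_atTop_atTop
  filter_upwards [hlog.eventually_ge_atTop (c + 1 + 1), hlog.eventually_ge_atTop ((1 + ε) / ε),
    eventually_ge_atTop 4] with N h1 h2 h3 v hv1 hv2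
  have hN : (4 : ℝ) ≤ N := by exact_mod_cast h3
  have hv : (2 : ℝ) ≤ v := by
    have : 2 ≤ v := by omega
    exact_mod_cast this
  have hlv : Real.log (v : ℝ) ≤ Real.log N := Real.log_le_log (by linarith) (by exact_mod_cast hv2)
  have hl2 : Real.log 2 ≤ 1 := by
    have := Real.log_two_lt_d9
    linarith
  have hlv2 : Real.log N - 1 ≤ Real.log v := by
    have h4 : (N : ℝ) ≤ 2 * v := by exact_mod_cast hv1
    have h5 := Real.log_le_log (by linarith) h4
    rw [Real.log_mul (by norm_num) (by linarith)] at h5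
    linarith
  have hlv0 : 0 < Real.log v := by linarith
  have hlN0 : 0 < Real.log N := by linarith
  have hbb : bb c v = c / Real.log v := by
    unfold bb
    apply min_eq_right
    rw [div_le_one hlv0]
    linarith
  rw [hbb]
  constructor
  · exact div_le_div_of_nonneg_left hc.le hlv0 hlv
  · rw [div_le_iff₀ hlv0]
    have h6 : (1 + ε) ≤ ε * Real.log N := by
      rw [div_le_iff₀ hε] at h2
      linarith
    have h7 : Real.log N ≤ (1 + ε) * Real.log v := by
      have : (1 + ε) * (Real.log N - 1) ≤ (1 + ε) * Real.log v :=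
        mul_le_mul_of_nonneg_left hlv2 (by linarith)
      linarith
    calc c = c / Real.log N * Real.log N := by field_simp
      _ ≤ c / Real.log N * ((1 + ε) * Real.log v) :=
          mul_le_mul_of_nonneg_left h7 (by positivity)
      _ = (1 + ε) * (c / Real.log N) * Real.log v := by ring

/-- **sums of an element of an adapted set `B` and a chosen integer** -/
theorem comp_law (hA : ∀ n, MeasurableSet[ℱ n] (A n)) {W : ℕ} (hW : 0 < W)
    (hd : ∀ᵐ ω ∂μ, ∀ ε : ℝ, 0 < ε → ∀ᶠ n : ℕ in atTop,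
      |dens μ ℱ A n ω - rhoW W (n + 1)| ≤ ε * rhoW W (n + 1))
    (hB : ∀ n, MeasurableSet[ℱ n] (B n)) :
    ∀ᵐ ω ∂μ, ∀ ε : ℝ, 0 < ε → ∃ C : ℝ, 0 < C ∧ ∀ᶠ N : ℕ in atTop, ∀ x : ℕ, 2 * x < N →
      |∑ s ∈ Finset.Icc 1 x, In B s ω * In A (N - s) ω -
        ((W : ℝ) / Nat.totient W) / Real.log N *
          ∑ s ∈ Finset.Icc 1 x, (if Nat.Coprime (N - s) W then In B s ω else 0)| ≤
        ε * (((W : ℝ) / Nat.totient W) / Real.log N *
          ∑ s ∈ Finset.Icc 1 x, (if Nat.Coprime (N - s) W then In B s ω else 0)) +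
          C * Real.log N := by
  classical
  set c : ℝ := (W : ℝ) / Nat.totient W with hc
  have hφ : 0 < Nat.totient W := Nat.totient_pos.2 hW
  have hc0 : 0 < c := by
    have : (0 : ℝ) < W := by exact_mod_cast hW
    have : (0 : ℝ) < Nat.totient W := by exact_mod_cast hφ
    positivity
  have hmeas : ∀ N v : ℕ, 1 ≤ v → StronglyMeasurable[ℱ (v - 1)]
      (fun ω => if N + 1 ≤ 2 * v ∧ v ≤ N then In B (N - v) ω else 0) := by
    intro N v hv
    by_cases h : N + 1 ≤ 2 * v ∧ v ≤ N
    · simp only [h, and_self, if_true]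
      exact (@stronglyMeasurable_const _ _ (ℱ (v - 1)) _ _).indicator
        (ℱ.mono (by omega) _ (hB (N - v)))
    · simp only [h, if_false]
      exact @stronglyMeasurable_const _ _ (ℱ (v - 1)) _ _
  filter_upwards [eng (μ := μ) hA (rhoW W) (fun n => ⟨rhoW_nonneg W n, rhoW_le W n⟩) hd 1
    (fun N v ω => if N + 1 ≤ 2 * v ∧ v ≤ N then In B (N - v) ω else 0) hmeas (by
      intro N v ω
      split_ifs
      · exact ⟨In_nonneg _ _, In_le _ _⟩
      · exact ⟨le_rfl, zero_le_one⟩)] with ω hω ε hε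
  set η : ℝ := min 1 (ε / 4) with hη
  have hη0 : 0 < η := by positivity
  have hη1 : η ≤ 1 := min_le_left _ _
  have hηε : η ≤ ε / 4 := min_le_right _ _
  obtain ⟨C, hC0, hC⟩ := hω η hη0
  refine ⟨C, hC0, ?_⟩
  filter_upwards [hC, log_half hc0 hη0, eventually_ge_atTop 2] with N hN hh hN2 x hx
  have h1 := hN (N - x) N (by omega) (by simp)
  have hlog : 0 < Real.log (N : ℝ) := Real.log_pos (by exact_mod_cast hN2)
  -- reflection
  have hIcc : Finset.Icc 1 x = Finset.Ico 1 (x + 1) := by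
    ext v
    simp only [Finset.mem_Icc, Finset.mem_Ico]
    omega
  have hrefl : ∀ F : ℕ → ℝ, ∑ v ∈ Finset.Ico (N - x) N, F v = ∑ s ∈ Finset.Icc 1 x, F (N - s) := by
    intro F
    rw [hIcc, Finset.sum_Ico_reflect F 1 (by omega : x + 1 ≤ N + 1),
      show N + 1 - (x + 1) = N - x by omega, show N + 1 - 1 = N by omega]
  rw [hrefl (fun v => (if N + 1 ≤ 2 * v ∧ v ≤ N then In B (N - v) ω else 0) * In A v ω),
    hrefl (fun v => (if N + 1 ≤ 2 * v ∧ v ≤ N then In B (N - v) ω else 0) * rhoW W v)] at h1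
  have e1 : ∑ s ∈ Finset.Icc 1 x, (if N + 1 ≤ 2 * (N - s) ∧ N - s ≤ N then In B (N - (N - s)) ω
      else 0) * In A (N - s) ω = ∑ s ∈ Finset.Icc 1 x, In B s ω * In A (N - s) ω := by
    apply Finset.sum_congr rfl
    intro s hs
    have hs' := Finset.mem_Icc.1 hs
    rw [if_pos ⟨by omega, by omega⟩, show N - (N - s) = s by omega]
  have e2 : ∑ s ∈ Finset.Icc 1 x, (if N + 1 ≤ 2 * (N - s) ∧ N - s ≤ N then In B (N - (N - s)) ω
      else 0) * rhoW W (N - s) =
      ∑ s ∈ Finset.Icc 1 x, (if Nat.Coprime (N - s) W then In B s ω * bb c (N - s) else 0) := by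
    apply Finset.sum_congr rfl
    intro s hs
    have hs' := Finset.mem_Icc.1 hs
    rw [if_pos ⟨by omega, by omega⟩, show N - (N - s) = s by omega, rhoW_eq]
    split_ifs
    · rfl
    · rw [mul_zero]
  rw [e1, e2] at h1
  set R := ∑ s ∈ Finset.Icc 1 x, In B s ω * In A (N - s) ω with hR
  set D := ∑ s ∈ Finset.Icc 1 x, (if Nat.Coprime (N - s) W then In B s ω * bb c (N - s) else 0) with hD
  set S := ∑ s ∈ Finset.Icc 1 x, (if Nat.Coprime (N - s) W then In B s ω else 0) with hS
  have hS0 : 0 ≤ S := Finset.sum_nonneg fun s _ => by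
    split_ifs
    · exact In_nonneg _ _
    · exact le_rfl
  have hD1 : c / Real.log N * S ≤ D := by
    rw [hS, hD, Finset.mul_sum]
    apply Finset.sum_le_sum
    intro s hs
    have hs' := Finset.mem_Icc.1 hs
    split_ifs
    · have := (hh (N - s) (by omega) (by omega)).1
      rw [mul_comm]
      exact mul_le_mul_of_nonneg_left this (In_nonneg _ _)
    · rw [mul_zero]
  have hD2 : D ≤ (1 + η) * (c / Real.log N * S) := by
    rw [hS, hD, ← mul_assoc, Finset.mul_sum]
    apply Finset.sum_le_sum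
    intro s hs
    have hs' := Finset.mem_Icc.1 hs
    split_ifs
    · have := (hh (N - s) (by omega) (by omega)).2
      rw [mul_comm ((1 + η) * (c / Real.log N))]
      exact mul_le_mul_of_nonneg_left this (In_nonneg _ _)
    · rw [mul_zero]
  set Z : ℝ := c / Real.log N * S with hZ
  have hZ0 : 0 ≤ Z := by positivity
  have a1 := abs_le.1 h1
  have g1 : η * D ≤ η * ((1 + η) * Z) := mul_le_mul_of_nonneg_left hD2 hη0.le
  have g2 : η * ((1 + η) * Z) ≤ 2 * (η * Z) := by
    have : (1 + η) * Z ≤ 2 * Z := by nlinarith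
    nlinarith
  have g3 : η * Z ≤ ε / 4 * Z := mul_le_mul_of_nonneg_right hηε hZ0
  have g4 : 0 ≤ ε * Z := mul_nonneg hε.le hZ0
  rw [abs_le]
  constructor <;> nlinarith

/-- the residue classes `b` with `b` and `N - b` coprime to `W` -/
def gcl (W N : ℕ) : Finset ℕ := (Finset.range W).filter (fun b => Nat.Coprime b W ∧
  Nat.Coprime (N + (W - 1) * b) W)

lemma gcl_iff {W N s : ℕ} (hW : 0 < W) (hs : s ≤ N) :
    s % W ∈ gcl W N ↔ Nat.Coprime s W ∧ Nat.Coprime (N - s) W := by
  have h1 : ∀ v, Nat.Coprime (v % W) W ↔ Nat.Coprime v W := by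
    intro v
    rw [Nat.Coprime, Nat.Coprime, ← Nat.gcd_rec, Nat.gcd_comm]
  have h2 : Nat.Coprime (N + (W - 1) * (s % W)) W ↔ Nat.Coprime (N - s) W := by
    have h3 : N + (W - 1) * s = (N - s) + W * s := by
      obtain ⟨w, rfl⟩ : ∃ w, W = w + 1 := ⟨W - 1, by omega⟩
      rw [Nat.add_sub_cancel]
      have : (w + 1) * s = w * s + s := by ring
      rw [this]
      omega
    have h4 : (N + (W - 1) * (s % W)) % W = (N - s) % W := by
      have h5 : (N + (W - 1) * (s % W)) % W = (N + (W - 1) * s) % W := by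
        rw [Nat.add_mod, Nat.mul_mod, Nat.mod_mod, ← Nat.mul_mod, ← Nat.add_mod]
      rw [h5, h3, Nat.add_mul_mod_self_left]
    rw [← h1 (N - s), ← h4, h1]
  unfold gcl
  rw [Finset.mem_filter, Finset.mem_range, h1, h2]
  exact ⟨fun h => h.2, fun h => ⟨Nat.mod_lt _ hW, h⟩⟩

/-- the local factor -/
lemma gcl_card (Q : Finset ℕ) (hQ : ∀ p ∈ Q, p.Prime) {N : ℕ} (hN : ∏ p ∈ Q, p ≤ N) :
    (((∏ p ∈ Q, p : ℕ) : ℝ) / Nat.totient (∏ p ∈ Q, p)) *
      (((gcl (∏ p ∈ Q, p) N).card : ℝ) / Nat.totient (∏ p ∈ Q, p)) = singQ Q N := by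
  classical
  set W := ∏ p ∈ Q, p with hWdef
  have hW : 0 < W := Finset.prod_pos fun q hq => (hQ q hq).pos
  have h1 := singQ_eq Q hQ N
  rw [← hWdef] at h1
  rw [← h1]
  have h2 : Nat.count (good (PP N) W) W = (gcl W N).card := by
    rw [Nat.count_eq_card_filter_range]
    congr 1
    ext b
    rw [Finset.mem_filter, Finset.mem_range]
    constructor
    · rintro ⟨hb, h⟩
      rw [good_PP N W b (by omega)] at h
      have := (gcl_iff hW (show b ≤ N by omega)).2 h
      rwa [Nat.mod_eq_of_lt hb] at this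
    · intro h
      have hb : b < W := Finset.mem_range.1 (Finset.mem_filter.1 h).1
      refine ⟨hb, ?_⟩
      rw [good_PP N W b (by omega)]
      apply (gcl_iff hW (show b ≤ N by omega)).1
      rwa [Nat.mod_eq_of_lt hb]
  rw [h2]
  have hWR : (0 : ℝ) < W := by exact_mod_cast hW
  have hφR : (0 : ℝ) < Nat.totient W := by exact_mod_cast Nat.totient_pos.2 hW
  field_simp

/-- **sums of a chosen integer with index in `T` and a chosen integer** -/
theorem main_law (hA : ∀ n, MeasurableSet[ℱ n] (A n)) (Q : Finset ℕ) (hQ : ∀ p ∈ Q, p.Prime)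
    (hcop : ∀ n, (∃ p ∈ Q, p ∣ n) → A n = ∅)
    (hd : ∀ᵐ ω ∂μ, Tendsto (fun n : ℕ => dens μ ℱ A n ω * Real.log n)
      (atTop ⊓ 𝓟 {n : ℕ | ∀ p ∈ Q, ¬ p ∣ n + 1}) (𝓝 (∏ p ∈ Q, (1 - 1 / (p : ℝ))⁻¹)))
    (hT : ∀ n, MeasurableSet[ℱ n] (T n)) :
    ∀ᵐ ω ∂μ, ∀ ε : ℝ, 0 < ε → ∃ C : ℝ, 0 < C ∧ ∀ᶠ N : ℕ in atTop, ∀ x : ℕ, 2 * x < N →
      |∑ s ∈ Finset.Icc 1 x, In (Us A T) s ω * In A (N - s) ω -
        singQ Q N * (∑ s ∈ Finset.Icc 1 x, In (Us A T) s ω) / Real.log N| ≤
        ε * ((∑ s ∈ Finset.Icc 1 x, In (Us A T) s ω) / Real.log N) + C * Real.log N := by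
  classical
  set W := ∏ p ∈ Q, p with hWdef
  have hW : 0 < W := Finset.prod_pos fun q hq => (hQ q hq).pos
  have hprof := profile (μ := μ) hA Q hQ hcop hd
  have hcop' : ∀ n, ¬ Nat.Coprime n W → A n = ∅ := by
    intro n hn
    apply hcop
    rw [coprime_prod_iff Q hQ] at hn
    push Not at hn
    exact hn
  have hUs : ∀ n, MeasurableSet[ℱ n] (Us A T n) := Us_meas hA hT
  filter_upwards [index_law (μ := μ) hA hW hcop' hprof hT 2,
    comp_law (μ := μ) hA hW hprof hUs] with ω hω1 hω2 ε hε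
  set c : ℝ := (W : ℝ) / Nat.totient W with hc
  have hφ : 0 < Nat.totient W := Nat.totient_pos.2 hW
  have hφR : (0 : ℝ) < Nat.totient W := by exact_mod_cast hφ
  have hφ1 : (1 : ℝ) ≤ Nat.totient W := by exact_mod_cast hφ
  have hWR : (1 : ℝ) ≤ W := by exact_mod_cast hW
  have hc0 : 0 < c := by positivity
  have hcW : c ≤ W := by
    rw [hc, div_le_iff₀ hφR]
    nlinarith
  set η : ℝ := min 1 (ε / (4 * W ^ 2)) with hη
  have hη0 : 0 < η := by positivity
  have hη1 : η ≤ 1 := min_le_left _ _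
  have hηε : 4 * (W : ℝ) ^ 2 * η ≤ ε := by
    have : η ≤ ε / (4 * W ^ 2) := min_le_right _ _
    rw [le_div_iff₀ (by positivity)] at this
    linarith
  obtain ⟨C1, hC10, hC1⟩ := hω1 η hη0
  obtain ⟨C2, hC20, hC2⟩ := hω2 η hη0
  have hlog : Tendsto (fun N : ℕ => Real.log (N : ℝ)) atTop atTop :=
    Real.tendsto_log_atTop.comp tendsto_natCast_atTop_atTop
  refine ⟨4 * W ^ 2 * C1 + C2, by positivity, ?_⟩
  filter_upwards [hC1, hC2, hlog.eventually_ge_atTop 1, eventually_ge_atTop W,
    eventually_ge_atTop 2] with N h1 h2 h3 h4 h5 x hx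
  have hlog0 : 0 < Real.log (N : ℝ) := by linarith
  have h6 := h2 x hx
  have hx2 : x + 1 ≤ N ^ 2 := by nlinarith
  set t : ℝ := ∑ s ∈ Finset.Icc 1 x, In (Us A T) s ω with ht
  have ht0 : 0 ≤ t := Finset.sum_nonneg fun v _ => In_nonneg _ _
  set S := ∑ s ∈ Finset.Icc 1 x, (if Nat.Coprime (N - s) W then In (Us A T) s ω else 0) with hS
  set Nb : ℕ → ℝ := fun b => ∑ v ∈ Finset.Icc 1 x, (if v % W = b then In (Us A T) v ω else 0) with hNb
  have hSsum : S = ∑ b ∈ gcl W N, Nb b := by
    rw [hNb]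
    simp only
    rw [Finset.sum_comm]
    apply Finset.sum_congr rfl
    intro v hv
    have hv' := Finset.mem_Icc.1 hv
    rw [Finset.sum_ite_eq]
    have h7 := gcl_iff (W := W) (N := N) (s := v) hW (by omega)
    by_cases h8 : Nat.Coprime v W
    · by_cases h9 : Nat.Coprime (N - v) W
      · rw [if_pos h9, if_pos (h7.2 ⟨h8, h9⟩)]
      · rw [if_neg h9, if_neg (fun h => h9 (h7.1 h).2)]
    · have h9 : In (Us A T) v ω = 0 := by
        apply indicator_of_notMem
        intro h
        have := h.1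
        rw [hcop' v h8] at this
        exact this
      rw [h9]
      split_ifs <;> rfl
  set g : ℝ := ((gcl W N).card : ℝ) with hg
  have hgW : g ≤ W := by
    rw [hg]
    have : (gcl W N).card ≤ W := by
      have := Finset.card_filter_le (Finset.range W) (fun b => Nat.Coprime b W ∧
        Nat.Coprime (N + (W - 1) * b) W)
      rw [Finset.card_range] at this
      exact this
    exact_mod_cast this
  have hg0 : 0 ≤ g := Nat.cast_nonneg _
  have h7 : |Nat.totient W * S - g * t| ≤ g * (η * t + C1 * Real.log N) := by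
    rw [hSsum, hg, Finset.mul_sum, ← nsmul_eq_mul, ← Finset.sum_const, ← Finset.sum_sub_distrib,
      ← nsmul_eq_mul, ← Finset.sum_const]
    refine (Finset.abs_sum_le_sum_abs _ _).trans (Finset.sum_le_sum fun b hb => ?_)
    have hb' := Finset.mem_filter.1 hb
    exact h1 x hx2 b (Finset.mem_range.1 hb'.1) hb'.2.1
  have hsing := gcl_card Q hQ (N := N) h4
  rw [← hWdef, ← hc, ← hg] at hsing
  -- `S` against `g t / φ`
  have h8 : |S - g / Nat.totient W * t| ≤ W * (η * t + C1 * Real.log N) := by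
    have e1 : S - g / Nat.totient W * t = (Nat.totient W * S - g * t) / Nat.totient W := by
      field_simp
    rw [e1, abs_div, abs_of_pos hφR, div_le_iff₀ hφR]
    refine h7.trans ?_
    have e2 : 0 ≤ η * t + C1 * Real.log N := by positivity
    calc g * (η * t + C1 * Real.log N) ≤ W * (η * t + C1 * Real.log N) :=
          mul_le_mul_of_nonneg_right hgW e2
      _ ≤ W * (η * t + C1 * Real.log N) * Nat.totient W := le_mul_of_one_le_right (by positivity) hφ1
  have h9 : |c / Real.log N * S - singQ Q N * t / Real.log N| ≤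
      W ^ 2 * (η * (t / Real.log N) + C1) := by
    have e1 : c / Real.log N * S - singQ Q N * t / Real.log N =
        c / Real.log N * (S - g / Nat.totient W * t) := by
      rw [← hsing]
      ring
    rw [e1, abs_mul, abs_of_pos (by positivity)]
    calc c / Real.log N * |S - g / Nat.totient W * t| ≤
          W / Real.log N * (W * (η * t + C1 * Real.log N)) := by
          apply mul_le_mul _ h8 (abs_nonneg _) (by positivity)
          gcongr
      _ = W ^ 2 * (η * (t / Real.log N) + C1) := by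
          field_simp
  set Z : ℝ := c / Real.log N * S with hZ
  have hS0 : 0 ≤ S := Finset.sum_nonneg fun s _ => by
    split_ifs
    · exact In_nonneg _ _
    · exact le_rfl
  have hZ0 : 0 ≤ Z := by positivity
  have hSt : S ≤ t := by
    apply Finset.sum_le_sum
    intro s _
    split_ifs
    · exact le_rfl
    · exact In_nonneg _ _
  have hZt : Z ≤ W * (t / Real.log N) := by
    calc Z = c / Real.log N * S := rfl
      _ ≤ W / Real.log N * t := by
          apply mul_le_mul _ hSt hS0 (by positivity)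
          gcongr
      _ = W * (t / Real.log N) := by ring
  have hτ0 : 0 ≤ t / Real.log N := by positivity
  have hηZ : η * Z ≤ W ^ 2 * η * (t / Real.log N) := by
    calc η * Z ≤ η * (W * (t / Real.log N)) := mul_le_mul_of_nonneg_left hZt hη0.le
      _ ≤ η * (W ^ 2 * (t / Real.log N)) := by
          apply mul_le_mul_of_nonneg_left _ hη0.le
          apply mul_le_mul_of_nonneg_right _ hτ0
          nlinarith
      _ = _ := by ring
  have hετ : 2 * (W : ℝ) ^ 2 * η * (t / Real.log N) ≤ ε * (t / Real.log N) := by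
    apply mul_le_mul_of_nonneg_right _ hτ0
    have : 0 ≤ (W : ℝ) ^ 2 * η := by positivity
    linarith
  have hlogC : (W : ℝ) ^ 2 * C1 ≤ 4 * W ^ 2 * C1 * Real.log N := by
    have h10 : 0 ≤ (W : ℝ) ^ 2 * C1 := by positivity
    nlinarith
  have a1 := abs_le.1 h6
  have a2 := abs_le.1 h9
  rw [abs_le]
  constructor <;> nlinarith

end Pool.Agent.N9.AD
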