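import Mathlib
import Pool.Agent.H95.P.N9_AD_Ab
import Pool.Agent.H95.P.N740_HK_Lim

set_option autoImplicit false
set_option linter.unusedSectionVars false

/-! # Sieved sequential models: the notions used in the results, and counting by `ncard` -/

open MeasureTheory Filter Set
open scoped ENNReal Topology

namespace Pool.Agent.N9.AD

open Pool.Agent.R528.RM Pool.Agent.N893.SM

variable {Ω : Type} {A T : ℕ → Set Ω}

/-- the number of the `1 ≤ s ≤ x` with a property, as a sum -/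
lemma ncard_sum (P : ℕ → Prop) (F : ℕ → ℝ) (x : ℕ) (h1 : ∀ s, P s → F s = 1) (h0 : ∀ s, ¬ P s → F s = 0) :
    ((({s : ℕ | 1 ≤ s ∧ s ≤ x ∧ P s}.ncard : ℕ)) : ℝ) = ∑ s ∈ Finset.Icc 1 x, F s := by
  classical
  have e1 : ∀ s ∈ Finset.Icc 1 x, F s = if P s then 1 else 0 := by
    intro s _
    split_ifs with h
    · exact h1 s h
    · exact h0 s h
  rw [Finset.sum_congr rfl e1, Finset.sum_boole]
  congr 1
  rw [← Set.ncard_coe_finset]
  congr 1
  ext s
  simp only [Set.mem_ofPred_eq, Finset.coe_filter, Finset.mem_Icc]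
  tauto

/-- the number of the chosen integers -/
lemma cnt_ncard (ω : Ω) (n : ℕ) : {i : ℕ | 1 ≤ i ∧ i ≤ n ∧ ω ∈ A i}.ncard = cnt A ω n := by
  have h := ncard_sum (fun s => ω ∈ A s) (fun s => In A s ω) n
    (fun s h => indicator_of_mem h _) (fun s h => indicator_of_notMem h _)
  rw [← cnt_cast] at h
  exact_mod_cast h

/-- `A n` is the event that `n` is chosen; adapted to `ℱ`; multiples of the primes in `Q` are not
chosen; the conditional probability of `A (n + 1)` given `ℱ n`, times `log n`, tends almost surely to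
`∏_{p ∈ Q} (1 - 1 / p)⁻¹` along the `n` such that no `p ∈ Q` divides `n + 1` -/
def SM [m : MeasurableSpace Ω] (μ : Measure Ω) (ℱ : Filtration ℕ m) (A : ℕ → Set Ω)
    (Q : Finset ℕ) : Prop :=
  (∀ n, MeasurableSet[ℱ n] (A n)) ∧ (∀ n, (∃ p ∈ Q, p ∣ n) → A n = ∅) ∧
  ∀ᵐ ω ∂μ, Tendsto (fun n : ℕ => (μ[(A (n + 1)).indicator (fun _ => (1 : ℝ)) | ℱ n]) ω * Real.log n)
    (atTop ⊓ 𝓟 {n : ℕ | ∀ p ∈ Q, ¬ p ∣ n + 1}) (𝓝 (∏ p ∈ Q, (1 - 1 / (p : ℝ))⁻¹))

open Classical in
/-- The random sieve of Hawkins: `2` is chosen, and given the decisions up to `n ≥ 2` the number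
`n + 1` is chosen with probability `∏ (1 - 1 / h)`, the product over the chosen `2 ≤ h ≤ n`. -/
def HS [m : MeasurableSpace Ω] (μ : Measure Ω) (ℱ : Filtration ℕ m) (A : ℕ → Set Ω) : Prop :=
  (∀ n, MeasurableSet[ℱ n] (A n)) ∧ A 2 = univ ∧
  ∀ n, 2 ≤ n → μ[(A (n + 1)).indicator (fun _ => (1 : ℝ)) | ℱ n] =ᵐ[μ]
    fun ω => ∏ h ∈ Finset.Icc 2 n, if ω ∈ A h then 1 - 1 / (h : ℝ) else 1

/-- Hawkins' sieve is a sequential model -/
theorem hawkins [m : MeasurableSpace Ω] (μ : Measure Ω) [IsProbabilityMeasure μ]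
    (ℱ : Filtration ℕ m) (A : ℕ → Set Ω) (h : HS μ ℱ A) : SM μ ℱ A ∅ := by
  classical
  obtain ⟨h1, h2, h3⟩ := h
  have hs : Pool.Agent.N740.HK.HS μ ℱ A := ⟨h1, h2, fun n hn => by
    filter_upwards [h3 n hn] with ω hω
    have e : (∏ h ∈ Finset.Icc 2 n, if ω ∈ A h then 1 - 1 / (h : ℝ) else 1) =
        (Pool.Agent.N740.HK.Y A n ω)⁻¹ := by
      unfold Pool.Agent.N740.HK.Y
      rw [← Finset.prod_inv_distrib]
      refine Finset.prod_congr rfl fun h hh => ?_
      have h2 : (2 : ℝ) ≤ h := by exact_mod_cast (Finset.mem_Icc.1 hh).1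
      by_cases hA : ω ∈ A h
      · rw [if_pos hA, if_pos hA, inv_div]
        field_simp
      · rw [if_neg hA, if_neg hA, inv_one]
    rw [← e]
    exact hω⟩
  refine ⟨h1, fun n hn => ?_, ?_⟩
  · obtain ⟨p, hp, _⟩ := hn
    exact absurd hp (Finset.notMem_empty p)
  · filter_upwards [Pool.Agent.N740.HK.hawk_dens hs] with ω hω
    rw [Finset.prod_empty]
    exact hω.mono_left inf_le_left

end Pool.Agent.N9.AD
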